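import Pool.Agent.H36.MinNum.Sd

/-!
Existence of a maximal set.
-/

namespace Pool.Agent.H36.MinNum

open Pool.Agent.H36.LFI

section Prims

variable {α : Type} [Primcodable α]

theorem p_append {f g : α → List ℕ} (hf : Primrec f) (hg : Primrec g) :
    Primrec (fun a => f a ++ g a) := Primrec.list_append.comp hf hg
theorem p_cons {f : α → ℕ} {g : α → List ℕ} (hf : Primrec f) (hg : Primrec g) :
    Primrec (fun a => f a :: g a) := Primrec.list_cons.comp hf hg

/-- membership in the stage approximation of the k-th c.e. set, as a number -/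
def bb (k s x : ℕ) : ℕ :=
  if (Nat.Partrec.Code.evaln s (Denumerable.ofNat Nat.Partrec.Code k) x).isSome = true
  then 1 else 0

theorem p_bb {k s x : α → ℕ} (hk : Primrec k) (hs : Primrec s) (hx : Primrec x) :
    Primrec (fun a => bb (k a) (s a) (x a)) := by
  refine Primrec.ite ?_ (Primrec.const 1) (Primrec.const 0)
  exact PrimrecPred.isSome_evaln ((Primrec.ofNat _).comp hk) hs hx

/-- state of an element -/
def es (s i x : ℕ) : ℕ := Nat.rec (bb 0 s x) (fun k r => 2 * r + bb (k + 1) s x) i

theorem es_zero (s x : ℕ) : es s 0 x = bb 0 s x := rfl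
theorem es_succ (s i x : ℕ) : es s (i + 1) x = 2 * es s i x + bb (i + 1) s x := rfl

theorem p_es {s i x : α → ℕ} (hs : Primrec s) (hi : Primrec i) (hx : Primrec x) :
    Primrec (fun a => es (s a) (i a) (x a)) := by
  have h : Primrec₂ (fun (p : ℕ × ℕ) (i : ℕ) =>
      (Nat.rec (bb 0 p.1 p.2) (fun k r => 2 * r + bb (k + 1) p.1 p.2) i : ℕ)) := by
    refine Primrec.nat_rec (f := fun p : ℕ × ℕ => bb 0 p.1 p.2)
      (g := fun (p : ℕ × ℕ) (kr : ℕ × ℕ) => 2 * kr.2 + bb (kr.1 + 1) p.1 p.2) ?_ ?_
    · exact p_bb (Primrec.const 0) Primrec.fst Primrec.snd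
    · have h1 : Primrec (fun x : (ℕ × ℕ) × ℕ × ℕ => bb (x.2.1 + 1) x.1.1 x.1.2) :=
        p_bb (by (repeat' with_reducible first | assumption | exact p_id | exact p_const _ | refine p_fst ?_ | refine p_snd ?_ | refine p_unpair ?_ | refine p_npair ?_ ?_ | refine p_getD _ ?_ ?_ | refine p_length ?_ | refine p_add ?_ ?_)) (by (repeat' with_reducible first | assumption | exact p_id | exact p_const _ | refine p_fst ?_)) (by (repeat' with_reducible first | assumption | exact p_id | exact p_const _ | refine p_fst ?_ | refine p_snd ?_))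
      show Primrec (fun x : (ℕ × ℕ) × ℕ × ℕ => 2 * x.2.2 + bb (x.2.1 + 1) x.1.1 x.1.2)
      (repeat' with_reducible first | assumption | exact p_id | exact p_const _ | refine p_fst ?_ | refine p_snd ?_ | refine p_unpair ?_ | refine p_npair ?_ ?_ | refine p_getD _ ?_ ?_ | refine p_length ?_ | refine p_add ?_ ?_ | refine p_mul ?_ ?_)
  exact h.comp (Primrec.pair hs hx) hi

end Prims

def NoBelow (s n : ℕ) (L : List ℕ) : Prop :=
  ∀ i, i < n → ∀ j, j < L.length → i < j → es s i (L.getD j 0) ≤ es s i (L.getD i 0)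

/-- One stage of the construction. -/
def MStep (s : ℕ) (L L' : List ℕ) : Prop :=
  (∃ (P : List ℕ) (x : ℕ) (Q : List ℕ) (y : ℕ) (S : List ℕ),
    L = P ++ (x :: (Q ++ (y :: S))) ∧ L' = P ++ (y :: S) ∧
    es s P.length x < es s P.length y ∧ NoBelow s P.length L) ∨
  (L' = L ∧ NoBelow s L.length L)

theorem s_MStep : SD (fun x : (ℕ × List ℕ) × List ℕ => MStep x.1.1 x.1.2 x.2) := by
  unfold MStep NoBelow
  (repeat' with_reducible first | assumption | exact p_id | exact p_const _ | refine s_and ?_ ?_ | refine s_or ?_ ?_ | refine s_eq ?_ ?_ | refine s_ne ?_ ?_ | refine s_not_eq ?_ ?_ | refine s_lt ?_ ?_ | refine s_le ?_ ?_ | refine s_not_lt ?_ ?_ | refine s_not_le ?_ ?_ | refine s_not_and ?_ ?_ | refine s_not_or ?_ ?_ | refine s_not_not ?_ | refine s_ball ?_ ?_ | refine s_ball_le ?_ ?_ | refine s_mem ?_ ?_ | refine s_ex ?_ | refine s_imp ?_ ?_ | refine p_append ?_ ?_ | refine p_cons ?_ ?_ | refine p_es ?_ ?_ ?_ | refine p_fst ?_ | refine p_snd ?_ | refine p_unpair ?_ | refine p_npair ?_ ?_ | refine p_getD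 _ ?_ ?_ | refine p_length ?_)

theorem list_split {L : List ℕ} {i j : ℕ} (hij : i < j) (hj : j < L.length) :
    ∃ P Q S, P.length = i ∧
      L = P ++ (L.getD i 0 :: (Q ++ (L.getD j 0 :: S))) := by
  refine ⟨L.take i, (L.drop (i + 1)).take (j - (i + 1)), L.drop (j + 1), ?_, ?_⟩
  · rw [List.length_take]
    omega
  · have h1 : L.drop (i + 1) = (L.drop (i + 1)).take (j - (i + 1)) ++
        (L.getD j 0 :: L.drop (j + 1)) := by
      conv_lhs => rw [← List.take_append_drop (j - (i + 1)) (L.drop (i + 1))]
      congr 1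
      rw [List.drop_drop, show i + 1 + (j - (i + 1)) = j by omega,
        List.drop_eq_getElem_cons hj, List.getD_eq_getElem _ _ hj]
    rw [← h1]
    conv_lhs => rw [← List.take_append_drop i L]
    congr 1
    rw [List.drop_eq_getElem_cons (by omega), List.getD_eq_getElem _ _ (by omega)]

theorem MStep_total (s : ℕ) (L : List ℕ) : ∃ L', MStep s L L' := by
  classical
  by_cases h : NoBelow s L.length L
  · exact ⟨L, Or.inr ⟨rfl, h⟩⟩
  · have hex : ∃ i, ∃ j, j < L.length ∧ i < j ∧
        es s i (L.getD i 0) < es s i (L.getD j 0) := by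
      unfold NoBelow at h
      push Not at h
      obtain ⟨i, _, j, hj, hij, hlt⟩ := h
      exact ⟨i, j, hj, hij, hlt⟩
    obtain ⟨j, hj, hij, hlt⟩ := Nat.find_spec hex
    have hmin : NoBelow s (Nat.find hex) L := by
      intro i hi j hj hij
      by_contra hcon
      push Not at hcon
      exact Nat.find_min hex hi ⟨j, hj, hij, hcon⟩
    obtain ⟨P, Q, S, hP, hL⟩ := list_split hij hj
    refine ⟨P ++ (L.getD j 0 :: S), Or.inl ⟨P, _, Q, _, S, hL, rfl, ?_, ?_⟩⟩
    · rw [hP]
      exact hlt
    · rw [hP]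
      exact hmin

theorem exists_stages : ∃ Ls : ℕ → List ℕ, Computable Ls ∧ Ls 0 = [] ∧
    ∀ s, MStep s (Ls s ++ [s]) (Ls (s + 1)) := by
  obtain ⟨f, hf, hR⟩ := exists_sel_total (R := fun (x : ℕ × List ℕ) L' => MStep x.1 x.2 L')
    s_MStep (fun x => MStep_total x.1 x.2)
  refine ⟨fun s => Nat.rec [] (fun s L => f (s, L ++ [s])) s, ?_, rfl, fun s =>
    hR (s, (Nat.rec [] (fun s L => f (s, L ++ [s])) s : List ℕ) ++ [s])⟩
  have hg : Computable₂ (fun (_ : ℕ) (x : ℕ × List ℕ) => f (x.1, x.2 ++ [x.1])) := by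
    have h1 : Primrec (fun x : ℕ × ℕ × List ℕ => (x.2.1, x.2.2 ++ [x.2.1])) := by (repeat' with_reducible first | assumption | exact p_id | exact p_const _ | refine p_append ?_ ?_ | refine p_cons ?_ ?_ | refine p_es ?_ ?_ ?_ | refine p_fst ?_ | refine p_snd ?_ | refine p_unpair ?_ | refine p_npair ?_ ?_ | refine p_getD _ ?_ ?_ | refine p_length ?_ | refine p_add ?_ ?_ | refine p_mul ?_ ?_ | refine p_sub ?_ ?_ | refine p_div ?_ ?_ | refine p_mod ?_ ?_ | refine p_pow ?_ ?_ | refine p_pair ?_ ?_)
    exact hf.comp h1.to_comp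
  exact Computable.nat_rec Computable.id (Computable.const []) hg

/-- summary of a stage -/
theorem MStep_summary {s : ℕ} {L L' : List ℕ} (h : MStep s (L ++ [s]) L') :
    ∃ p, p ≤ L.length ∧ p < L'.length ∧ (∀ k, k < p → L'.getD k 0 = L.getD k 0) ∧
      (p < L.length → es s p (L.getD p 0) < es s p (L'.getD p 0)) ∧
      ∀ i, i < p → ∀ j, i < j → j < L.length → es s i (L.getD j 0) ≤ es s i (L.getD i 0) := by
  have hgd : ∀ k, k < L.length → (L ++ [s]).getD k 0 = L.getD k 0 := by
    intro k hk
    rw [List.getD_append _ _ _ _ hk]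
  have hnb : ∀ p, p ≤ L.length → NoBelow s p (L ++ [s]) →
      ∀ i, i < p → ∀ j, i < j → j < L.length → es s i (L.getD j 0) ≤ es s i (L.getD i 0) := by
    intro p hp hN i hi j hij hj
    have := hN i hi j (by rw [List.length_append]; simp; omega) hij
    rwa [hgd j hj, hgd i (by omega)] at this
  rcases h with ⟨P, x, Q, y, S, h1, rfl, h3, h4⟩ | ⟨rfl, h2⟩
  · have hlen : L.length + 1 = P.length + (1 + (Q.length + (1 + S.length))) := by
      have := congrArg List.length h1
      simp only [List.length_append, List.length_cons, List.length_nil] at this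
      omega
    refine ⟨P.length, by omega, ?_, ?_, ?_, hnb _ (by omega) h4⟩
    · simp
    · intro k hk
      rw [← hgd k (by omega), h1, List.getD_append _ _ _ _ hk, List.getD_append _ _ _ _ hk]
    · intro _
      rw [← hgd P.length (by omega), h1, List.getD_append_right _ _ _ _ le_rfl,
        List.getD_append_right _ _ _ _ le_rfl]
      simpa using h3
  · refine ⟨L.length, le_rfl, ?_, ?_, ?_, ?_⟩
    · simp
    · intro k hk
      exact hgd k hk
    · intro h
      omega
    · refine hnb _ le_rfl ?_
      intro i hi j hj hij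
      exact h2 i (by rw [List.length_append]; omega) j hj hij

theorem MStep_sublist {s : ℕ} {L L' : List ℕ} (h : MStep s L L') : L'.Sublist L := by
  rcases h with ⟨P, x, Q, y, S, rfl, rfl, _, _⟩ | ⟨rfl, _⟩
  · refine List.Sublist.append_left ?_ P
    refine List.Sublist.cons x ?_
    exact List.sublist_append_right Q (y :: S)
  · exact List.Sublist.refl _

/-! ### Element states -/

theorem bb_le (k s x : ℕ) : bb k s x ≤ 1 := by unfold bb; split_ifs <;> omega

theorem bb_mono {k s s' x : ℕ} (h : s ≤ s') : bb k s x ≤ bb k s' x := by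
  unfold bb
  split_ifs with h1 h2
  · exact le_rfl
  · exfalso
    apply h2
    obtain ⟨u, hu⟩ := Option.isSome_iff_exists.1 h1
    rw [Option.isSome_iff_exists]
    exact ⟨u, Nat.Partrec.Code.evaln_mono h hu⟩
  · exact Nat.zero_le _
  · exact le_rfl

theorem es_mono {s s' i x : ℕ} (h : s ≤ s') : es s i x ≤ es s' i x := by
  induction i with
  | zero => exact bb_mono h
  | succ i ih =>
    rw [es_succ, es_succ]
    have := bb_mono (k := i + 1) (x := x) h
    omega

theorem es_lt (s i x : ℕ) : es s i x < 2 ^ (i + 1) := by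
  induction i with
  | zero =>
    rw [es_zero]
    have := bb_le 0 s x
    omega
  | succ i ih =>
    rw [es_succ, pow_succ]
    have := bb_le (i + 1) s x
    omega

theorem es_lex {s i e x y : ℕ} (hei : e ≤ i) (h : es s e x < es s e y) : es s i x < es s i y := by
  induction i, hei using Nat.le_induction with
  | base => exact h
  | succ i _ ih =>
    rw [es_succ, es_succ]
    have := bb_le (i + 1) s x
    omega

theorem es_odd {s i x : ℕ} : es s i x % 2 = bb i s x := by
  cases i with
  | zero =>
    rw [es_zero]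
    have := bb_le 0 s x
    omega
  | succ i =>
    rw [es_succ]
    have := bb_le (i + 1) s x
    omega

/-- bounded monotone sequences are eventually constant -/
theorem ev_const {v : ℕ → ℕ} {B s0 : ℕ} (hm : ∀ s, s0 ≤ s → v s ≤ v (s + 1))
    (hb : ∀ s, v s ≤ B) : ∃ s1, s0 ≤ s1 ∧ ∀ s, s1 ≤ s → v s = v s1 := by
  classical
  have hmono : ∀ s s', s0 ≤ s → s ≤ s' → v s ≤ v s' := by
    intro s s' h h'
    induction s', h' using Nat.le_induction with
    | base => exact le_rfl
    | succ t ht ih => exact ih.trans (hm t (by omega))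
  have hex : ∃ d, ∃ s, s0 ≤ s ∧ B - v s = d := ⟨_, s0, le_rfl, rfl⟩
  obtain ⟨s1, h1, h2⟩ := Nat.find_spec hex
  refine ⟨s1, h1, fun s hs => ?_⟩
  have h3 := hmono s1 s h1 hs
  have h4 : Nat.find hex ≤ B - v s := Nat.find_min' hex ⟨s, by omega, rfl⟩
  have h5 := hb s
  have h6 := hb s1
  omega

/-- limit of the state -/
theorem es_conv (i x : ℕ) : ∃ s0, ∀ s, s0 ≤ s → es s i x = es s0 i x := by
  obtain ⟨s1, _, h⟩ := ev_const (v := fun s => es s i x) (B := 2 ^ (i + 1)) (s0 := 0)
    (fun s _ => es_mono (Nat.le_add_right s 1)) (fun s => le_of_lt (es_lt s i x))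
  exact ⟨s1, h⟩

/-! ### The construction -/

section Con

variable {Ls : ℕ → List ℕ} (h0 : Ls 0 = []) (hS : ∀ s, MStep s (Ls s ++ [s]) (Ls (s + 1)))

include h0 hS

theorem Ls_lt (s : ℕ) : ∀ x ∈ Ls s, x < s := by
  induction s with
  | zero => rw [h0]; simp
  | succ s ih =>
    intro x hx
    have := (MStep_sublist (hS s)).subset hx
    rw [List.mem_append, List.mem_singleton] at this
    rcases this with h | h
    · have := ih x h
      omega
    · omega

theorem Ls_sorted (s : ℕ) : (Ls s).Pairwise (· < ·) := by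
  induction s with
  | zero => rw [h0]; exact List.Pairwise.nil
  | succ s ih =>
    refine List.Pairwise.sublist (MStep_sublist (hS s)) ?_
    rw [List.pairwise_append]
    refine ⟨ih, List.pairwise_singleton _ _, ?_⟩
    intro x hx y hy
    rw [List.mem_singleton] at hy
    subst hy
    exact Ls_lt h0 hS _ x hx

theorem Ls_lt_lt {s i j : ℕ} (hij : i < j) (hj : j < (Ls s).length) :
    (Ls s).getD i 0 < (Ls s).getD j 0 := by
  rw [List.getD_eq_getElem _ _ (by omega), List.getD_eq_getElem _ _ hj]
  exact List.pairwise_iff_getElem.1 (Ls_sorted h0 hS s) i j (by omega) hj hij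

theorem Ls_ge {s i : ℕ} (hi : i < (Ls s).length) : i ≤ (Ls s).getD i 0 := by
  induction i with
  | zero => exact Nat.zero_le _
  | succ i ih =>
    have h1 := ih (by omega)
    have h2 := Ls_lt_lt h0 hS (s := s) (Nat.lt_add_one i) hi
    omega

theorem settle (i : ℕ) : ∃ s0, ∀ s, s0 ≤ s → i < (Ls s).length ∧
    (Ls s).getD i 0 = (Ls s0).getD i 0 := by
  induction i using Nat.strong_induction_on with
  | _ i ih =>
    have hcom : ∀ m, m ≤ i → ∃ s0, ∀ k, k < m → ∀ s, s0 ≤ s → k < (Ls s).length ∧
        (Ls s).getD k 0 = (Ls s0).getD k 0 := by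
      intro m
      induction m with
      | zero => intro _; exact ⟨0, fun k hk => absurd hk (by omega)⟩
      | succ m ihm =>
        intro hm
        obtain ⟨s0, hs0⟩ := ihm (by omega)
        obtain ⟨s1, hs1⟩ := ih m (by omega)
        refine ⟨max s0 s1, fun k hk s hs => ?_⟩
        have hl := le_max_left s0 s1
        have hr := le_max_right s0 s1
        rcases Nat.lt_or_ge k m with h | h
        · refine ⟨(hs0 k h s (by omega)).1, ?_⟩
          rw [(hs0 k h s (by omega)).2, (hs0 k h _ hl).2]
        · have : k = m := by omega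
          subst this
          refine ⟨(hs1 s (by omega)).1, ?_⟩
          rw [(hs1 s (by omega)).2, (hs1 _ hr).2]
    obtain ⟨s0, hs0⟩ := hcom i le_rfl
    have hstep : ∀ s, s0 ≤ s → i < (Ls (s + 1)).length ∧
        (i < (Ls s).length → es s i ((Ls s).getD i 0) ≤ es (s + 1) i ((Ls (s + 1)).getD i 0) ∧
          (es s i ((Ls s).getD i 0) = es (s + 1) i ((Ls (s + 1)).getD i 0) →
            (Ls (s + 1)).getD i 0 = (Ls s).getD i 0)) := by
      intro s hs
      obtain ⟨p, p1, p2, p3, p4, _⟩ := MStep_summary (hS s)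
      have hp : i ≤ p := by
        by_contra hcon
        push Not at hcon
        have h1 := (hs0 p hcon s hs)
        have h2 := (hs0 p hcon (s + 1) (by omega))
        have h3 := p4 h1.1
        rw [h1.2, h2.2] at h3
        exact lt_irrefl _ h3
      refine ⟨by omega, ?_⟩
      intro hi
      rcases Nat.lt_or_ge i p with h | h
      · rw [p3 i h]
        exact ⟨es_mono (Nat.le_add_right s 1), fun _ => rfl⟩
      · have : p = i := by omega
        subst this
        have h1 := p4 hi
        have h2 := es_mono (i := p) (x := (Ls (s + 1)).getD p 0) (Nat.le_add_right s 1)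
        exact ⟨by omega, fun h3 => by omega⟩
    obtain ⟨s1, hs1, hc⟩ := ev_const (v := fun s => es s i ((Ls s).getD i 0))
      (B := 2 ^ (i + 1)) (s0 := s0 + 1) (by
        intro s hs
        obtain ⟨s', rfl⟩ : ∃ s', s = s' + 1 := ⟨s - 1, by omega⟩
        exact ((hstep (s' + 1) (by omega)).2 (hstep s' (by omega)).1).1)
      (fun s => le_of_lt (es_lt _ _ _))
    refine ⟨s1, fun s hs => ?_⟩
    induction s, hs using Nat.le_induction with
    | base =>
      refine ⟨?_, rfl⟩
      obtain ⟨s', rfl⟩ : ∃ s', s1 = s' + 1 := ⟨s1 - 1, by omega⟩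
      exact (hstep s' (by omega)).1
    | succ s hs ihs =>
      refine ⟨(hstep s (by omega)).1, ?_⟩
      rw [← ihs.2]
      refine ((hstep s (by omega)).2 ihs.1).2 ?_
      have h1 := hc s hs
      have h2 := hc (s + 1) (by omega)
      beta_reduce at h1 h2
      rw [h1, h2]

theorem settle_all (m : ℕ) : ∃ s0, ∀ k, k < m → ∀ s, s0 ≤ s → k < (Ls s).length ∧
        (Ls s).getD k 0 = (Ls s0).getD k 0 := by
  induction m with
  | zero => exact ⟨0, fun k hk => absurd hk (by omega)⟩
  | succ m ihm =>
    obtain ⟨s0, hs0⟩ := ihm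
    obtain ⟨s1, hs1⟩ := settle h0 hS m
    refine ⟨max s0 s1, fun k hk s hs => ?_⟩
    have hl := le_max_left s0 s1
    have hr := le_max_right s0 s1
    rcases Nat.lt_or_ge k m with h | h
    · refine ⟨(hs0 k h s (by omega)).1, ?_⟩
      rw [(hs0 k h s (by omega)).2, (hs0 k h _ hl).2]
    · have : k = m := by omega
      subst this
      refine ⟨(hs1 s (by omega)).1, ?_⟩
      rw [(hs1 s (by omega)).2, (hs1 _ hr).2]

end Con

/-- There is a maximal set. -/
theorem exists_maximal : ∃ M : ℕ → Prop, SD M ∧ (∀ N, ∃ b, N ≤ b ∧ ¬ M b) ∧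
    ∀ W : ℕ → Prop, SD W → {x | ¬ M x ∧ W x}.Finite ∨ {x | ¬ M x ∧ ¬ W x}.Finite := by
  obtain ⟨Ls, hLc, h0, hS⟩ := exists_stages
  have hset := settle h0 hS
  choose S hSs using hset
  let a : ℕ → ℕ := fun i => (Ls (S i)).getD i 0
  have ha : ∀ i s, S i ≤ s → i < (Ls s).length ∧ (Ls s).getD i 0 = a i := fun i s hs => hSs i s hs
  have hmono : ∀ i j, i < j → a i < a j := by
    intro i j hij
    have h1 := ha i (max (S i) (S j)) (le_max_left _ _)
    have h2 := ha j (max (S i) (S j)) (le_max_right _ _)
    rw [← h1.2, ← h2.2]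
    exact Ls_lt_lt h0 hS hij h2.1
  have hage : ∀ i, i ≤ a i := by
    intro i
    have h1 := ha i (S i) le_rfl
    rw [← h1.2]
    exact Ls_ge h0 hS h1.1
  let M : ℕ → Prop := fun x => ∃ s, x < s ∧ ¬ x ∈ Ls s
  have hM1 : ∀ i, ¬ M (a i) := by
    rintro i ⟨s, hs, hx⟩
    have hout : ∀ s', s ≤ s' → ¬ a i ∈ Ls s' := by
      intro s' hs'
      induction s', hs' using Nat.le_induction with
      | base => exact hx
      | succ t ht ih =>
        intro hmem
        have := (MStep_sublist (hS t)).subset hmem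
        rw [List.mem_append, List.mem_singleton] at this
        rcases this with h | h
        · exact ih h
        · omega
    have h1 := ha i (max s (S i)) (le_max_right _ _)
    refine hout (max s (S i)) (le_max_left _ _) ?_
    rw [← h1.2, List.getD_eq_getElem _ _ h1.1]
    exact List.getElem_mem _
  have hM2 : ∀ x, ¬ M x → ∃ i, a i = x := by
    intro x hx
    obtain ⟨s0, hs0⟩ := settle_all h0 hS (x + 1)
    have hmem : x ∈ Ls (max s0 (x + 1)) := by
      by_contra hcon
      exact hx ⟨_, lt_of_lt_of_le (Nat.lt_add_one x) (le_max_right _ _), hcon⟩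
    obtain ⟨p, hp, hpx⟩ := List.getElem_of_mem hmem
    have h1 := Ls_ge h0 hS hp
    rw [List.getD_eq_getElem _ _ hp, hpx] at h1
    refine ⟨p, ?_⟩
    have h2 := hs0 p (by omega)
    have h3 := ha p (max (max s0 (x + 1)) (S p)) (le_max_right _ _)
    rw [← h3.2, (h2 _ (le_trans (le_max_left _ _) (le_max_left _ _))).2,
      ← (h2 (max s0 (x + 1)) (le_max_left _ _)).2, List.getD_eq_getElem _ _ hp, hpx]
  refine ⟨M, ?_, ?_, ?_⟩
  · have h1 : SD (fun x : ℕ × List ℕ => ¬ x.1 ∈ x.2) := by
      refine SD.of_eq (p := fun x : ℕ × List ℕ => ∀ y, y ∈ x.2 → y ≠ x.1) ?_ ?_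
      · exact s_ballL Primrec.snd (s_ne Primrec.snd (by (repeat' with_reducible first | assumption | exact p_id | exact p_const _ | refine p_append ?_ ?_ | refine p_cons ?_ ?_ | refine p_es ?_ ?_ ?_ | refine p_fst ?_)))
      · intro x
        constructor
        · intro h hx
          exact h _ hx rfl
        · rintro h y hy rfl
          exact h hy
    have h2 : SD (fun x : ℕ × ℕ => ¬ x.1 ∈ Ls x.2) :=
      SD.compC h1 (f := fun x : ℕ × ℕ => (x.1, Ls x.2))
        (Computable.pair Computable.fst (hLc.comp Computable.snd))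
    exact s_ex (p := fun x s => x < s ∧ ¬ x ∈ Ls s) (s_and (by (repeat' with_reducible first | assumption | exact p_id | exact p_const _ | refine s_and ?_ ?_ | refine s_or ?_ ?_ | refine s_eq ?_ ?_ | refine s_ne ?_ ?_ | refine s_not_eq ?_ ?_ | refine s_lt ?_ ?_ | refine s_le ?_ ?_ | refine s_not_lt ?_ ?_ | refine s_not_le ?_ ?_ | refine s_not_and ?_ ?_ | refine s_not_or ?_ ?_ | refine s_not_not ?_ | refine s_ball ?_ ?_ | refine s_ball_le ?_ ?_ | refine s_mem ?_ ?_ | refine s_ex ?_ | refine s_imp ?_ ?_ | refine p_append ?_ ?_ | refine p_cons ?_ ?_ | refine p_es ?_ ?_ ?_ | refine p_fst ?_ | refine p_snd ?_)) h2)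
  · intro N
    exact ⟨a N, hage N, hM1 N⟩
  · intro W hW
    obtain ⟨c, hc⟩ := hW.code
    let e := Encodable.encode c
    have hWb : ∀ x, W x ↔ ∃ s, bb e s x = 1 := by
      intro x
      rw [hc]
      apply exists_congr
      intro t
      unfold bb
      rw [show Denumerable.ofNat Nat.Partrec.Code e = c from Denumerable.ofNat_encode c]
      constructor
      · intro h
        exact if_pos h
      · intro h
        by_contra h'
        have h'' : ¬ (Nat.Partrec.Code.evaln t c x).isSome = true := h'
        rw [if_neg h''] at h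
        exact absurd h (by omega)
    choose T hT using es_conv
    -- final states
    let E : ℕ → ℕ → ℕ := fun i x => es (T i x) i x
    have hE : ∀ i x s, T i x ≤ s → es s i x = E i x := fun i x s hs => hT i x s hs
    have hEle : ∀ i j, i < j → E i (a j) ≤ E i (a i) := by
      intro i j hij
      by_contra hcon
      push Not at hcon
      obtain ⟨s0, hs0⟩ := settle_all h0 hS (j + 1)
      let s := max (max s0 (max (S i) (S j))) (max (T i (a i)) (T i (a j)))
      have hs1 : s0 ≤ s := le_trans (le_max_left _ _) (le_max_left _ _)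
      have hs2 : S i ≤ s :=
        le_trans (le_trans (le_max_left _ _) (le_max_right _ _)) (le_max_left _ _)
      have hs3 : S j ≤ s :=
        le_trans (le_trans (le_max_right _ _) (le_max_right _ _)) (le_max_left _ _)
      have hs4 : T i (a i) ≤ s := le_trans (le_max_left _ _) (le_max_right _ _)
      have hs5 : T i (a j) ≤ s := le_trans (le_max_right _ _) (le_max_right _ _)
      obtain ⟨p, p1, p2, p3, p4, p5⟩ := MStep_summary (hS s)
      rcases Nat.lt_or_ge i p with h | h
      · have h1 := p5 i h j hij (ha j s hs3).1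
        rw [(ha j s hs3).2, (ha i s hs2).2, hE _ _ s hs4, hE _ _ s hs5] at h1
        omega
      · have h1 := hs0 p (by omega) s hs1
        have h2 := hs0 p (by omega) (s + 1) (by omega)
        have h3 := p4 h1.1
        rw [h1.2, h2.2] at h3
        exact lt_irrefl _ h3
    have hEe : ∀ i j, e ≤ i → i < j → E e (a j) ≤ E e (a i) := by
      intro i j hei hij
      by_contra hcon
      push Not at hcon
      have h1 := hEle i j hij
      let s := max (max (T e (a i)) (T e (a j))) (max (T i (a i)) (T i (a j)))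
      have hs1 : T e (a i) ≤ s := le_trans (le_max_left _ _) (le_max_left _ _)
      have hs2 : T e (a j) ≤ s := le_trans (le_max_right _ _) (le_max_left _ _)
      have hs3 : T i (a i) ≤ s := le_trans (le_max_left _ _) (le_max_right _ _)
      have hs4 : T i (a j) ≤ s := le_trans (le_max_right _ _) (le_max_right _ _)
      rw [← hE _ _ s hs1, ← hE _ _ s hs2] at hcon
      rw [← hE _ _ s hs3, ← hE _ _ s hs4] at h1
      have := es_lex hei hcon
      omega
    obtain ⟨i1, hi1, hcst⟩ := ev_const (v := fun i => 2 ^ (e + 1) - E e (a i))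
      (B := 2 ^ (e + 1)) (s0 := e) (by
        intro i hi
        have := hEe i (i + 1) hi (Nat.lt_add_one i)
        omega) (fun i => Nat.sub_le _ _)
    have hcst' : ∀ i, i1 ≤ i → E e (a i) = E e (a i1) := by
      intro i hi
      have h1 := hcst i hi
      beta_reduce at h1
      have h2 : E e (a i) < 2 ^ (e + 1) := es_lt _ _ _
      have h3 : E e (a i1) < 2 ^ (e + 1) := es_lt _ _ _
      omega
    have hWE : ∀ i, W (a i) ↔ E e (a i) % 2 = 1 := by
      intro i
      rw [hWb]
      constructor
      · rintro ⟨s, hs⟩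
        have h1 : bb e (max s (T e (a i))) (a i) = 1 := by
          have h2 := bb_mono (k := e) (x := a i) (le_max_left s (T e (a i)))
          have h3 := bb_le e (max s (T e (a i))) (a i)
          omega
        rw [← es_odd] at h1
        rwa [hE _ _ _ (le_max_right _ _)] at h1
      · intro h
        exact ⟨T e (a i), by rw [← es_odd]; exact h⟩
    have hfin : ∀ P : ℕ → Prop, (∀ i, i1 ≤ i → ¬ P (a i)) → {x | ¬ M x ∧ P x}.Finite := by
      intro P hP
      refine Set.Finite.subset (Set.finite_Iio (a i1)) ?_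
      rintro x ⟨hx, hPx⟩
      obtain ⟨i, rfl⟩ := hM2 x hx
      have hi : i < i1 := by
        by_contra hcon
        push Not at hcon
        exact hP i hcon hPx
      exact hmono i i1 hi
    by_cases hpar : E e (a i1) % 2 = 1
    · right
      refine hfin (fun x => ¬ W x) ?_
      intro i hi hn
      exact hn ((hWE i).2 (by rw [hcst' i hi]; exact hpar))
    · left
      refine hfin W ?_
      intro i hi hw
      have := (hWE i).1 hw
      rw [hcst' i hi] at this
      exact hpar this

end Pool.Agent.H36.MinNum
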