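import Pool.Agent.H36.MinNum.Machine

/-!
Classes of slots in a state.
-/

namespace Pool.Agent.H36.MinNum

open Pool.Agent.H36.LFI

theorem pt_lt {m y : ℕ} (h : y < 2 * m) : pt y < 2 * m := by unfold pt; omega
theorem pt_pt (y : ℕ) : pt (pt y) = y := by unfold pt; omega
theorem pt_ne (y : ℕ) : pt y ≠ y := by unfold pt; omega

/-- alive indices -/
def Al (b : ℕ) (v : List ℕ) (i : ℕ) : Prop :=
  ∃ u, u < 2 * (b + 1) ∧ ∃ y, y < 2 * ms v ∧ qq v u y = i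

/-- swapped units -/
def Sw (v : List ℕ) (u : ℕ) : Prop := st v u = 2 ∨ st v u = 3

open Classical in
/-- class of the first slot -/
noncomputable def cm (b : ℕ) (v : List ℕ) (i : ℕ) : ℕ := if Al b v i then i + 1 else 0

/-- graph of the class of the second slot -/
def NR (b : ℕ) (v : List ℕ) (i w : ℕ) : Prop :=
  (∃ u, u < 2 * (b + 1) ∧ ∃ y, y < 2 * ms v ∧ qq v u y = i ∧
    ((Sw v u ∧ w = qq v u (pt y) + 1) ∨ (¬ Sw v u ∧ w = i + 1))) ∨ (¬ Al b v i ∧ w = 0)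

/-- class of the second slot -/
noncomputable def cn (b : ℕ) (v : List ℕ) (i : ℕ) : ℕ := Classical.epsilon (NR b v i)

theorem NR_exists (b : ℕ) (v : List ℕ) (i : ℕ) : ∃ w, NR b v i w := by
  by_cases h : Al b v i
  · obtain ⟨u, hu, y, hy, hq⟩ := h
    by_cases hs : Sw v u
    · exact ⟨_, Or.inl ⟨u, hu, y, hy, hq, Or.inl ⟨hs, rfl⟩⟩⟩
    · exact ⟨_, Or.inl ⟨u, hu, y, hy, hq, Or.inr ⟨hs, rfl⟩⟩⟩
  · exact ⟨0, Or.inr ⟨h, rfl⟩⟩

theorem cn_spec (b : ℕ) (v : List ℕ) (i : ℕ) : NR b v i (cn b v i) :=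
  Classical.epsilon_spec (NR_exists b v i)

theorem NR_unique {b : ℕ} {v : List ℕ} (hI : Inj b v) {i w w' : ℕ} (h : NR b v i w)
    (h' : NR b v i w') : w = w' := by
  rcases h with ⟨u, hu, y, hy, hq, hw⟩ | ⟨h, hw⟩
  · rcases h' with ⟨u', hu', y', hy', hq', hw'⟩ | ⟨h', hw'⟩
    · obtain ⟨rfl, rfl⟩ := hI u hu y hy u' hu' y' hy' (by rw [hq, hq'])
      rcases hw with ⟨h1, h2⟩ | ⟨h1, h2⟩ <;> rcases hw' with ⟨h3, h4⟩ | ⟨h3, h4⟩
      · rw [h2, h4]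
      · exact absurd h1 h3
      · exact absurd h3 h1
      · rw [h2, h4]
    · exact absurd ⟨u, hu, y, hy, hq⟩ h'
  · rcases h' with ⟨u', hu', y', hy', hq', hw'⟩ | ⟨h', hw'⟩
    · exact absurd ⟨u', hu', y', hy', hq'⟩ h
    · rw [hw, hw']

theorem cn_eq {b : ℕ} {v : List ℕ} (hI : Inj b v) {i w : ℕ} (h : NR b v i w) :
    cn b v i = w := NR_unique hI (cn_spec b v i) h

theorem cn_eq_iff {b : ℕ} {v : List ℕ} (hI : Inj b v) {i w : ℕ} :
    cn b v i = w ↔ NR b v i w :=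
  ⟨fun h => h ▸ cn_spec b v i, cn_eq hI⟩

theorem cn_dead {b : ℕ} {v : List ℕ} {i : ℕ} (h : ¬ Al b v i) : cn b v i = 0 := by
  rcases cn_spec b v i with ⟨u, hu, y, hy, hq, _⟩ | ⟨_, hw⟩
  · exact absurd ⟨u, hu, y, hy, hq⟩ h
  · exact hw

theorem cm_dead {b : ℕ} {v : List ℕ} {i : ℕ} (h : ¬ Al b v i) : cm b v i = 0 := if_neg h

theorem cm_alive {b : ℕ} {v : List ℕ} {i : ℕ} (h : Al b v i) : cm b v i = i + 1 := if_pos h

theorem Al_qq {b : ℕ} {v : List ℕ} {u y : ℕ} (hu : u < 2 * (b + 1)) (hy : y < 2 * ms v) :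
    Al b v (qq v u y) := ⟨u, hu, y, hy, rfl⟩

theorem cn_sw {b : ℕ} {v : List ℕ} (hI : Inj b v) {u y : ℕ} (hu : u < 2 * (b + 1))
    (hy : y < 2 * ms v) (hs : Sw v u) : cn b v (qq v u y) = qq v u (pt y) + 1 :=
  cn_eq hI (Or.inl ⟨u, hu, y, hy, rfl, Or.inl ⟨hs, rfl⟩⟩)

theorem cn_nsw {b : ℕ} {v : List ℕ} (hI : Inj b v) {u y : ℕ} (hu : u < 2 * (b + 1))
    (hy : y < 2 * ms v) (hs : ¬ Sw v u) : cn b v (qq v u y) = qq v u y + 1 :=
  cn_eq hI (Or.inl ⟨u, hu, y, hy, rfl, Or.inr ⟨hs, rfl⟩⟩)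

theorem cn_ne_zero {b : ℕ} {v : List ℕ} {i : ℕ} (h : Al b v i) : cn b v i ≠ 0 := by
  rcases cn_spec b v i with ⟨u, hu, y, hy, hq, ⟨_, hw⟩ | ⟨_, hw⟩⟩ | ⟨h', _⟩
  · omega
  · omega
  · exact absurd h h'

/-- the second class map is an involution on alive indices -/
theorem cn_invol {b : ℕ} {v : List ℕ} (hI : Inj b v) {i : ℕ} (h : Al b v i) :
    ∃ j, Al b v j ∧ cn b v i = j + 1 ∧ cn b v j = i + 1 := by
  obtain ⟨u, hu, y, hy, rfl⟩ := h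
  by_cases hs : Sw v u
  · refine ⟨qq v u (pt y), Al_qq hu (pt_lt hy), cn_sw hI hu hy hs, ?_⟩
    rw [cn_sw hI hu (pt_lt hy) hs, pt_pt]
  · exact ⟨qq v u y, Al_qq hu hy, cn_nsw hI hu hy hs, cn_nsw hI hu hy hs⟩

theorem cn_inj {b : ℕ} {v : List ℕ} (hI : Inj b v) {i i' : ℕ} (h : Al b v i)
    (he : cn b v i = cn b v i') : i = i' := by
  by_cases h' : Al b v i'
  · obtain ⟨j, hj, h1, h2⟩ := cn_invol hI h
    obtain ⟨j', hj', h1', h2'⟩ := cn_invol hI h'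
    have : j = j' := by omega
    subst this
    omega
  · rw [cn_dead h'] at he
    exact absurd he (cn_ne_zero h)

/-- class of a slot -/
noncomputable def cs (b : ℕ) (v : List ℕ) (d : Bool) (i : ℕ) : ℕ :=
  if d then cn b v i else cm b v i

theorem cs_true (b : ℕ) (v : List ℕ) (i : ℕ) : cs b v true i = cn b v i := rfl
theorem cs_false (b : ℕ) (v : List ℕ) (i : ℕ) : cs b v false i = cm b v i := rfl

theorem cs_dead {b : ℕ} {v : List ℕ} {i : ℕ} (d : Bool) (h : ¬ Al b v i) :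
    cs b v d i = 0 := by
  cases d
  · exact cm_dead h
  · exact cn_dead h

theorem cs_ne_zero {b : ℕ} {v : List ℕ} {i : ℕ} (d : Bool) (h : Al b v i) :
    cs b v d i ≠ 0 := by
  cases d
  · rw [cs_false, cm_alive h]; omega
  · exact cn_ne_zero h

/-- the classes that occur -/
def Cl (b : ℕ) (v : List ℕ) (w : ℕ) : Prop := w = 0 ∨ ∃ i, Al b v i ∧ w = i + 1

theorem AllCl_iff {b : ℕ} {v : List ℕ} {P : ℕ → Prop} :
    AllCl b v P ↔ ∀ w, Cl b v w → P w := by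
  constructor
  · rintro ⟨h0, h1⟩ w (rfl | ⟨i, ⟨u, hu, y, hy, rfl⟩, rfl⟩)
    · exact h0
    · exact h1 u hu y hy
  · intro h
    exact ⟨h 0 (Or.inl rfl), fun u hu y hy => h _ (Or.inr ⟨_, Al_qq hu hy, rfl⟩)⟩

theorem cs_Cl {b : ℕ} {v : List ℕ} (hI : Inj b v) (d : Bool) (i : ℕ) :
    Cl b v (cs b v d i) := by
  by_cases h : Al b v i
  · cases d
    · exact Or.inr ⟨i, h, cm_alive h⟩
    · obtain ⟨j, hj, h1, _⟩ := cn_invol hI h
      exact Or.inr ⟨j, hj, h1⟩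
  · exact Or.inl (cs_dead d h)

theorem Al_congr {b : ℕ} {v v' : List ℕ} (hm : ms v' = ms v)
    (hq : ∀ u y, qq v' u y = qq v u y) (i : ℕ) : Al b v' i ↔ Al b v i := by
  unfold Al
  rw [hm]
  simp only [hq]

theorem Inj_congr {b : ℕ} {v v' : List ℕ} (hm : ms v' = ms v)
    (hq : ∀ u y, qq v' u y = qq v u y) (h : Inj b v) : Inj b v' := by
  unfold Inj at h ⊢
  rw [hm]
  simp only [hq]
  exact h

theorem Cl_congr {b : ℕ} {v v' : List ℕ} (hm : ms v' = ms v)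
    (hq : ∀ u y, qq v' u y = qq v u y) (w : ℕ) : Cl b v' w ↔ Cl b v w := by
  unfold Cl
  simp only [Al_congr hm hq]

theorem not_Al_of_ms {b : ℕ} {v : List ℕ} (h : ms v = 0) (i : ℕ) : ¬ Al b v i := by
  rintro ⟨u, _, y, hy, _⟩
  omega

end Pool.Agent.H36.MinNum
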