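import Pool.Agent.H36.MinNum.Sd

/-!
Differences of c.e. sets and limit computable functions.
-/

namespace Pool.Agent.H36.MinNum

open Pool.Agent.H36.LFI

/-- The second level of the Ershov hierarchy. -/
def C2 : Set (Set ℕ) := {A : Set ℕ | ∃ g : ℕ → ℕ → Bool, Computable₂ g ∧ (∀ x, g x 0 = false) ∧
            (∀ x, ∃ s₀, ∀ s, s₀ ≤ s → (g x s = true ↔ x ∈ A)) ∧
            ∀ (x : ℕ) (t : Fin (2 + 1) → ℕ), StrictMono t → ∃ j, g x (t j + 1) = g x (t j)}

theorem C2_intro {P Q : ℕ → Prop} (hP : SD P) (hQ : SD Q) {A : Set ℕ}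
    (hA : ∀ x, x ∈ A ↔ P x ∧ ¬ Q x) : A ∈ C2 := by
  classical
  obtain ⟨p, hp, ep⟩ := hP
  obtain ⟨q, hq, eq⟩ := hQ
  let Ps : ℕ → ℕ → Prop := fun x s => ∃ t ∈ List.range s, p x t
  let Qs : ℕ → ℕ → Prop := fun x s => ∃ t ∈ List.range s, q x t
  have hPs : PrimrecRel Ps := by
    have h1 : PrimrecRel (fun (t : ℕ) (x : ℕ) => p x t) := hp.comp Primrec.snd Primrec.fst
    exact h1.exists_mem_list.comp (Primrec.list_range.comp Primrec.snd) Primrec.fst
  have hQs : PrimrecRel Qs := by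
    have h1 : PrimrecRel (fun (t : ℕ) (x : ℕ) => q x t) := hq.comp Primrec.snd Primrec.fst
    exact h1.exists_mem_list.comp (Primrec.list_range.comp Primrec.snd) Primrec.fst
  have mP : ∀ x s s', s ≤ s' → Ps x s → Ps x s' := by
    rintro x s s' h ⟨t, ht, h'⟩
    exact ⟨t, List.mem_range.2 (lt_of_lt_of_le (List.mem_range.1 ht) h), h'⟩
  have mQ : ∀ x s s', s ≤ s' → Qs x s → Qs x s' := by
    rintro x s s' h ⟨t, ht, h'⟩
    exact ⟨t, List.mem_range.2 (lt_of_lt_of_le (List.mem_range.1 ht) h), h'⟩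
  have hrel : PrimrecRel (fun x s => Ps x s ∧ ¬ Qs x s) := PrimrecPred.and hPs
    (PrimrecPred.not hQs)
  refine ⟨fun x s => decide (Ps x s ∧ ¬ Qs x s), (PrimrecRel.decide hrel).to_comp, ?_, ?_, ?_⟩
  · intro x
    simp [Ps]
  · intro x
    by_cases hPx : P x
    · obtain ⟨t, ht⟩ := (ep x).1 hPx
      have hPt : ∀ s, t + 1 ≤ s → Ps x s := fun s hs => mP x (t + 1) s hs ⟨t, by simp, ht⟩
      by_cases hQx : Q x
      · obtain ⟨t', ht'⟩ := (eq x).1 hQx
        refine ⟨t' + 1, fun s hs => ?_⟩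
        have : Qs x s := mQ x (t' + 1) s hs ⟨t', by simp, ht'⟩
        rw [hA]
        simp [this, hQx]
      · refine ⟨t + 1, fun s hs => ?_⟩
        have h1 : ¬ Qs x s := by
          rintro ⟨t', _, ht'⟩
          exact hQx ((eq x).2 ⟨t', ht'⟩)
        rw [hA]
        simp [h1, hQx, hPx, hPt s hs]
    · refine ⟨0, fun s _ => ?_⟩
      have h1 : ¬ Ps x s := by
        rintro ⟨t', _, ht'⟩
        exact hPx ((ep x).2 ⟨t', ht'⟩)
      rw [hA]
      simp [h1, hPx]
  · intro x t ht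
    by_contra hcon
    push Not at hcon
    have key : ∀ j, (¬ Ps x (t j) ∧ Ps x (t j + 1)) ∨ (¬ Qs x (t j) ∧ Qs x (t j + 1)) := by
      intro j
      have h1 := hcon j
      by_contra h2
      push Not at h2
      apply h1
      have e1 : Ps x (t j + 1) ↔ Ps x (t j) := by
        constructor
        · intro h3
          by_contra h4
          exact h2.1 h4 h3
        · exact mP x _ _ (Nat.le_succ _)
      have e2 : Qs x (t j + 1) ↔ Qs x (t j) := by
        constructor
        · intro h3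
          by_contra h4
          exact h2.2 h4 h3
        · exact mQ x _ _ (Nat.le_succ _)
      simp only [e1, e2]
    have hlt : ∀ i j : Fin (2 + 1), i < j → t i + 1 ≤ t j := fun i j h => ht h
    have h01 := hlt 0 1 (by decide)
    have h12 := hlt 1 2 (by decide)
    have h02 := hlt 0 2 (by decide)
    rcases key 0 with k0 | k0 <;> rcases key 1 with k1 | k1 <;> rcases key 2 with k2 | k2
    · exact k1.1 (mP x _ _ h01 k0.2)
    · exact k1.1 (mP x _ _ h01 k0.2)
    · exact k2.1 (mP x _ _ h02 k0.2)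
    · exact k2.1 (mQ x _ _ h12 k1.2)
    · exact k2.1 (mP x _ _ h12 k1.2)
    · exact k2.1 (mQ x _ _ h02 k0.2)
    · exact k1.1 (mQ x _ _ h01 k0.2)
    · exact k1.1 (mQ x _ _ h01 k0.2)

theorem exists_change {g : ℕ → Bool} {a b : ℕ} (hab : a ≤ b) (h : g a ≠ g b) :
    ∃ t, a ≤ t ∧ t < b ∧ g (t + 1) ≠ g t := by
  induction b, hab using Nat.le_induction with
  | base => exact absurd rfl h
  | succ b hab ih =>
    by_cases h1 : g (b + 1) = g b
    · rw [h1] at h
      obtain ⟨t, h2, h3, h4⟩ := ih h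
      exact ⟨t, h2, by omega, h4⟩
    · exact ⟨b, hab, by omega, h1⟩

theorem C2_elim {A : Set ℕ} (hA : A ∈ C2) : ∃ P Q : ℕ → Prop, SD P ∧ SD Q ∧
    ∀ x, x ∈ A ↔ P x ∧ ¬ Q x := by
  obtain ⟨g, hg, h0, hlim, hch⟩ := hA
  have hgc : Computable (fun x : ℕ × ℕ => g x.1 x.2) := hg
  have s1 : ∀ c : Bool, SD (fun x : ℕ × ℕ => g x.1 x.2 = c) := by
    intro c
    have h1 : SD (fun b : Bool => b = c) := s_eq Primrec.id (Primrec.const c)
    exact SD.compC h1 hgc
  refine ⟨fun x => ∃ s, g x s = true, fun x => ∃ s s', s < s' ∧ g x s = true ∧ g x s' = false,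
    s_ex (s1 true), ?_, ?_⟩
  · refine s_ex (s_ex (s_and ?_ (s_and ?_ ?_)))
    · (repeat' with_reducible first | assumption | exact p_id | exact p_const _ | refine s_and ?_ ?_ | refine s_or ?_ ?_ | refine s_eq ?_ ?_ | refine s_ne ?_ ?_ | refine s_not_eq ?_ ?_ | refine s_lt ?_ ?_ | refine s_le ?_ ?_ | refine s_not_lt ?_ ?_ | refine s_not_le ?_ ?_ | refine s_not_and ?_ ?_ | refine s_not_or ?_ ?_ | refine s_not_not ?_ | refine s_ball ?_ ?_ | refine s_ball_le ?_ ?_ | refine s_mem ?_ ?_ | refine s_ex ?_ | refine s_imp ?_ ?_ | refine p_fst ?_ | refine p_snd ?_)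
    · exact SD.comp (s1 true) (f := fun x : (ℕ × ℕ) × ℕ => (x.1.1, x.1.2)) (by (repeat' with_reducible first | assumption | exact p_id | exact p_const _ | refine p_fst ?_))
    · exact SD.comp (s1 false) (f := fun x : (ℕ × ℕ) × ℕ => (x.1.1, x.2)) (by (repeat' with_reducible first | assumption | exact p_id | exact p_const _ | refine p_fst ?_ | refine p_snd ?_ | refine p_unpair ?_ | refine p_npair ?_ ?_ | refine p_getD _ ?_ ?_ | refine p_length ?_ | refine p_add ?_ ?_ | refine p_mul ?_ ?_ | refine p_sub ?_ ?_ | refine p_div ?_ ?_ | refine p_mod ?_ ?_ | refine p_pow ?_ ?_ | refine p_pair ?_ ?_))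
  · intro x
    obtain ⟨s₀, hs₀⟩ := hlim x
    constructor
    · intro hx
      refine ⟨⟨s₀, (hs₀ s₀ le_rfl).2 hx⟩, ?_⟩
      rintro ⟨s, s', hss, h1, h2⟩
      have h3 : g x (max s₀ s') = true := (hs₀ _ (le_max_left _ _)).2 hx
      obtain ⟨t0, _, a1, a2⟩ := exists_change (g := g x) (Nat.zero_le s) (by rw [h0, h1]; simp)
      obtain ⟨t1, b0, b1, b2⟩ := exists_change (g := g x) (le_of_lt hss) (by rw [h1, h2]; simp)
      obtain ⟨t2, c0, c1, c2⟩ := exists_change (g := g x) (le_max_right s₀ s')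
        (by rw [h2, h3]; simp)
      obtain ⟨j, hj⟩ := hch x ![t0, t1, t2] (by
        intro i j hij
        fin_cases i <;> fin_cases j <;> simp at hij ⊢ <;> omega)
      fin_cases j
      · exact a2 hj
      · exact b2 hj
      · exact c2 hj
    · rintro ⟨⟨s, hs⟩, hQ⟩
      rw [← hs₀ (max s₀ s) (le_max_left _ _)]
      by_contra h1
      rcases Nat.lt_or_ge s (max s₀ s) with h2 | h2
      · exact hQ ⟨s, _, h2, hs, by simpa using h1⟩
      · have : s = max s₀ s := le_antisymm (le_max_right _ _) h2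
        rw [← this] at h1
        exact h1 hs

/-- The value at the last stage is limit computable. -/
theorem lim_last {Y : ℕ → ℕ → ℕ} {N : ℕ → ℕ}
    (h : SD (fun x : ℕ × ℕ × ℕ => x.2.1 ≤ N x.1 ∧ x.2.2 = Y x.1 x.2.1)) :
    ∃ g : ℕ → ℕ → ℕ, Computable₂ g ∧ ∀ x, ∃ s₀, ∀ s, s₀ ≤ s → g x s = Y x (N x) := by
  classical
  obtain ⟨q, hq, e⟩ := h
  let G : ℕ → ℕ → ℕ × ℕ := fun x T => Nat.rec (0, 0) (fun z r =>
    if q (x, z.unpair.1, z.unpair.2.unpair.1) z.unpair.2.unpair.2 ∧ r.1 ≤ z.unpair.1 + 1 then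
      (z.unpair.1 + 1, z.unpair.2.unpair.1) else r) T
  have hG : Computable₂ G := by
    refine Primrec₂.to_comp ?_
    refine Primrec.nat_rec (f := fun _ => ((0, 0) : ℕ × ℕ)) (g := fun x zr =>
      if q (x, zr.1.unpair.1, zr.1.unpair.2.unpair.1) zr.1.unpair.2.unpair.2 ∧
        zr.2.1 ≤ zr.1.unpair.1 + 1 then
      (zr.1.unpair.1 + 1, zr.1.unpair.2.unpair.1) else zr.2) (Primrec.const _) ?_
    refine Primrec.ite (PrimrecPred.and ?_ ?_) ?_ ?_
    · exact hq.comp (f := fun x : ℕ × ℕ × ℕ × ℕ =>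
        (x.1, x.2.1.unpair.1, x.2.1.unpair.2.unpair.1))
        (g := fun x : ℕ × ℕ × ℕ × ℕ => x.2.1.unpair.2.unpair.2) (by (repeat' with_reducible first | assumption | exact p_id | exact p_const _ | refine p_fst ?_ | refine p_snd ?_ | refine p_unpair ?_ | refine p_npair ?_ ?_ | refine p_getD _ ?_ ?_ | refine p_length ?_ | refine p_add ?_ ?_ | refine p_mul ?_ ?_ | refine p_sub ?_ ?_ | refine p_div ?_ ?_ | refine p_mod ?_ ?_ | refine p_pow ?_ ?_ | refine p_pair ?_ ?_)) (by (repeat' with_reducible first | assumption | exact p_id | exact p_const _ | refine p_fst ?_ | refine p_snd ?_ | refine p_unpair ?_))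
    · exact Primrec.nat_le.comp (f := fun x : ℕ × ℕ × ℕ × ℕ => x.2.2.1)
        (g := fun x : ℕ × ℕ × ℕ × ℕ => x.2.1.unpair.1 + 1) (by (repeat' with_reducible first | assumption | exact p_id | exact p_const _ | refine p_fst ?_ | refine p_snd ?_)) (by (repeat' with_reducible first | assumption | exact p_id | exact p_const _ | refine p_fst ?_ | refine p_snd ?_ | refine p_unpair ?_ | refine p_npair ?_ ?_ | refine p_getD _ ?_ ?_ | refine p_length ?_ | refine p_add ?_ ?_))
    · show Primrec (fun x : ℕ × ℕ × ℕ × ℕ => (x.2.1.unpair.1 + 1, x.2.1.unpair.2.unpair.1))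
      (repeat' with_reducible first | assumption | exact p_id | exact p_const _ | refine p_fst ?_ | refine p_snd ?_ | refine p_unpair ?_ | refine p_npair ?_ ?_ | refine p_getD _ ?_ ?_ | refine p_length ?_ | refine p_add ?_ ?_ | refine p_mul ?_ ?_ | refine p_sub ?_ ?_ | refine p_div ?_ ?_ | refine p_mod ?_ ?_ | refine p_pow ?_ ?_ | refine p_pair ?_ ?_)
    · show Primrec (fun x : ℕ × ℕ × ℕ × ℕ => x.2.2)
      (repeat' with_reducible first | assumption | exact p_id | exact p_const _ | refine p_fst ?_ | refine p_snd ?_)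
  refine ⟨fun x T => (G x T).2, Computable.snd.comp hG, ?_⟩
  intro x
  have hS : ∀ z, G x (z + 1) =
      if q (x, z.unpair.1, z.unpair.2.unpair.1) z.unpair.2.unpair.2 ∧
        (G x z).1 ≤ z.unpair.1 + 1 then
      (z.unpair.1 + 1, z.unpair.2.unpair.1) else G x z := fun z => rfl
  have hle : ∀ z, (G x z).1 ≤ N x + 1 := by
    intro z
    induction z with
    | zero => exact Nat.zero_le _
    | succ z ih =>
      rw [hS]
      split_ifs with hc
      · have := ((e _).2 ⟨_, hc.1⟩).1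
        change z.unpair.1 ≤ N x at this
        change z.unpair.1 + 1 ≤ N x + 1
        omega
      · exact ih
  obtain ⟨t, ht⟩ := (e (x, N x, Y x (N x))).1 ⟨le_rfl, rfl⟩
  refine ⟨Nat.pair (N x) (Nat.pair (Y x (N x)) t) + 1, ?_⟩
  have key : ∀ s, Nat.pair (N x) (Nat.pair (Y x (N x)) t) + 1 ≤ s →
      G x s = (N x + 1, Y x (N x)) := by
    intro s hs
    induction s, hs using Nat.le_induction with
    | base =>
      rw [hS]
      simp only [Nat.unpair_pair]
      rw [if_pos ⟨ht, hle _⟩]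
    | succ z _ ih =>
      rw [hS, ih]
      split_ifs with hc
      · have h1 := (e _).2 ⟨_, hc.1⟩
        have h2 : z.unpair.1 = N x := by
          have h3 := h1.1
          change z.unpair.1 ≤ N x at h3
          have h4 := hc.2
          change N x + 1 ≤ z.unpair.1 + 1 at h4
          omega
        have h5 := h1.2
        change z.unpair.2.unpair.1 = Y x z.unpair.1 at h5
        rw [h5, h2]
      · rfl
  intro s hs
  change (G x s).2 = _
  rw [key s hs]

end Pool.Agent.H36.MinNum
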