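import Pool.Agent.H36.MinNum.Mod

/-!
The family, its two numberings, and the liveness of the block machine.
-/

namespace Pool.Agent.H36.MinNum

open Pool.Agent.H36.LFI

/-- A maximal run of all blocks. -/
structure Run (A : Par) where
  n : ℕ → ℕ
  V : ℕ → ℕ → List ℕ
  hI : ∀ b, Init b (V b 0)
  hS : ∀ b, ∀ t < n b, Step A b t (V b t) (V b (t + 1))
  hF : ∀ b v, ¬ Step A b (n b) (V b (n b)) v
  sd : SD (fun x : ℕ × ℕ × List ℕ => x.2.1 ≤ n x.1 ∧ x.2.2 = V x.1 x.2.1)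

theorem exists_Run (A : Par) : Nonempty (Run A) := by
  obtain ⟨n, V, h1, h2, h3, h4⟩ := exists_blocks A
  exact ⟨⟨n, V, h1, h2, h3, h4⟩⟩

/-- classes without a common slot -/
def Disj (b : ℕ) (v : List ℕ) (w : ℕ) (v' : List ℕ) (w' : ℕ) : Prop :=
  ∀ (d : Bool) (i : ℕ), ¬ (cs b v d i = w ∧ cs b v' d i = w')

/-- confirmed time stamps -/
def Conf (v : List ℕ) (e t : ℕ) : Prop :=
  ((st v e = 2 ∨ st v e = 3) ∧ t = ta v e) ∨ (st v e = 4 ∧ (t = ta v e ∨ t = tb v e))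

theorem al_inj {b b' : ℕ} (h : al b = al b') : b = b' := (Nat.pair_eq_pair.1 h).2

theorem la_inj {b e b' e' : ℕ} (h : la b e = la b' e') : b = b' ∧ e = e' :=
  Nat.pair_eq_pair.1 (Nat.pair_eq_pair.1 h).2

theorem lb_inj {b e t w c b' e' t' w' c' : ℕ} (h : lb b e t w c = lb b' e' t' w' c') :
    b = b' ∧ e = e' ∧ t = t' ∧ w = w' ∧ c = c' := by
  unfold lb at h
  simpa only [Nat.pair_eq_pair, true_and] using h

theorem al_ne_la {b b' e : ℕ} : al b ≠ la b' e := by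
  intro h
  have := (Nat.pair_eq_pair.1 h).1
  omega
theorem al_ne_lb {b b' e t w c : ℕ} : al b ≠ lb b' e t w c := by
  intro h
  have := (Nat.pair_eq_pair.1 h).1
  omega
theorem la_ne_lb {b e b' e' t w c : ℕ} : la b e ≠ lb b' e' t w c := by
  intro h
  have := (Nat.pair_eq_pair.1 h).1
  omega

namespace Run

variable {A : Par} (R : Run A)

def fv (b : ℕ) : List ℕ := R.V b (R.n b)

theorem gi (b : ℕ) {t : ℕ} (ht : t ≤ R.n b) : GI A b (R.V b) t :=
  gi_all (R.hI b) (R.hS b) t ht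

theorem gf (b : ℕ) : GI A b (R.V b) (R.n b) := R.gi b le_rfl

theorem n_le (b : ℕ) : R.n b ≤ KK b := chain_le (R.hI b) (R.hS b)

/-- labels that are put into every set -/
def UU (b e : ℕ) : Prop :=
  e < b + 1 ∧ ∃ s, s < R.n b ∧ st (R.V b s) e = 0 ∧ st (R.V b (s + 1)) e = 1 ∧
    ∃ w, Cl b (R.V b s) w ∧ A.QQ e (kk (R.V b (s + 1)) e w) (la b e)

/-- The members of the family. -/
def SetOf (b w : ℕ) : Set ℕ :=
  {x | x = al b ∨ (∃ b' e, x = la b' e ∧ ((b' = b ∧ e < b + 1) ∨ R.UU b' e)) ∨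
    ∃ e t w' c, x = lb b e t w' c ∧ e < b + 1 ∧ c ≤ KK b ∧
      ((t = R.n b ∧ w' = w) ∨
        (c = R.n b ∧ Conf (R.fv b) e t ∧ Disj b (R.V b t) w' (R.fv b) w))}

/-- The two numberings. -/
noncomputable def num (d : Bool) (x : ℕ) : Set ℕ :=
  R.SetOf x.unpair.1 (cs x.unpair.1 (R.fv x.unpair.1) d x.unpair.2)

theorem num_pair (d : Bool) (b i : ℕ) :
    R.num d (Nat.pair b i) = R.SetOf b (cs b (R.fv b) d i) := by
  unfold num
  simp

theorem mem_al {b b' w : ℕ} : al b' ∈ R.SetOf b w ↔ b' = b := by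
  constructor
  · rintro (h | ⟨_, _, h, _⟩ | ⟨_, _, _, _, h, _⟩)
    · exact al_inj h
    · exact absurd h al_ne_la
    · exact absurd h al_ne_lb
  · rintro rfl
    exact Or.inl rfl

theorem mem_la {b b' e w : ℕ} : la b' e ∈ R.SetOf b w ↔ (b' = b ∧ e < b + 1) ∨ R.UU b' e := by
  constructor
  · rintro (h | ⟨b'', e', h, h'⟩ | ⟨_, _, _, _, h, _⟩)
    · exact absurd h.symm al_ne_la
    · obtain ⟨rfl, rfl⟩ := la_inj h
      exact h'
    · exact absurd h la_ne_lb
  · intro h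
    exact Or.inr (Or.inl ⟨_, _, rfl, h⟩)

theorem mem_lb {b b' e t w c w' : ℕ} : lb b' e t w' c ∈ R.SetOf b w ↔
    b' = b ∧ e < b + 1 ∧ c ≤ KK b ∧ ((t = R.n b ∧ w' = w) ∨
        (c = R.n b ∧ Conf (R.fv b) e t ∧ Disj b (R.V b t) w' (R.fv b) w)) := by
  constructor
  · rintro (h | ⟨_, _, h, _⟩ | ⟨e', t', w'', c', h, h'⟩)
    · exact absurd h.symm al_ne_lb
    · exact absurd h.symm la_ne_lb
    · obtain ⟨rfl, rfl, rfl, rfl, rfl⟩ := lb_inj h
      exact ⟨rfl, h'⟩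
  · rintro ⟨rfl, h'⟩
    exact Or.inr (Or.inr ⟨_, _, _, _, rfl, h'⟩)

theorem conf_lt {b e t : ℕ} (he : e < b + 1) (h : Conf (R.fv b) e t) : t < R.n b := by
  have hT := (R.gf b).ti e he
  rcases h with ⟨h | h, rfl⟩ | ⟨h, rfl | rfl⟩
  · exact (hT.h1 (by unfold fv at h; omega)).a1
  · exact (hT.h1 (by unfold fv at h; omega)).a1
  · exact (hT.h1 (by unfold fv at h; omega)).a1
  · exact (hT.h3 (by unfold fv at h; omega)).c2

theorem SetOf_inj {b b' w w' : ℕ} (h : R.SetOf b w = R.SetOf b' w') : b = b' ∧ w = w' := by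
  have h1 : al b ∈ R.SetOf b' w' := by rw [← h]; exact R.mem_al.2 rfl
  have h2 := R.mem_al.1 h1
  subst h2
  refine ⟨rfl, ?_⟩
  have h3 : lb b 0 (R.n b) w 0 ∈ R.SetOf b w' := by
    rw [← h, R.mem_lb]
    exact ⟨rfl, by omega, by omega, Or.inl ⟨rfl, rfl⟩⟩
  rw [R.mem_lb] at h3
  rcases h3.2.2.2 with ⟨_, h4⟩ | ⟨_, h4, _⟩
  · exact h4
  · have := R.conf_lt (by omega) h4
    omega

theorem exists_dead (b : ℕ) (v : List ℕ) : ∃ i, ¬ Al b v i := by
  obtain ⟨B, hB⟩ := exists_bound v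
  refine ⟨B, ?_⟩
  rintro ⟨u, _, y, _, h⟩
  have := hB 1 (Nat.pair u y)
  unfold qq at h
  omega

theorem SetOf_mem_range {b w : ℕ} (d : Bool) (h : Cl b (R.fv b) w) :
    R.SetOf b w ∈ Set.range (R.num d) := by
  rcases h with rfl | ⟨i, hi, rfl⟩
  · obtain ⟨i, hi⟩ := exists_dead b (R.fv b)
    exact ⟨Nat.pair b i, by rw [R.num_pair, cs_dead d hi]⟩
  · cases d
    · exact ⟨Nat.pair b i, by rw [R.num_pair, cs_false, cm_alive hi]⟩
    · obtain ⟨j, _, _, h2⟩ := cn_invol (R.gf b).inj hi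
      exact ⟨Nat.pair b j, by
        rw [R.num_pair, cs_true]
        exact congrArg (R.SetOf b) h2⟩

theorem mem_range_num {d : Bool} {s : Set ℕ} :
    s ∈ Set.range (R.num d) ↔ ∃ b w, Cl b (R.fv b) w ∧ s = R.SetOf b w := by
  constructor
  · rintro ⟨x, rfl⟩
    exact ⟨_, _, cs_Cl (R.gf _).inj d _, rfl⟩
  · rintro ⟨b, w, h, rfl⟩
    exact R.SetOf_mem_range d h

theorem range_num (d : Bool) : Set.range (R.num d) = Set.range (R.num false) := by
  ext s
  rw [R.mem_range_num, R.mem_range_num]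

/-- An opponent numbering of the family. -/
structure TO (γ : ℕ → Set ℕ) (e : ℕ) : Prop where
  rng : Set.range γ = Set.range (R.num false)
  mem : ∀ k m, m ∈ γ k ↔ A.PP e k m ∧ ¬ A.QQ e k m

variable {R}

namespace TO

variable {γ : ℕ → Set ℕ} {e : ℕ} (h : R.TO γ e)

include h

theorem surj {b w : ℕ} (hw : Cl b (R.fv b) w) : ∃ k, γ k = R.SetOf b w := by
  have : R.SetOf b w ∈ Set.range γ := by
    rw [h.rng]
    exact R.SetOf_mem_range false hw
  exact this

theorem val (k : ℕ) : ∃ b w, Cl b (R.fv b) w ∧ γ k = R.SetOf b w := by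
  have : γ k ∈ Set.range γ := ⟨k, rfl⟩
  rw [h.rng, R.mem_range_num] at this
  exact this

theorem not_UU {b : ℕ} : ¬ R.UU b e := by
  intro hU
  have hU' := hU
  obtain ⟨_, s, _, _, _, w, _, hQ⟩ := hU'
  have h1 : la b e ∈ γ (kk (R.V b (s + 1)) e w) := by
    obtain ⟨b', w', _, hw'⟩ := h.val (kk (R.V b (s + 1)) e w)
    rw [hw', R.mem_la]
    exact Or.inr hU
  exact ((h.mem _ _).1 h1).2 hQ

/-- registered indices have values in their block -/
theorem reg {b t w : ℕ} (hb : e < b + 1) (ht : t ≤ R.n b) (hst : 1 ≤ st (R.V b t) e)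
    (hw : Cl b (R.V b (ta (R.V b t) e)) w) :
    ∃ w', Cl b (R.fv b) w' ∧ γ (kk (R.V b t) e w) = R.SetOf b w' := by
  have hT := ((R.gi b ht).ti e hb).h1 hst
  have h1 := hT.a1
  have hP := (hT.a6 w hw).1
  have hQ : ¬ A.QQ e (kk (R.V b t) e w) (la b e) := by
    intro hQ
    refine h.not_UU (b := b) ⟨hb, ta (R.V b t) e, by omega, hT.a2, hT.a3, w, hw, ?_⟩
    rw [hT.a3']
    exact hQ
  obtain ⟨b', w', h2, h3⟩ := h.val (kk (R.V b t) e w)
  have h4 : la b e ∈ R.SetOf b' w' := by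
    rw [← h3]
    exact (h.mem _ _).2 ⟨hP, hQ⟩
  rw [R.mem_la] at h4
  rcases h4 with ⟨rfl, _⟩ | h4
  · exact ⟨w', h2, h3⟩
  · exact absurd h4 h.not_UU

/-- enforcement principle -/
theorem ep {b k t w w' : ℕ} (hb : e < b + 1) (hk : γ k = R.SetOf b w')
    (hD : Drp A b e k t w) (hC : Conf (R.fv b) e t) :
    ∃ (d : Bool) (i : ℕ), cs b (R.V b t) d i = w ∧ cs b (R.fv b) d i = w' := by
  by_contra hcon
  push Not at hcon
  have hdis : Disj b (R.V b t) w (R.fv b) w' := fun d i hi => hcon d i hi.1 hi.2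
  have h1 : lb b e t w (R.n b) ∈ γ k := by
    rw [hk, R.mem_lb]
    exact ⟨rfl, hb, R.n_le b, Or.inr ⟨rfl, hC, hdis⟩⟩
  exact ((h.mem _ _).1 h1).2 (hD _ (R.n_le b))

/-- labels outside all sets have been dropped -/
theorem drp {b k t w : ℕ} (hS : ShL A b e k t w) (ht : t ≠ R.n b)
    (hC : ¬ Conf (R.fv b) e t) : Drp A b e k t w := by
  intro c hc
  by_contra hQ
  have h1 : lb b e t w c ∈ γ k := (h.mem _ _).2 ⟨hS c hc, hQ⟩
  obtain ⟨b', w', _, h3⟩ := h.val k
  rw [h3, R.mem_lb] at h1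
  obtain ⟨rfl, _, _, h4 | ⟨_, h4, _⟩⟩ := h1
  · exact ht h4.1
  · exact hC h4

theorem shl {b k w : ℕ} (hb : e < b + 1) (hk : γ k = R.SetOf b w) :
    ShL A b e k (R.n b) w := by
  intro c hc
  have h1 : lb b e (R.n b) w c ∈ γ k := by
    rw [hk, R.mem_lb]
    exact ⟨rfl, hb, hc, Or.inl ⟨rfl, rfl⟩⟩
  exact ((h.mem _ _).1 h1).1

theorem live0 {b : ℕ} (hb : e < b + 1) : st (R.fv b) e ≠ 0 := by
  intro h0
  classical
  obtain ⟨B, hB⟩ := exists_bound (R.fv b)
  have hf : ∀ w, ∃ k, Cl b (R.fv b) w → γ k = R.SetOf b w := by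
    intro w
    by_cases hw : Cl b (R.fv b) w
    · obtain ⟨k, hk⟩ := h.surj hw
      exact ⟨k, fun _ => hk⟩
    · exact ⟨0, fun hw' => absurd hw' hw⟩
  choose f hf using hf
  obtain ⟨v', h1, h2, h3, h4, h5, h6, h7, h8⟩ := exists_loc (R.fv b) e 1 (R.n b)
    (tb (R.fv b) e) f (ty (R.fv b) e) (B + 1)
  refine R.hF b v' (Or.inl ⟨e, hb, h0, h2, h1, h3, ?_, h5, ?_⟩)
  · intro e' _
    by_cases he : e' = e
    · subst he
      refine ⟨h6, fun w => ?_⟩
      rw [h8]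
      split_ifs <;> rfl
    · exact h4 e' he
  · refine (AllCl_iff (P := fun w => Show A b e (kk v' e w) (R.n b) w)).2 ?_
    intro w hw
    have hwB : w < B + 1 := by
      rcases hw with rfl | ⟨i, ⟨u, _, y, _, rfl⟩, rfl⟩
      · omega
      · have := hB 1 (Nat.pair u y)
        unfold qq fv at *
        omega
    rw [h7, if_pos hwB]
    have hk := hf w hw
    refine ⟨?_, h.shl hb hk⟩
    have h9 : la b e ∈ γ (f w) := by
      rw [hk, R.mem_la]
      exact Or.inl ⟨rfl, hb⟩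
    exact ((h.mem _ _).1 h9).1

theorem live1 {b : ℕ} (hb : e < b + 1) : st (R.fv b) e ≠ 1 := by
  intro h0
  obtain ⟨v', h1, h2, h3, h4, h5, h6, h7, h8⟩ := exists_loc (R.fv b) e 2 (ta (R.fv b) e)
    (tb (R.fv b) e) (kk (R.fv b) e) (ty (R.fv b) e) 0
  have hT := ((R.gf b).ti e hb).h1 (by unfold fv at h0; omega)
  obtain ⟨h9, h10⟩ := hT.a4 (by unfold fv at h0; omega)
  refine R.hF b v' (Or.inr (Or.inl ⟨e, hb, h0, h2, h1, ?_, ?_, ?_⟩))
  · intro e' _
    by_cases he : e' = e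
    · subst he
      refine ⟨h5, fun w => ?_⟩
      rw [h7]
      split_ifs <;> rfl
    · exact h3 e' he
  · intro e' _
    by_cases he : e' = e
    · subst he
      refine ⟨h6, fun w => ?_⟩
      rw [h8]
      split_ifs <;> rfl
    · exact h4 e' he
  · refine (AllCl_iff (P := fun w => Drp A b e (kk (R.fv b) e w) (ta (R.fv b) e) w)).2 ?_
    intro w hw
    refine h.drp (hT.a6 w ((Cl_congr h9 h10 w).2 hw)).2 ?_ ?_
    · have := hT.a1
      unfold fv
      omega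
    · rintro (⟨h11 | h11, _⟩ | ⟨h11, _⟩) <;> omega

/-- the possible final classes of a tested index -/
theorem cls_of_test {b t y w' : ℕ} (hb : e < b + 1) (ht : t ≤ R.n b)
    (h0 : st (R.V b t) e = 0) (hy : y < 2 * ms (R.V b t)) {d : Bool} {j : ℕ}
    (h1 : cs b (R.V b t) d j = qq (R.V b t) e y + 1) (h2 : cs b (R.fv b) d j = w') :
    w' = cs b (R.fv b) d (qq (R.V b t) e y) := by
  have hI := (R.gi b ht).inj
  have hns : ¬ Sw (R.V b t) e := by
    rintro (h | h) <;> omega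
  have hc := cn_nsw hI (u := e) (y := y) (by omega) hy hns
  have hj : j = qq (R.V b t) e y := by
    cases d
    · rw [cs_false] at h1
      unfold cm at h1
      split_ifs at h1 with ha
      omega
    · rw [cs_true] at h1
      exact (cn_inj hI (Al_qq (by omega) hy) (by rw [hc, h1])).symm
  rw [← h2, hj]

theorem live2 {b : ℕ} (hb : e < b + 1) : st (R.fv b) e ≠ 2 := by
  intro h0
  classical
  have hT := ((R.gf b).ti e hb).h1 (by unfold fv at h0; omega)
  obtain ⟨h9, h10⟩ := hT.a4 (by unfold fv at h0; omega)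
  have hD := ((R.gf b).ti e hb).h2 (by unfold fv at h0; omega)
  have hI := (R.gf b).inj
  change Inj b (R.fv b) at hI
  obtain ⟨B, hB⟩ := exists_bound (R.fv b)
  have key : ∀ y, y < 2 * ms (R.fv b) →
      ShL A b e (kk (R.fv b) e (qq (R.fv b) e y + 1)) (R.n b) (qq (R.fv b) e y + 1) ∨
      ShL A b e (kk (R.fv b) e (qq (R.fv b) e y + 1)) (R.n b) (qq (R.fv b) e (pt y) + 1) := by
    intro y hy
    have hw : Cl b (R.V b (ta (R.V b (R.n b)) e)) (qq (R.fv b) e y + 1) :=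
      (Cl_congr h9 h10 _).2 (Or.inr ⟨_, Al_qq (by omega) hy, rfl⟩)
    obtain ⟨w', hw', hk⟩ := h.reg hb le_rfl (by unfold fv at h0; omega) hw
    obtain ⟨d, j, hj1, hj2⟩ := h.ep hb hk (hD _ hw) (Or.inl ⟨Or.inl h0, rfl⟩)
    have hq := (h10 e y).symm
    change qq (R.fv b) e y = _ at hq
    have hy' : y < 2 * ms (R.V b (ta (R.V b (R.n b)) e)) := by rw [h9]; exact hy
    rw [hq] at hj1
    have h11 := cls_of_test h hb (le_of_lt hT.a1) hT.a2 hy' hj1 hj2
    rw [← hq] at h11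
    have h12 := h.shl hb hk
    rw [h11] at h12
    cases d
    · left
      rw [cs_false, cm_alive (Al_qq (by omega) hy)] at h12
      exact h12
    · right
      rw [cs_true, cn_sw hI (by omega) hy (Or.inl h0)] at h12
      exact h12
  obtain ⟨v', h1, h2, h3, h4, h5, h6, h7, h8⟩ := exists_loc (R.fv b) e 3 (ta (R.fv b) e)
    (R.n b) (kk (R.fv b) e) (fun i =>
      if ShL A b e (kk (R.fv b) e (i + 1)) (R.n b) (i + 1) then 0 else 1) B
  refine R.hF b v' (Or.inr (Or.inr (Or.inl ⟨e, hb, h0, h2, h1, ?_, h4, h6, ?_⟩)))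
  · intro e' _
    by_cases he : e' = e
    · subst he
      refine ⟨h5, fun w => ?_⟩
      rw [h7]
      split_ifs <;> rfl
    · exact h3 e' he
  · intro y hy
    change y < 2 * ms (R.fv b) at hy
    change (ty v' e (qq (R.fv b) e y) = 0 ∧
        ShL A b e (kk (R.fv b) e (qq (R.fv b) e y + 1)) (R.n b) (qq (R.fv b) e y + 1)) ∨
      (ty v' e (qq (R.fv b) e y) = 1 ∧
        ShL A b e (kk (R.fv b) e (qq (R.fv b) e y + 1)) (R.n b) (qq (R.fv b) e (pt y) + 1))
    have hB' : qq (R.fv b) e y < B := hB 1 _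
    rw [h8, if_pos hB']
    rcases key y hy with h11 | h11
    · left
      exact ⟨if_pos h11, h11⟩
    · by_cases h12 : ShL A b e (kk (R.fv b) e (qq (R.fv b) e y + 1)) (R.n b)
        (qq (R.fv b) e y + 1)
      · left
        exact ⟨if_pos h12, h12⟩
      · right
        exact ⟨if_neg h12, h11⟩

theorem live3 {b : ℕ} (hb : e < b + 1) : st (R.fv b) e ≠ 3 := by
  intro h0
  classical
  have hT := ((R.gf b).ti e hb).h3 (by unfold fv at h0; omega)
  obtain ⟨h9, h10⟩ := hT.c4 (by unfold fv at h0; omega)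
  have hI := (R.gf b).inj
  change Inj b (R.fv b) at hI
  have hcon : ¬ Conf (R.fv b) e (tb (R.fv b) e) := by
    rintro (⟨_, h11⟩ | ⟨h11, _⟩)
    · have := hT.c1
      unfold fv at h11
      omega
    · omega
  have hne : tb (R.fv b) e ≠ R.n b := by
    have := hT.c2
    unfold fv
    omega
  have key : ∀ y, y < 2 * ms (R.fv b) →
    (ty (R.fv b) e (qq (R.fv b) e y) = 0 ∧ Drp A b e (kk (R.fv b) e (qq (R.fv b) e y + 1))
      (tb (R.fv b) e) (qq (R.fv b) e y + 1)) ∨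
    (ty (R.fv b) e (qq (R.fv b) e y) = 1 ∧ Drp A b e (kk (R.fv b) e (qq (R.fv b) e y + 1))
      (tb (R.fv b) e) (qq (R.fv b) e (pt y) + 1)) := by
    intro y hy
    obtain ⟨y', hy', hq, h11⟩ := hT.c5 (qq (R.fv b) e y)
      (Or.inr ⟨by unfold fv at h0; omega, y, hy, rfl⟩)
    rw [h9] at hy'
    rw [h10] at hq
    have h12 := (hI e (by omega) y' hy' e (by omega) y hy hq).2
    subst h12
    rw [h10] at h11
    rcases h11 with ⟨h13, h14⟩ | ⟨h13, h14⟩
    · exact Or.inl ⟨h13, h.drp h14 hne hcon⟩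
    · exact Or.inr ⟨h13, h.drp h14 hne hcon⟩
  have hm : ∃ m', ms (R.fv b) = DD b * m' := by
    rcases (R.gf b).msz with h11 | h11
    · exact ⟨0, by rw [mul_zero]; exact h11⟩
    · have hJ : JJ b (R.V b (R.n b)) ≤ b := by
        unfold JJ
        have : (Finset.range (b + 1)).filter (fun e => st (R.V b (R.n b)) e = 4) ⊂
            Finset.range (b + 1) := by
          rw [Finset.filter_ssubset]
          exact ⟨e, Finset.mem_range.2 hb, by unfold fv at h0; omega⟩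
        have := Finset.card_lt_card this
        rw [Finset.card_range] at this
        omega
      refine ⟨DD b ^ (b - JJ b (R.V b (R.n b))), ?_⟩
      have hp : 0 < DD b ^ JJ b (R.V b (R.n b)) := pow_pos (DD_pos b) _
      apply Nat.eq_of_mul_eq_mul_right hp
      change ms (R.V b (R.n b)) * _ = _
      rw [h11, ← pow_succ', ← pow_add]
      congr 1
      omega
  obtain ⟨m', hm'⟩ := hm
  obtain ⟨T, p, hp1, hp2⟩ := exists_pool (b := b) (m := ms (R.fv b)) (m' := m')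
    (fun y => ty (R.fv b) e (qq (R.fv b) e y)) (by
      intro y hy
      rcases key y hy with ⟨h13, _⟩ | ⟨h13, _⟩
      · exact Or.inl h13
      · exact Or.inr h13) hm'
  obtain ⟨v', h1, h2, h3, h4, h5, h6⟩ := exists_lev b (R.fv b) e m'
    (fun u y => qq (R.fv b) e (p u y))
  refine R.hF b v' (Or.inr (Or.inr (Or.inr (Or.inl ⟨e, hb, h0, h2, h1, fun e _ => h5 e,
    fun e _ => h6 e, key, by rw [h3]; exact hm', ⟨T, ?_⟩, ?_⟩))))
  · intro u hu y hy
    rw [h3] at hy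
    rw [h4 u hu y hy]
    exact ⟨⟨p u y, (hp1 u hu y hy).1, rfl⟩, (hp1 u hu y hy).2⟩
  · intro u hu y hy u' hu' y' hy' he
    rw [h3] at hy hy'
    rw [h4 u hu y hy, h4 u' hu' y' hy'] at he
    have h13 := (hI e (by omega) _ (hp1 u hu y hy).1 e (by omega) _ (hp1 u' hu' y' hy').1 he).2
    exact hp2 u hu y hy u' hu' y' hy' h13

/-- every true opponent joins in every block -/
theorem joined {b : ℕ} (hb : e < b + 1) : st (R.fv b) e = 4 := by
  have h0 := h.live0 hb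
  have h1 := h.live1 hb
  have h2 := h.live2 hb
  have h3 := h.live3 hb
  have h4 := (R.gf b).stle e (by omega)
  unfold fv at *
  omega

end TO

variable (R)

theorem collapsed {b : ℕ} (h : A.M b) : ms (R.fv b) = 0 := by
  by_contra hm
  obtain ⟨v', h1, _, h3, _, h5, h6⟩ := exists_lev b (R.fv b) (2 * (b + 1)) 0 (fun _ _ => 0)
  exact R.hF b v' (Or.inr (Or.inr (Or.inr (Or.inr (Or.inr
    ⟨Nat.pos_of_ne_zero hm, h, h3, h1, fun e _ => h5 e, fun e _ => h6 e⟩)))))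

theorem alive_pos {b : ℕ} (h : ¬ A.M b) : 0 < ms (R.fv b) := by
  by_contra hm
  exact h ((R.gf b).mM (by unfold fv at hm; omega))

end Run

end Pool.Agent.H36.MinNum
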