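import Pool.Agent.H36.MinNum.Red
import Pool.Agent.H36.MinNum.Dce

/-!
The two numberings are computable at level two, positive and limit equivalent.
-/

namespace Pool.Agent.H36.MinNum

open Pool.Agent.H36.LFI

section Rel

def CR (b : ℕ) (v : List ℕ) (d : Bool) (i w : ℕ) : Prop :=
  (d = true ∧ ((∃ u, u < 2 * (b + 1) ∧ ∃ y, y < 2 * ms v ∧ qq v u y = i ∧
    (((st v u = 2 ∨ st v u = 3) ∧ w = qq v u (pt y) + 1) ∨
      (¬ (st v u = 2 ∨ st v u = 3) ∧ w = i + 1))) ∨ (¬ Al b v i ∧ w = 0))) ∨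
  (d = false ∧ ((Al b v i ∧ w = i + 1) ∨ (¬ Al b v i ∧ w = 0)))

theorem CR_iff {b : ℕ} {v : List ℕ} (hI : Inj b v) {d : Bool} {i w : ℕ} :
    CR b v d i w ↔ cs b v d i = w := by
  unfold CR
  cases d
  · rw [cs_false]
    constructor
    · rintro (⟨h, _⟩ | ⟨_, ⟨h, rfl⟩ | ⟨h, rfl⟩⟩)
      · exact absurd h (by decide)
      · exact cm_alive h
      · exact cm_dead h
    · rintro rfl
      refine Or.inr ⟨rfl, ?_⟩
      by_cases h : Al b v i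
      · exact Or.inl ⟨h, cm_alive h⟩
      · exact Or.inr ⟨h, cm_dead h⟩
  · rw [cs_true, cn_eq_iff hI]
    constructor
    · rintro (⟨_, h⟩ | ⟨h, _⟩)
      · exact h
      · exact absurd h (by decide)
    · intro h
      exact Or.inl ⟨rfl, h⟩

variable {α : Type} [Primcodable α]

theorem s_CR {b i w : α → ℕ} {v : α → List ℕ} {d : α → Bool} (hb : Primrec b) (hv : Primrec v)
    (hd : Primrec d) (hi : Primrec i) (hw : Primrec w) :
    SD (fun a => CR (b a) (v a) (d a) (i a) (w a)) := by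
  have h : SD (fun x : ℕ × List ℕ × Bool × ℕ × ℕ =>
      CR x.1 x.2.1 x.2.2.1 x.2.2.2.1 x.2.2.2.2) := by
    unfold CR; (repeat' with_reducible first | assumption | exact p_id | exact p_const _ | refine s_Al ?_ ?_ ?_ | refine s_not_Al ?_ ?_ ?_ | refine s_At _ ?_ ?_ ?_ | refine s_ShL _ ?_ ?_ ?_ ?_ ?_ | refine s_Drp _ ?_ ?_ ?_ ?_ ?_ | refine s_Show _ ?_ ?_ ?_ ?_ ?_ | refine s_Loc ?_ ?_ ?_ | refine s_Lev ?_ ?_ ?_ | refine s_Fra ?_ ?_ ?_ | refine s_Frb ?_ ?_ ?_ | refine s_PP _ ?_ ?_ ?_ | refine s_QQ _ ?_ ?_ ?_ | refine s_Ph _ ?_ ?_ | refine s_M _ ?_ | refine s_and ?_ ?_ | refine s_or ?_ ?_ | refine s_eq ?_ ?_ | refine s_ne ?_ ?_ | refine s_not_eq ?_ ?_ | refine s_lt ?_ ?_ | refine s_le ?_ ?_ | refine s_not_lt ?_ ?_ | refine s_not_le ?_ ?_ | refine s_not_and ?_ ?_ | refine s_not_or ?_ ?_ | refine s_not_not ?_ | refine s_ball ?_ ?_ | refine s_ball_le ?_ ?_ | refine s_mem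 ?_ ?_ | refine s_ex ?_ | refine s_imp ?_ ?_ | refine p_ms ?_ | refine p_qq ?_ ?_ ?_ | refine p_st ?_ ?_ | refine p_ta ?_ ?_ | refine p_tb ?_ ?_ | refine p_kk ?_ ?_ ?_ | refine p_ty ?_ ?_ ?_ | refine p_lk ?_ ?_ ?_ | refine p_pt ?_ | refine p_DD ?_ | refine p_KK ?_ | refine p_al ?_ | refine p_la ?_ ?_ | refine p_lb ?_ ?_ ?_ ?_ ?_ | refine p_fst ?_ | refine p_snd ?_ | refine p_unpair ?_ | refine p_npair ?_ ?_ | refine p_getD _ ?_ ?_ | refine p_length ?_ | refine p_add ?_ ?_ | refine p_mul ?_ ?_)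
  exact SD.comp h (f := fun a => (b a, v a, d a, i a, w a)) (by (repeat' with_reducible first | assumption | exact p_id | exact p_const _ | refine p_ms ?_ | refine p_qq ?_ ?_ ?_ | refine p_st ?_ ?_ | refine p_ta ?_ ?_ | refine p_tb ?_ ?_ | refine p_kk ?_ ?_ ?_ | refine p_ty ?_ ?_ ?_ | refine p_lk ?_ ?_ ?_ | refine p_pt ?_ | refine p_DD ?_ | refine p_KK ?_ | refine p_al ?_ | refine p_la ?_ ?_ | refine p_lb ?_ ?_ ?_ ?_ ?_ | refine p_fst ?_ | refine p_snd ?_ | refine p_unpair ?_ | refine p_npair ?_ ?_ | refine p_getD _ ?_ ?_ | refine p_length ?_ | refine p_add ?_ ?_ | refine p_mul ?_ ?_ | refine p_sub ?_ ?_ | refine p_div ?_ ?_ | refine p_mod ?_ ?_ | refine p_pow ?_ ?_ | refine p_pair ?_ ?_))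

/-- Disjointness of classes as a semidecidable relation -/
def DR (b : ℕ) (v : List ℕ) (w : ℕ) (v' : List ℕ) (w' : ℕ) : Prop :=
  ¬ (w = 0 ∧ w' = 0) ∧
  ∃ B, (∀ u, u < 2 * (b + 1) → ∀ y, y < 2 * ms v → qq v u y < B) ∧
    (∀ u, u < 2 * (b + 1) → ∀ y, y < 2 * ms v' → qq v' u y < B) ∧
    ∀ i, i < B → (∃ w1 w2, CR b v true i w1 ∧ CR b v' true i w2 ∧ ¬ (w1 = w ∧ w2 = w')) ∧
      (∃ w1 w2, CR b v false i w1 ∧ CR b v' false i w2 ∧ ¬ (w1 = w ∧ w2 = w'))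

theorem DR_iff {b : ℕ} {v v' : List ℕ} (hI : Inj b v) (hI' : Inj b v') {w w' : ℕ} :
    DR b v w v' w' ↔ Disj b v w v' w' := by
  constructor
  · rintro ⟨h0, B, h1, h2, h3⟩ d i ⟨hw, hw'⟩
    by_cases hi : i < B
    · obtain ⟨⟨w1, w2, h4, h5, h6⟩, ⟨w3, w4, h7, h8, h9⟩⟩ := h3 i hi
      rw [CR_iff hI] at h4 h7
      rw [CR_iff hI'] at h5 h8
      cases d
      · exact h9 ⟨by rw [← h7, hw], by rw [← h8, hw']⟩
      · exact h6 ⟨by rw [← h4, hw], by rw [← h5, hw']⟩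
    · have hd : ¬ Al b v i := by
        rintro ⟨u, hu, y, hy, rfl⟩
        exact hi (h1 u hu y hy)
      have hd' : ¬ Al b v' i := by
        rintro ⟨u, hu, y, hy, rfl⟩
        exact hi (h2 u hu y hy)
      rw [cs_dead d hd] at hw
      rw [cs_dead d hd'] at hw'
      exact h0 ⟨hw.symm, hw'.symm⟩
  · intro h
    obtain ⟨B, hB⟩ := exists_bound v
    obtain ⟨B', hB'⟩ := exists_bound v'
    have b1 : ∀ u y, qq v u y < max B B' := fun u y =>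
      lt_of_lt_of_le (hB 1 _) (le_max_left _ _)
    have b2 : ∀ u y, qq v' u y < max B B' := fun u y =>
      lt_of_lt_of_le (hB' 1 _) (le_max_right _ _)
    refine ⟨?_, max B B', fun u _ y _ => b1 u y, fun u _ y _ => b2 u y, ?_⟩
    · rintro ⟨rfl, rfl⟩
      refine h false (max B B') ⟨cs_dead _ ?_, cs_dead _ ?_⟩
      · rintro ⟨u, _, y, _, hq⟩
        have := b1 u y
        omega
      · rintro ⟨u, _, y, _, hq⟩
        have := b2 u y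
        omega
    · intro i _
      refine ⟨⟨cs b v true i, cs b v' true i, (CR_iff hI).2 rfl, (CR_iff hI').2 rfl, ?_⟩,
        ⟨cs b v false i, cs b v' false i, (CR_iff hI).2 rfl, (CR_iff hI').2 rfl, ?_⟩⟩
      · exact h true i
      · exact h false i

end Rel

section Rel2

variable {α : Type} [Primcodable α]

theorem s_DR {b w w' : α → ℕ} {v v' : α → List ℕ} (hb : Primrec b) (hv : Primrec v)
    (hw : Primrec w) (hv' : Primrec v') (hw' : Primrec w') :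
    SD (fun a => DR (b a) (v a) (w a) (v' a) (w' a)) := by
  have h : SD (fun x : ℕ × List ℕ × ℕ × List ℕ × ℕ =>
      DR x.1 x.2.1 x.2.2.1 x.2.2.2.1 x.2.2.2.2) := by
    unfold DR; (repeat' with_reducible first | assumption | exact p_id | exact p_const _ | refine s_CR ?_ ?_ ?_ ?_ ?_ | refine s_Al ?_ ?_ ?_ | refine s_not_Al ?_ ?_ ?_ | refine s_At _ ?_ ?_ ?_ | refine s_ShL _ ?_ ?_ ?_ ?_ ?_ | refine s_Drp _ ?_ ?_ ?_ ?_ ?_ | refine s_Show _ ?_ ?_ ?_ ?_ ?_ | refine s_Loc ?_ ?_ ?_ | refine s_Lev ?_ ?_ ?_ | refine s_Fra ?_ ?_ ?_ | refine s_Frb ?_ ?_ ?_ | refine s_PP _ ?_ ?_ ?_ | refine s_QQ _ ?_ ?_ ?_ | refine s_Ph _ ?_ ?_ | refine s_M _ ?_ | refine s_and ?_ ?_ | refine s_or ?_ ?_ | refine s_eq ?_ ?_ | refine s_ne ?_ ?_ | refine s_not_eq ?_ ?_ | refine s_lt ?_ ?_ | refine s_le ?_ ?_ | refine s_not_lt ?_ ?_ | refine s_not_le ?_ ?_ | refine s_not_and ?_ ?_ | refine s_not_or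 ?_ ?_ | refine s_not_not ?_ | refine s_ball ?_ ?_ | refine s_ball_le ?_ ?_ | refine s_mem ?_ ?_ | refine s_ex ?_ | refine s_imp ?_ ?_ | refine p_ms ?_ | refine p_qq ?_ ?_ ?_ | refine p_st ?_ ?_ | refine p_ta ?_ ?_ | refine p_tb ?_ ?_ | refine p_kk ?_ ?_ ?_ | refine p_ty ?_ ?_ ?_ | refine p_lk ?_ ?_ ?_ | refine p_pt ?_ | refine p_DD ?_ | refine p_KK ?_ | refine p_al ?_ | refine p_la ?_ ?_ | refine p_lb ?_ ?_ ?_ ?_ ?_ | refine p_fst ?_ | refine p_snd ?_ | refine p_unpair ?_ | refine p_npair ?_ ?_ | refine p_getD _ ?_ ?_ | refine p_length ?_ | refine p_add ?_ ?_ | refine p_mul ?_ ?_)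
  exact SD.comp h (f := fun a => (b a, v a, w a, v' a, w' a)) (by (repeat' with_reducible first | assumption | exact p_id | exact p_const _ | refine p_ms ?_ | refine p_qq ?_ ?_ ?_ | refine p_st ?_ ?_ | refine p_ta ?_ ?_ | refine p_tb ?_ ?_ | refine p_kk ?_ ?_ ?_ | refine p_ty ?_ ?_ ?_ | refine p_lk ?_ ?_ ?_ | refine p_pt ?_ | refine p_DD ?_ | refine p_KK ?_ | refine p_al ?_ | refine p_la ?_ ?_ | refine p_lb ?_ ?_ ?_ ?_ ?_ | refine p_fst ?_ | refine p_snd ?_ | refine p_unpair ?_ | refine p_npair ?_ ?_ | refine p_getD _ ?_ ?_ | refine p_length ?_ | refine p_add ?_ ?_ | refine p_mul ?_ ?_ | refine p_sub ?_ ?_ | refine p_div ?_ ?_ | refine p_mod ?_ ?_ | refine p_pow ?_ ?_ | refine p_pair ?_ ?_))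

theorem s_Conf {e t : α → ℕ} {v : α → List ℕ} (hv : Primrec v)
    (he : Primrec e) (ht : Primrec t) :
    SD (fun a => Conf (v a) (e a) (t a)) := by
  have h : SD (fun x : List ℕ × ℕ × ℕ => Conf x.1 x.2.1 x.2.2) := by
    unfold Conf; (repeat' with_reducible first | assumption | exact p_id | exact p_const _ | refine s_CR ?_ ?_ ?_ ?_ ?_ | refine s_Al ?_ ?_ ?_ | refine s_not_Al ?_ ?_ ?_ | refine s_At _ ?_ ?_ ?_ | refine s_ShL _ ?_ ?_ ?_ ?_ ?_ | refine s_Drp _ ?_ ?_ ?_ ?_ ?_ | refine s_Show _ ?_ ?_ ?_ ?_ ?_ | refine s_Loc ?_ ?_ ?_ | refine s_Lev ?_ ?_ ?_ | refine s_Fra ?_ ?_ ?_ | refine s_Frb ?_ ?_ ?_ | refine s_PP _ ?_ ?_ ?_ | refine s_QQ _ ?_ ?_ ?_ | refine s_Ph _ ?_ ?_ | refine s_M _ ?_ | refine s_and ?_ ?_ | refine s_or ?_ ?_ | refine s_eq ?_ ?_ | refine s_ne ?_ ?_ | refine s_not_eq ?_ ?_ | refine s_lt ?_ ?_ | refine s_le ?_ ?_ | refine s_not_lt ?_ ?_ | refine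 s_not_le ?_ ?_ | refine s_not_and ?_ ?_ | refine s_not_or ?_ ?_ | refine s_not_not ?_ | refine s_ball ?_ ?_ | refine s_ball_le ?_ ?_ | refine s_mem ?_ ?_ | refine s_ex ?_ | refine s_imp ?_ ?_ | refine p_ms ?_ | refine p_qq ?_ ?_ ?_ | refine p_st ?_ ?_ | refine p_ta ?_ ?_ | refine p_tb ?_ ?_ | refine p_kk ?_ ?_ ?_ | refine p_ty ?_ ?_ ?_ | refine p_lk ?_ ?_ ?_ | refine p_pt ?_ | refine p_DD ?_ | refine p_KK ?_ | refine p_al ?_ | refine p_la ?_ ?_ | refine p_lb ?_ ?_ ?_ ?_ ?_ | refine p_fst ?_ | refine p_snd ?_)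
  exact SD.comp h (f := fun a => (v a, e a, t a)) (by (repeat' with_reducible first | assumption | exact p_id | exact p_const _ | refine p_ms ?_ | refine p_qq ?_ ?_ ?_ | refine p_st ?_ ?_ | refine p_ta ?_ ?_ | refine p_tb ?_ ?_ | refine p_kk ?_ ?_ ?_ | refine p_ty ?_ ?_ ?_ | refine p_lk ?_ ?_ ?_ | refine p_pt ?_ | refine p_DD ?_ | refine p_KK ?_ | refine p_al ?_ | refine p_la ?_ ?_ | refine p_lb ?_ ?_ ?_ ?_ ?_ | refine p_fst ?_ | refine p_snd ?_ | refine p_unpair ?_ | refine p_npair ?_ ?_ | refine p_getD _ ?_ ?_ | refine p_length ?_ | refine p_add ?_ ?_ | refine p_mul ?_ ?_ | refine p_sub ?_ ?_ | refine p_div ?_ ?_ | refine p_mod ?_ ?_ | refine p_pow ?_ ?_ | refine p_pair ?_ ?_))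

end Rel2

namespace Run

variable {A : Par} (R : Run A)

def UR (b e : ℕ) : Prop :=
  e < b + 1 ∧ ∃ (s : ℕ) (v v' : List ℕ), R.At b s v ∧ R.At b (s + 1) v' ∧ st v e = 0 ∧
    st v' e = 1 ∧ (A.QQ e (kk v' e 0) (la b e) ∨
      ∃ u, u < 2 * (b + 1) ∧ ∃ y, y < 2 * ms v ∧ A.QQ e (kk v' e (qq v u y + 1)) (la b e))

theorem UR_iff {b e : ℕ} : R.UR b e ↔ R.UU b e := by
  constructor
  · rintro ⟨he, s, v, v', ⟨_, rfl⟩, ⟨h1, rfl⟩, h2, h3, h4⟩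
    refine ⟨he, s, by omega, h2, h3, ?_⟩
    rcases h4 with h4 | ⟨u, hu, y, hy, h4⟩
    · exact ⟨0, Or.inl rfl, h4⟩
    · exact ⟨_, Or.inr ⟨_, Al_qq hu hy, rfl⟩, h4⟩
  · rintro ⟨he, s, h1, h2, h3, w, hw, h4⟩
    refine ⟨he, s, _, _, ⟨le_of_lt h1, rfl⟩, ⟨h1, rfl⟩, h2, h3, ?_⟩
    rcases hw with rfl | ⟨i, ⟨u, hu, y, hy, rfl⟩, rfl⟩
    · exact Or.inl h4
    · exact Or.inr ⟨u, hu, y, hy, h4⟩

def ML (d : Bool) (b i s : ℕ) (v : List ℕ) (m : ℕ) : Prop :=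
  ∃ e t w' c, m = lb b e t w' c ∧ e < b + 1 ∧ c ≤ KK b ∧
    ((t = s ∧ CR b v d i w') ∨
      (c = s ∧ Conf v e t ∧ t < s ∧ ∃ (vt : List ℕ) (w : ℕ), R.At b t vt ∧ CR b v d i w ∧
        DR b vt w' v w))

def In (d : Bool) (x m : ℕ) : Prop :=
  m = al x.unpair.1 ∨ (∃ e, m = la x.unpair.1 e ∧ e < x.unpair.1 + 1) ∨
  (∃ b' e, m = la b' e ∧ R.UR b' e) ∨
  ∃ (s : ℕ) (v : List ℕ), R.At x.unpair.1 s v ∧ R.ML d x.unpair.1 x.unpair.2 s v m

def Out (d : Bool) (x m : ℕ) : Prop :=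
  ∃ (s : ℕ) (v v' : List ℕ), R.At x.unpair.1 s v ∧ R.At x.unpair.1 (s + 1) v' ∧
    R.ML d x.unpair.1 x.unpair.2 s v m

theorem s_UR : SD (fun x : ℕ × ℕ => R.UR x.1 x.2) := by
  unfold UR
  (repeat' with_reducible first | assumption | exact p_id | exact p_const _ | refine s_DR ?_ ?_ ?_ ?_ ?_ | refine s_Conf ?_ ?_ ?_ | refine s_CR ?_ ?_ ?_ ?_ ?_ | refine s_Al ?_ ?_ ?_ | refine s_not_Al ?_ ?_ ?_ | refine s_At _ ?_ ?_ ?_ | refine s_ShL _ ?_ ?_ ?_ ?_ ?_ | refine s_Drp _ ?_ ?_ ?_ ?_ ?_ | refine s_Show _ ?_ ?_ ?_ ?_ ?_ | refine s_Loc ?_ ?_ ?_ | refine s_Lev ?_ ?_ ?_ | refine s_Fra ?_ ?_ ?_ | refine s_Frb ?_ ?_ ?_ | refine s_PP _ ?_ ?_ ?_ | refine s_QQ _ ?_ ?_ ?_ | refine s_Ph _ ?_ ?_ | refine s_M _ ?_ | refine s_and ?_ ?_ | refine s_or ?_ ?_ | refine s_eq ?_ ?_ | refine s_ne ?_ ?_ | refine s_not_eq ?_ ?_ | refine s_lt ?_ ?_ | refine s_le ?_ ?_ | refine s_not_lt ?_ ?_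 | refine s_not_le ?_ ?_ | refine s_not_and ?_ ?_ | refine s_not_or ?_ ?_ | refine s_not_not ?_ | refine s_ball ?_ ?_ | refine s_ball_le ?_ ?_ | refine s_mem ?_ ?_ | refine s_ex ?_ | refine s_imp ?_ ?_ | refine p_ms ?_ | refine p_qq ?_ ?_ ?_ | refine p_st ?_ ?_ | refine p_ta ?_ ?_ | refine p_tb ?_ ?_ | refine p_kk ?_ ?_ ?_ | refine p_ty ?_ ?_ ?_ | refine p_lk ?_ ?_ ?_ | refine p_pt ?_ | refine p_DD ?_ | refine p_KK ?_ | refine p_al ?_ | refine p_la ?_ ?_ | refine p_lb ?_ ?_ ?_ ?_ ?_ | refine p_fst ?_ | refine p_snd ?_ | refine p_unpair ?_ | refine p_npair ?_ ?_ | refine p_getD _ ?_ ?_ | refine p_length ?_ | refine p_add ?_ ?_ | refine p_mul ?_ ?_)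

theorem s_In (d : Bool) : SD (fun x : ℕ × ℕ => R.In d x.1 x.2) := by
  have h : SD (fun x : (((ℕ × ℕ) × ℕ) × ℕ) => R.UR x.1.2 x.2) :=
    SD.comp R.s_UR (f := fun x : (((ℕ × ℕ) × ℕ) × ℕ) => (x.1.2, x.2)) (by (repeat' with_reducible first | assumption | exact p_id | exact p_const _ | refine p_ms ?_ | refine p_qq ?_ ?_ ?_ | refine p_st ?_ ?_ | refine p_ta ?_ ?_ | refine p_tb ?_ ?_ | refine p_kk ?_ ?_ ?_ | refine p_ty ?_ ?_ ?_ | refine p_lk ?_ ?_ ?_ | refine p_pt ?_ | refine p_DD ?_ | refine p_KK ?_ | refine p_al ?_ | refine p_la ?_ ?_ | refine p_lb ?_ ?_ ?_ ?_ ?_ | refine p_fst ?_ | refine p_snd ?_ | refine p_unpair ?_ | refine p_npair ?_ ?_ | refine p_getD _ ?_ ?_ | refine p_length ?_ | refine p_add ?_ ?_ | refine p_mul ?_ ?_ | refine p_sub ?_ ?_ | refine p_div ?_ ?_ | refine p_mod ?_ ?_ | refine p_pow ?_ ?_ | refine p_pair ?_ ?_))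
  unfold In ML
  (repeat' with_reducible first | assumption | exact p_id | exact p_const _ | refine s_DR ?_ ?_ ?_ ?_ ?_ | refine s_Conf ?_ ?_ ?_ | refine s_CR ?_ ?_ ?_ ?_ ?_ | refine s_Al ?_ ?_ ?_ | refine s_not_Al ?_ ?_ ?_ | refine s_At _ ?_ ?_ ?_ | refine s_ShL _ ?_ ?_ ?_ ?_ ?_ | refine s_Drp _ ?_ ?_ ?_ ?_ ?_ | refine s_Show _ ?_ ?_ ?_ ?_ ?_ | refine s_Loc ?_ ?_ ?_ | refine s_Lev ?_ ?_ ?_ | refine s_Fra ?_ ?_ ?_ | refine s_Frb ?_ ?_ ?_ | refine s_PP _ ?_ ?_ ?_ | refine s_QQ _ ?_ ?_ ?_ | refine s_Ph _ ?_ ?_ | refine s_M _ ?_ | refine s_and ?_ ?_ | refine s_or ?_ ?_ | refine s_eq ?_ ?_ | refine s_ne ?_ ?_ | refine s_not_eq ?_ ?_ | refine s_lt ?_ ?_ | refine s_le ?_ ?_ | refine s_not_lt ?_ ?_ | refine s_not_le ?_ ?_ | refine s_not_and ?_ ?_ | refine s_not_or ?_ ?_ | refine s_not_not ?_ | refine s_ball ?_ ?_ | refine s_ball_le ?_ ?_ | refine s_mem ?_ ?_ | refine s_ex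 ?_ | refine s_imp ?_ ?_ | refine p_ms ?_ | refine p_qq ?_ ?_ ?_ | refine p_st ?_ ?_ | refine p_ta ?_ ?_ | refine p_tb ?_ ?_ | refine p_kk ?_ ?_ ?_ | refine p_ty ?_ ?_ ?_ | refine p_lk ?_ ?_ ?_ | refine p_pt ?_ | refine p_DD ?_ | refine p_KK ?_ | refine p_al ?_ | refine p_la ?_ ?_ | refine p_lb ?_ ?_ ?_ ?_ ?_ | refine p_fst ?_ | refine p_snd ?_ | refine p_unpair ?_ | refine p_npair ?_ ?_ | refine p_getD _ ?_ ?_ | refine p_length ?_ | refine p_add ?_ ?_)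

theorem s_Out (d : Bool) : SD (fun x : ℕ × ℕ => R.Out d x.1 x.2) := by
  unfold Out ML
  (repeat' with_reducible first | assumption | exact p_id | exact p_const _ | refine s_DR ?_ ?_ ?_ ?_ ?_ | refine s_Conf ?_ ?_ ?_ | refine s_CR ?_ ?_ ?_ ?_ ?_ | refine s_Al ?_ ?_ ?_ | refine s_not_Al ?_ ?_ ?_ | refine s_At _ ?_ ?_ ?_ | refine s_ShL _ ?_ ?_ ?_ ?_ ?_ | refine s_Drp _ ?_ ?_ ?_ ?_ ?_ | refine s_Show _ ?_ ?_ ?_ ?_ ?_ | refine s_Loc ?_ ?_ ?_ | refine s_Lev ?_ ?_ ?_ | refine s_Fra ?_ ?_ ?_ | refine s_Frb ?_ ?_ ?_ | refine s_PP _ ?_ ?_ ?_ | refine s_QQ _ ?_ ?_ ?_ | refine s_Ph _ ?_ ?_ | refine s_M _ ?_ | refine s_and ?_ ?_ | refine s_or ?_ ?_ | refine s_eq ?_ ?_ | refine s_ne ?_ ?_ | refine s_not_eq ?_ ?_ | refine s_lt ?_ ?_ | refine s_le ?_ ?_ | refine s_not_lt ?_ ?_ | refine s_not_le ?_ ?_ | refine s_not_and ?_ ?_ | refine s_not_or ?_ ?_ | refine s_not_not ?_ | refine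 s_ball ?_ ?_ | refine s_ball_le ?_ ?_ | refine s_mem ?_ ?_ | refine s_ex ?_ | refine s_imp ?_ ?_ | refine p_ms ?_ | refine p_qq ?_ ?_ ?_ | refine p_st ?_ ?_ | refine p_ta ?_ ?_ | refine p_tb ?_ ?_ | refine p_kk ?_ ?_ ?_ | refine p_ty ?_ ?_ ?_ | refine p_lk ?_ ?_ ?_ | refine p_pt ?_ | refine p_DD ?_ | refine p_KK ?_ | refine p_al ?_ | refine p_la ?_ ?_ | refine p_lb ?_ ?_ ?_ ?_ ?_ | refine p_fst ?_ | refine p_snd ?_ | refine p_unpair ?_ | refine p_npair ?_ ?_ | refine p_getD _ ?_ ?_ | refine p_length ?_ | refine p_add ?_ ?_)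

theorem conf_lt_s {b e t s : ℕ} (hs : s ≤ R.n b) (he : e < b + 1)
    (h : Conf (R.V b s) e t) : t < s := by
  have hT := (R.gi b hs).ti e he
  rcases h with ⟨h | h, rfl⟩ | ⟨h, rfl | rfl⟩
  · exact (hT.h1 (by omega)).a1
  · exact (hT.h1 (by omega)).a1
  · exact (hT.h1 (by omega)).a1
  · exact (hT.h3 (by omega)).c2

theorem ML_iff {d : Bool} {b i s m : ℕ} (hs : s ≤ R.n b) :
    R.ML d b i s (R.V b s) m ↔ ∃ e t w' c, m = lb b e t w' c ∧ e < b + 1 ∧ c ≤ KK b ∧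
      ((t = s ∧ w' = cs b (R.V b s) d i) ∨
        (c = s ∧ Conf (R.V b s) e t ∧ Disj b (R.V b t) w' (R.V b s) (cs b (R.V b s) d i))) := by
  have hI := (R.gi b hs).inj
  constructor
  · rintro ⟨e, t, w', c, hm, he, hc, h | h⟩
    · refine ⟨e, t, w', c, hm, he, hc, Or.inl ⟨h.1, ?_⟩⟩
      exact ((CR_iff hI).1 h.2).symm
    · obtain ⟨h1, h2, h3, vt, w, ⟨h4, rfl⟩, h5, h6⟩ := h
      rw [CR_iff hI] at h5
      subst h5
      rw [DR_iff (R.gi b h4).inj hI] at h6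
      exact ⟨e, t, w', c, hm, he, hc, Or.inr ⟨h1, h2, h6⟩⟩
  · rintro ⟨e, t, w', c, hm, he, hc, h | h⟩
    · exact ⟨e, t, w', c, hm, he, hc, Or.inl ⟨h.1, (CR_iff hI).2 h.2.symm⟩⟩
    · obtain ⟨h1, h2, h3⟩ := h
      have h4 := R.conf_lt_s hs he h2
      exact ⟨e, t, w', c, hm, he, hc, Or.inr ⟨h1, h2, h4, _, _, ⟨by omega, rfl⟩,
        (CR_iff hI).2 rfl, (DR_iff (R.gi b (by omega)).inj hI).2 h3⟩⟩

theorem ML_unique {d : Bool} {b i s s' m : ℕ} (hs : s ≤ R.n b) (hs' : s' ≤ R.n b)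
    (h : R.ML d b i s (R.V b s) m) (h' : R.ML d b i s' (R.V b s') m) : s = s' := by
  rw [R.ML_iff hs] at h
  rw [R.ML_iff hs'] at h'
  obtain ⟨e, t, w, c, rfl, he, hc, h⟩ := h
  obtain ⟨e', t', w', c', hm, he', hc', h'⟩ := h'
  obtain ⟨_, rfl, rfl, rfl, rfl⟩ := lb_inj hm
  rcases h with ⟨h1, h2⟩ | ⟨h1, h2, h3⟩ <;> rcases h' with ⟨h1', h2'⟩ | ⟨h1', h2', h3'⟩
  · omega
  · exfalso
    subst h1
    exact h3' d i ⟨h2.symm, rfl⟩
  · exfalso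
    subst h1'
    exact h3 d i ⟨h2'.symm, rfl⟩
  · omega

theorem mem_num_iff {d : Bool} {x m : ℕ} : m ∈ R.num d x ↔ R.In d x m ∧ ¬ R.Out d x m := by
  unfold num
  have hfin : (∃ e t w' c, m = lb x.unpair.1 e t w' c ∧ e < x.unpair.1 + 1 ∧
      c ≤ KK x.unpair.1 ∧ ((t = R.n x.unpair.1 ∧
          w' = cs x.unpair.1 (R.fv x.unpair.1) d x.unpair.2) ∨
        (c = R.n x.unpair.1 ∧ Conf (R.fv x.unpair.1) e t ∧
          Disj x.unpair.1 (R.V x.unpair.1 t) w' (R.fv x.unpair.1)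
            (cs x.unpair.1 (R.fv x.unpair.1) d x.unpair.2)))) ↔
      R.ML d x.unpair.1 x.unpair.2 (R.n x.unpair.1)
        (R.V x.unpair.1 (R.n x.unpair.1)) m := (R.ML_iff le_rfl).symm
  have hout : ∀ {y : ℕ} , (∀ e t w' c, m ≠ lb x.unpair.1 e t w' c) → ¬ R.Out d x m := by
    rintro _ hm ⟨s, v, v', _, _, e, t, w', c, h, _⟩
    exact hm e t w' c h
  constructor
  · rintro (h | ⟨b', e, h, h'⟩ | h)
    · refine ⟨Or.inl h, ?_⟩
      exact hout (y := 0) (fun e t w' c h2 => al_ne_lb (h.symm.trans h2))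
    · refine ⟨?_, hout (y := 0) (fun e t w' c h2 => la_ne_lb (h.symm.trans h2))⟩
      rcases h' with ⟨rfl, h2⟩ | h2
      · exact Or.inr (Or.inl ⟨e, h, h2⟩)
      · exact Or.inr (Or.inr (Or.inl ⟨b', e, h, R.UR_iff.2 h2⟩))
    · rw [hfin] at h
      refine ⟨Or.inr (Or.inr (Or.inr ⟨_, _, ⟨le_rfl, rfl⟩, h⟩)), ?_⟩
      rintro ⟨s, v, v', ⟨hs, rfl⟩, ⟨hs', _⟩, h'⟩
      have := R.ML_unique le_rfl hs h h'
      omega
  · rintro ⟨h, hO⟩
    rcases h with h | ⟨e, h, h'⟩ | ⟨b', e, h, h'⟩ | ⟨s, v, ⟨hs, rfl⟩, h⟩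
    · exact Or.inl h
    · exact Or.inr (Or.inl ⟨_, e, h, Or.inl ⟨rfl, h'⟩⟩)
    · exact Or.inr (Or.inl ⟨b', e, h, Or.inr (R.UR_iff.1 h')⟩)
    · have hsn : s = R.n x.unpair.1 := by
        by_contra hne
        exact hO ⟨s, _, _, ⟨hs, rfl⟩, ⟨by omega, rfl⟩, h⟩
      subst hsn
      exact Or.inr (Or.inr (hfin.2 h))

/-- both numberings are computable at level two -/
theorem num_C2 (d : Bool) : {k : ℕ | k.unpair.2 ∈ R.num d k.unpair.1} ∈ C2 := by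
  refine C2_intro (P := fun k => R.In d k.unpair.1 k.unpair.2)
    (Q := fun k => R.Out d k.unpair.1 k.unpair.2) ?_ ?_ ?_
  · exact SD.comp (R.s_In d) (f := fun k : ℕ => (k.unpair.1, k.unpair.2)) (by (repeat' with_reducible first | assumption | exact p_id | exact p_const _ | refine p_ms ?_ | refine p_qq ?_ ?_ ?_ | refine p_st ?_ ?_ | refine p_ta ?_ ?_ | refine p_tb ?_ ?_ | refine p_kk ?_ ?_ ?_ | refine p_ty ?_ ?_ ?_ | refine p_lk ?_ ?_ ?_ | refine p_pt ?_ | refine p_DD ?_ | refine p_KK ?_ | refine p_al ?_ | refine p_la ?_ ?_ | refine p_lb ?_ ?_ ?_ ?_ ?_ | refine p_fst ?_ | refine p_snd ?_ | refine p_unpair ?_))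
  · exact SD.comp (R.s_Out d) (f := fun k : ℕ => (k.unpair.1, k.unpair.2)) (by (repeat' with_reducible first | assumption | exact p_id | exact p_const _ | refine p_ms ?_ | refine p_qq ?_ ?_ ?_ | refine p_st ?_ ?_ | refine p_ta ?_ ?_ | refine p_tb ?_ ?_ | refine p_kk ?_ ?_ ?_ | refine p_ty ?_ ?_ ?_ | refine p_lk ?_ ?_ ?_ | refine p_pt ?_ | refine p_DD ?_ | refine p_KK ?_ | refine p_al ?_ | refine p_la ?_ ?_ | refine p_lb ?_ ?_ ?_ ?_ ?_ | refine p_fst ?_ | refine p_snd ?_ | refine p_unpair ?_))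
  · intro k
    exact R.mem_num_iff

theorem num_mem_C2 (d : Bool) (x : ℕ) : R.num d x ∈ C2 := by
  refine C2_intro (P := fun m => R.In d x m) (Q := fun m => R.Out d x m) ?_ ?_ ?_
  · exact SD.comp (R.s_In d) (f := fun m : ℕ => (x, m)) (by (repeat' with_reducible first | assumption | exact p_id | exact p_const _ | refine p_ms ?_ | refine p_qq ?_ ?_ ?_ | refine p_st ?_ ?_ | refine p_ta ?_ ?_ | refine p_tb ?_ ?_ | refine p_kk ?_ ?_ ?_ | refine p_ty ?_ ?_ ?_ | refine p_lk ?_ ?_ ?_ | refine p_pt ?_ | refine p_DD ?_ | refine p_KK ?_ | refine p_al ?_ | refine p_la ?_ ?_ | refine p_lb ?_ ?_ ?_ ?_ ?_ | refine p_fst ?_ | refine p_snd ?_ | refine p_unpair ?_ | refine p_npair ?_ ?_ | refine p_getD _ ?_ ?_ | refine p_length ?_ | refine p_add ?_ ?_ | refine p_mul ?_ ?_ | refine p_sub ?_ ?_ | refine p_div ?_ ?_ | refine p_mod ?_ ?_ | refine p_pow ?_ ?_ | refine p_pair ?_ ?_))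
  · exact SD.comp (R.s_Out d) (f := fun m : ℕ => (x, m)) (by (repeat' with_reducible first | assumption | exact p_id | exact p_const _ | refine p_ms ?_ | refine p_qq ?_ ?_ ?_ | refine p_st ?_ ?_ | refine p_ta ?_ ?_ | refine p_tb ?_ ?_ | refine p_kk ?_ ?_ ?_ | refine p_ty ?_ ?_ ?_ | refine p_lk ?_ ?_ ?_ | refine p_pt ?_ | refine p_DD ?_ | refine p_KK ?_ | refine p_al ?_ | refine p_la ?_ ?_ | refine p_lb ?_ ?_ ?_ ?_ ?_ | refine p_fst ?_ | refine p_snd ?_ | refine p_unpair ?_ | refine p_npair ?_ ?_ | refine p_getD _ ?_ ?_ | refine p_length ?_ | refine p_add ?_ ?_ | refine p_mul ?_ ?_ | refine p_sub ?_ ?_ | refine p_div ?_ ?_ | refine p_mod ?_ ?_ | refine p_pow ?_ ?_ | refine p_pair ?_ ?_))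
  · intro k
    exact R.mem_num_iff

theorem range_C2 (d : Bool) : Set.range (R.num d) ⊆ C2 := by
  rintro _ ⟨x, rfl⟩
  exact R.num_mem_C2 d x

/-! ### Positivity and minimality -/

def Dead (b i : ℕ) : Prop := ∃ (s : ℕ) (v : List ℕ), R.At b s v ∧ ¬ Al b v i

theorem Dead_iff {b i : ℕ} : R.Dead b i ↔ ¬ Al b (R.fv b) i := by
  constructor
  · rintro ⟨s, v, ⟨hs, rfl⟩, h⟩ h'
    exact h ((R.gf b).mon s hs i h')
  · intro h
    exact ⟨_, _, ⟨le_rfl, rfl⟩, h⟩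

theorem s_Dead : SD (fun x : ℕ × ℕ => R.Dead x.1 x.2) := by
  unfold Dead
  (repeat' with_reducible first | assumption | exact p_id | exact p_const _ | refine s_DR ?_ ?_ ?_ ?_ ?_ | refine s_Conf ?_ ?_ ?_ | refine s_CR ?_ ?_ ?_ ?_ ?_ | refine s_Al ?_ ?_ ?_ | refine s_not_Al ?_ ?_ ?_ | refine s_At _ ?_ ?_ ?_ | refine s_ShL _ ?_ ?_ ?_ ?_ ?_ | refine s_Drp _ ?_ ?_ ?_ ?_ ?_ | refine s_Show _ ?_ ?_ ?_ ?_ ?_ | refine s_Loc ?_ ?_ ?_ | refine s_Lev ?_ ?_ ?_ | refine s_Fra ?_ ?_ ?_ | refine s_Frb ?_ ?_ ?_ | refine s_PP _ ?_ ?_ ?_ | refine s_QQ _ ?_ ?_ ?_ | refine s_Ph _ ?_ ?_ | refine s_M _ ?_ | refine s_and ?_ ?_ | refine s_or ?_ ?_ | refine s_eq ?_ ?_ | refine s_ne ?_ ?_ | refine s_not_eq ?_ ?_ | refine s_lt ?_ ?_ | refine s_le ?_ ?_ | refine s_not_lt ?_ ?_ | refine s_not_le ?_ ?_ | refine s_not_and ?_ ?_ | refine s_not_or ?_ ?_ | refine s_not_not ?_ | refine s_ball ?_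 ?_ | refine s_ball_le ?_ ?_ | refine s_mem ?_ ?_ | refine s_ex ?_ | refine s_imp ?_ ?_ | refine p_ms ?_ | refine p_qq ?_ ?_ ?_ | refine p_st ?_ ?_ | refine p_ta ?_ ?_ | refine p_tb ?_ ?_ | refine p_kk ?_ ?_ ?_ | refine p_ty ?_ ?_ ?_ | refine p_lk ?_ ?_ ?_ | refine p_pt ?_ | refine p_DD ?_ | refine p_KK ?_ | refine p_al ?_ | refine p_la ?_ ?_ | refine p_lb ?_ ?_ ?_ ?_ ?_ | refine p_fst ?_ | refine p_snd ?_)

theorem num_eq_iff {d : Bool} {x y : ℕ} : R.num d x = R.num d y ↔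
    x = y ∨ (x.unpair.1 = y.unpair.1 ∧ R.Dead x.unpair.1 x.unpair.2 ∧
      R.Dead y.unpair.1 y.unpair.2) := by
  constructor
  · intro h
    unfold num at h
    obtain ⟨h1, h2⟩ := R.SetOf_inj h
    by_cases hx : Al x.unpair.1 (R.fv x.unpair.1) x.unpair.2
    · left
      have hxy : x.unpair.2 = y.unpair.2 := by
        rw [← h1] at h2
        cases d
        · rw [cs_false, cs_false, cm_alive hx] at h2
          unfold cm at h2
          split_ifs at h2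
          omega
        · exact cn_inj (R.gf _).inj hx h2
      rw [← Nat.pair_unpair x, ← Nat.pair_unpair y, h1, hxy]
    · right
      refine ⟨h1, R.Dead_iff.2 hx, R.Dead_iff.2 ?_⟩
      intro hy
      rw [cs_dead d hx] at h2
      exact cs_ne_zero d hy h2.symm
  · rintro (rfl | ⟨h1, h2, h3⟩)
    · rfl
    · unfold num
      rw [cs_dead d (R.Dead_iff.1 h2), cs_dead d (R.Dead_iff.1 h3), h1]

theorem num_minimal (d : Bool) {β : ℕ → Set ℕ} (hβ : Set.range β = Set.range (R.num d))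
    {f : ℕ → ℕ} (hf : Computable f) (h : β = R.num d ∘ f) :
    ∃ g : ℕ → ℕ, Computable g ∧ R.num d = β ∘ g := by
  have h0 : SD (fun x : ℕ × ℕ => R.num d x.1 = R.num d x.2) := by
    have h1 : SD (fun x : ℕ × ℕ => R.Dead x.1.unpair.1 x.1.unpair.2) :=
      SD.comp R.s_Dead (f := fun x : ℕ × ℕ => (x.1.unpair.1, x.1.unpair.2)) (by (repeat' with_reducible first | assumption | exact p_id | exact p_const _ | refine p_ms ?_ | refine p_qq ?_ ?_ ?_ | refine p_st ?_ ?_ | refine p_ta ?_ ?_ | refine p_tb ?_ ?_ | refine p_kk ?_ ?_ ?_ | refine p_ty ?_ ?_ ?_ | refine p_lk ?_ ?_ ?_ | refine p_pt ?_ | refine p_DD ?_ | refine p_KK ?_ | refine p_al ?_ | refine p_la ?_ ?_ | refine p_lb ?_ ?_ ?_ ?_ ?_ | refine p_fst ?_ | refine p_snd ?_ | refine p_unpair ?_))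
    have h2 : SD (fun x : ℕ × ℕ => R.Dead x.2.unpair.1 x.2.unpair.2) :=
      SD.comp R.s_Dead (f := fun x : ℕ × ℕ => (x.2.unpair.1, x.2.unpair.2)) (by (repeat' with_reducible first | assumption | exact p_id | exact p_const _ | refine p_ms ?_ | refine p_qq ?_ ?_ ?_ | refine p_st ?_ ?_ | refine p_ta ?_ ?_ | refine p_tb ?_ ?_ | refine p_kk ?_ ?_ ?_ | refine p_ty ?_ ?_ ?_ | refine p_lk ?_ ?_ ?_ | refine p_pt ?_ | refine p_DD ?_ | refine p_KK ?_ | refine p_al ?_ | refine p_la ?_ ?_ | refine p_lb ?_ ?_ ?_ ?_ ?_ | refine p_fst ?_ | refine p_snd ?_ | refine p_unpair ?_))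
    refine SD.of_eq (p := fun x : ℕ × ℕ => x.1 = x.2 ∨ (x.1.unpair.1 = x.2.unpair.1 ∧
      R.Dead x.1.unpair.1 x.1.unpair.2 ∧ R.Dead x.2.unpair.1 x.2.unpair.2)) ?_ ?_
    · (repeat' with_reducible first | assumption | exact p_id | exact p_const _ | refine s_DR ?_ ?_ ?_ ?_ ?_ | refine s_Conf ?_ ?_ ?_ | refine s_CR ?_ ?_ ?_ ?_ ?_ | refine s_Al ?_ ?_ ?_ | refine s_not_Al ?_ ?_ ?_ | refine s_At _ ?_ ?_ ?_ | refine s_ShL _ ?_ ?_ ?_ ?_ ?_ | refine s_Drp _ ?_ ?_ ?_ ?_ ?_ | refine s_Show _ ?_ ?_ ?_ ?_ ?_ | refine s_Loc ?_ ?_ ?_ | refine s_Lev ?_ ?_ ?_ | refine s_Fra ?_ ?_ ?_ | refine s_Frb ?_ ?_ ?_ | refine s_PP _ ?_ ?_ ?_ | refine s_QQ _ ?_ ?_ ?_ | refine s_Ph _ ?_ ?_ | refine s_M _ ?_ | refine s_and ?_ ?_ | refine s_or ?_ ?_ | refine s_eq ?_ ?_ | refine s_ne ?_ ?_ | refine s_not_eq ?_ ?_ | refine s_lt ?_ ?_ | refine s_le ?_ ?_ | refine s_not_lt ?_ ?_ | refine s_not_le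 ?_ ?_ | refine s_not_and ?_ ?_ | refine s_not_or ?_ ?_ | refine s_not_not ?_ | refine s_ball ?_ ?_ | refine s_ball_le ?_ ?_ | refine s_mem ?_ ?_ | refine s_ex ?_ | refine s_imp ?_ ?_ | refine p_ms ?_ | refine p_qq ?_ ?_ ?_ | refine p_st ?_ ?_ | refine p_ta ?_ ?_ | refine p_tb ?_ ?_ | refine p_kk ?_ ?_ ?_ | refine p_ty ?_ ?_ ?_ | refine p_lk ?_ ?_ ?_ | refine p_pt ?_ | refine p_DD ?_ | refine p_KK ?_ | refine p_al ?_ | refine p_la ?_ ?_ | refine p_lb ?_ ?_ ?_ ?_ ?_ | refine p_fst ?_ | refine p_snd ?_ | refine p_unpair ?_)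
    · intro x
      exact R.num_eq_iff.symm
  have h1 : SD (fun x : ℕ × ℕ => R.num d x.1 = R.num d (f x.2)) :=
    SD.compC h0 (f := fun x : ℕ × ℕ => (x.1, f x.2))
      (Computable.pair Computable.fst (hf.comp Computable.snd))
  obtain ⟨g, hg, hR⟩ := exists_sel_total (R := fun x k => R.num d x = R.num d (f k)) h1 (by
    intro x
    have h2 : R.num d x ∈ Set.range β := by rw [hβ]; exact ⟨x, rfl⟩
    obtain ⟨k, hk⟩ := h2
    refine ⟨k, ?_⟩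
    rw [← hk, h]
    rfl)
  refine ⟨g, hg, ?_⟩
  funext x
  rw [h]
  exact hR x

/-! ### Limit equivalence -/

def YR (b i x : ℕ) (v : List ℕ) (y : ℕ) : Prop :=
  (Al b v i ∧ ∃ w, CR b v true i w ∧ y = Nat.pair b (w - 1)) ∨ (¬ Al b v i ∧ y = x)

open Classical in
/-- the translation between the two numberings at a stage -/
noncomputable def YY (x s : ℕ) : ℕ :=
  if Al x.unpair.1 (R.V x.unpair.1 s) x.unpair.2 then
    Nat.pair x.unpair.1 (cn x.unpair.1 (R.V x.unpair.1 s) x.unpair.2 - 1) else x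

theorem YY_iff {x s y : ℕ} (hs : s ≤ R.n x.unpair.1) :
    y = R.YY x s ↔ YR x.unpair.1 x.unpair.2 x (R.V x.unpair.1 s) y := by
  have hI := (R.gi x.unpair.1 hs).inj
  unfold YY YR
  by_cases h : Al x.unpair.1 (R.V x.unpair.1 s) x.unpair.2
  · rw [if_pos h]
    constructor
    · rintro rfl
      exact Or.inl ⟨h, _, (CR_iff hI).2 rfl, rfl⟩
    · rintro (⟨_, w, hw, rfl⟩ | ⟨h', _⟩)
      · rw [CR_iff hI, cs_true] at hw
        rw [hw]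
      · exact absurd h h'
  · rw [if_neg h]
    constructor
    · rintro rfl
      exact Or.inr ⟨h, rfl⟩
    · rintro (⟨h', _⟩ | ⟨_, h'⟩)
      · exact absurd h' h
      · exact h'

theorem YY_lim : ∃ g : ℕ → ℕ → ℕ, Computable₂ g ∧
    ∀ x, ∃ s₀, ∀ s, s₀ ≤ s → g x s = R.YY x (R.n x.unpair.1) := by
  refine lim_last (Y := R.YY) (N := fun x => R.n x.unpair.1) ?_
  refine SD.of_eq (p := fun x : ℕ × ℕ × ℕ => ∃ v : List ℕ, R.At x.1.unpair.1 x.2.1 v ∧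
    YR x.1.unpair.1 x.1.unpair.2 x.1 v x.2.2) ?_ ?_
  · unfold YR
    (repeat' with_reducible first | assumption | exact p_id | exact p_const _ | refine s_DR ?_ ?_ ?_ ?_ ?_ | refine s_Conf ?_ ?_ ?_ | refine s_CR ?_ ?_ ?_ ?_ ?_ | refine s_Al ?_ ?_ ?_ | refine s_not_Al ?_ ?_ ?_ | refine s_At _ ?_ ?_ ?_ | refine s_ShL _ ?_ ?_ ?_ ?_ ?_ | refine s_Drp _ ?_ ?_ ?_ ?_ ?_ | refine s_Show _ ?_ ?_ ?_ ?_ ?_ | refine s_Loc ?_ ?_ ?_ | refine s_Lev ?_ ?_ ?_ | refine s_Fra ?_ ?_ ?_ | refine s_Frb ?_ ?_ ?_ | refine s_PP _ ?_ ?_ ?_ | refine s_QQ _ ?_ ?_ ?_ | refine s_Ph _ ?_ ?_ | refine s_M _ ?_ | refine s_and ?_ ?_ | refine s_or ?_ ?_ | refine s_eq ?_ ?_ | refine s_ne ?_ ?_ | refine s_not_eq ?_ ?_ | refine s_lt ?_ ?_ | refine s_le ?_ ?_ | refine s_not_lt ?_ ?_ | refine s_not_le ?_ ?_ | refine s_not_and ?_ ?_ | refine s_not_or ?_ ?_ | refine s_not_not ?_ | refine s_ball ?_ ?_ | refine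 s_ball_le ?_ ?_ | refine s_mem ?_ ?_ | refine s_ex ?_ | refine s_imp ?_ ?_ | refine p_ms ?_ | refine p_qq ?_ ?_ ?_ | refine p_st ?_ ?_ | refine p_ta ?_ ?_ | refine p_tb ?_ ?_ | refine p_kk ?_ ?_ ?_ | refine p_ty ?_ ?_ ?_ | refine p_lk ?_ ?_ ?_ | refine p_pt ?_ | refine p_DD ?_ | refine p_KK ?_ | refine p_al ?_ | refine p_la ?_ ?_ | refine p_lb ?_ ?_ ?_ ?_ ?_ | refine p_fst ?_ | refine p_snd ?_ | refine p_unpair ?_ | refine p_npair ?_ ?_ | refine p_getD _ ?_ ?_ | refine p_length ?_ | refine p_add ?_ ?_ | refine p_mul ?_ ?_ | refine p_sub ?_ ?_)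
  · intro x
    constructor
    · rintro ⟨v, ⟨hs, rfl⟩, h⟩
      exact ⟨hs, (R.YY_iff hs).2 h⟩
    · rintro ⟨hs, h⟩
      exact ⟨_, ⟨hs, rfl⟩, (R.YY_iff hs).1 h⟩

theorem YY_alive {x : ℕ} (h : Al x.unpair.1 (R.fv x.unpair.1) x.unpair.2) :
    R.YY x (R.n x.unpair.1) =
      Nat.pair x.unpair.1 (cn x.unpair.1 (R.fv x.unpair.1) x.unpair.2 - 1) := if_pos h

theorem YY_dead {x : ℕ} (h : ¬ Al x.unpair.1 (R.fv x.unpair.1) x.unpair.2) :
    R.YY x (R.n x.unpair.1) = x := if_neg h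

theorem num_YY (d : Bool) (x : ℕ) : R.num d (R.YY x (R.n x.unpair.1)) = R.num (!d) x := by
  have hI := (R.gf x.unpair.1).inj
  change Inj x.unpair.1 (R.fv x.unpair.1) at hI
  by_cases h : Al x.unpair.1 (R.fv x.unpair.1) x.unpair.2
  · rw [R.YY_alive h]
    obtain ⟨j, hj, h1, h2⟩ := cn_invol hI h
    rw [h1, R.num_pair]
    simp only [Nat.add_sub_cancel]
    unfold num
    congr 1
    cases d
    · rw [cs_false, cm_alive hj]
      exact h1.symm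
    · rw [cs_true, h2]
      exact (cm_alive h).symm
  · rw [R.YY_dead h]
    unfold num
    rw [cs_dead d h, cs_dead (!d) h]

/-! ### Diagonalisation -/

theorem not_red (j : ℕ) (hj : ∀ N, ∃ b, N ≤ b ∧ ¬ A.M b) {f : ℕ → ℕ}
    (hf : ∀ x, A.Ph j x ↔ f x = x) (h : R.num true = R.num false ∘ f) : False := by
  obtain ⟨b, hb, hM⟩ := hj j
  have hms := R.alive_pos hM
  have hu1 : b + 1 ≤ b + 1 + j := by omega
  have hu2 : b + 1 + j < 2 * (b + 1) := by omega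
  have hI := (R.gf b).inj
  change Inj b (R.fv b) at hI
  have hal : Al b (R.fv b) (qq (R.fv b) (b + 1 + j) 0) := Al_qq hu2 (by omega)
  have hx := congrFun h (Nat.pair b (qq (R.fv b) (b + 1 + j) 0))
  rw [R.num_pair, cs_true] at hx
  change _ = R.num false (f _) at hx
  rcases (R.gf b).stR (b + 1 + j) hu1 hu2 with h0 | h0
  · have hns : ¬ Sw (R.fv b) (b + 1 + j) := by
      change st (R.fv b) (b + 1 + j) = 0 at h0
      rintro (h | h) <;> omega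
    rw [cn_nsw hI hu2 (by omega) hns] at hx
    unfold num at hx
    obtain ⟨h1, h2⟩ := R.SetOf_inj hx
    rw [cs_false] at h2
    unfold cm at h2
    split_ifs at h2 with h3
    have h4 : f (Nat.pair b (qq (R.fv b) (b + 1 + j) 0)) =
        Nat.pair b (qq (R.fv b) (b + 1 + j) 0) := by
      rw [← Nat.pair_unpair (f (Nat.pair b (qq (R.fv b) (b + 1 + j) 0))), ← h1]
      congr 1
      omega
    obtain ⟨v', h5, h6, h7, h8, h9, h10, h11, h12⟩ := exists_loc (R.fv b) (b + 1 + j) 2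
      (ta (R.fv b) (b + 1 + j)) (tb (R.fv b) (b + 1 + j)) (kk (R.fv b) (b + 1 + j))
      (ty (R.fv b) (b + 1 + j)) 0
    refine R.hF b v' (Or.inr (Or.inr (Or.inr (Or.inr (Or.inl
      ⟨b + 1 + j, hu1, hu2, h0, h6, h5, ?_, ?_, hms, ?_⟩)))))
    · intro e _
      by_cases he : e = b + 1 + j
      · subst he
        refine ⟨h9, fun w => ?_⟩
        rw [h11]
        split_ifs <;> rfl
      · exact h7 e he
    · intro e _
      by_cases he : e = b + 1 + j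
      · subst he
        refine ⟨h10, fun w => ?_⟩
        rw [h12]
        split_ifs <;> rfl
      · exact h8 e he
    · rw [Nat.add_sub_cancel_left]
      exact (hf _).2 h4
  · have hsw : Sw (R.fv b) (b + 1 + j) := Or.inl h0
    obtain ⟨_, h1⟩ := (R.gf b).dR (b + 1 + j) hu1 hu2 h0
    rw [Nat.add_sub_cancel_left, hf] at h1
    change f (Nat.pair b (qq (R.fv b) (b + 1 + j) 0)) = _ at h1
    rw [h1] at hx
    change _ = R.num false (Nat.pair b (qq (R.fv b) (b + 1 + j) 0)) at hx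
    rw [cn_sw hI hu2 (by omega) hsw, R.num_pair, cs_false, cm_alive hal] at hx
    have h2 := (R.SetOf_inj hx).2
    have h3 : qq (R.fv b) (b + 1 + j) (pt 0) = qq (R.fv b) (b + 1 + j) 0 := by omega
    have h4 := (hI _ hu2 _ (pt_lt (by omega)) _ hu2 _ (by omega) h3).2
    exact pt_ne 0 h4

end Run

end Pool.Agent.H36.MinNum
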