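import Pool.Agent.H36.MinNum.Cls

/-!
Invariants of the block machine.
-/

namespace Pool.Agent.H36.MinNum

open Pool.Agent.H36.LFI

variable (A : Par)

/-- the indices for which the tester `e` is relevant -/
def Dm (b : ℕ) (v : List ℕ) (e i : ℕ) : Prop :=
  (st v e = 4 ∧ Al b v i) ∨ (st v e ≠ 4 ∧ ∃ y, y < 2 * ms v ∧ qq v e y = i)

structure T1 (b : ℕ) (V : ℕ → List ℕ) (t e : ℕ) : Prop where
  a1 : ta (V t) e < t
  a2 : st (V (ta (V t) e)) e = 0
  a3 : st (V (ta (V t) e + 1)) e = 1
  a3' : ∀ w, kk (V (ta (V t) e + 1)) e w = kk (V t) e w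
  a4 : st (V t) e ≠ 4 → ms (V (ta (V t) e)) = ms (V t) ∧
    ∀ u y, qq (V (ta (V t) e)) u y = qq (V t) u y
  a5 : ∀ i, Dm b (V t) e i → ∃ y, y < 2 * ms (V (ta (V t) e)) ∧ qq (V (ta (V t) e)) e y = i
  a6 : ∀ w, Cl b (V (ta (V t) e)) w → Show A b e (kk (V t) e w) (ta (V t) e) w

structure T3 (b : ℕ) (V : ℕ → List ℕ) (t e : ℕ) : Prop where
  c1 : ta (V t) e < tb (V t) e
  c2 : tb (V t) e < t
  c3 : st (V (tb (V t) e)) e = 2
  c4 : st (V t) e ≠ 4 → ms (V (tb (V t) e)) = ms (V t) ∧
    ∀ u y, qq (V (tb (V t) e)) u y = qq (V t) u y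
  c5 : ∀ i, Dm b (V t) e i → ∃ y, y < 2 * ms (V (tb (V t) e)) ∧ qq (V (tb (V t) e)) e y = i ∧
    ((ty (V t) e i = 0 ∧ ShL A b e (kk (V t) e (i + 1)) (tb (V t) e) (i + 1)) ∨
     (ty (V t) e i = 1 ∧ ShL A b e (kk (V t) e (i + 1)) (tb (V t) e)
        (qq (V (tb (V t) e)) e (pt y) + 1)))

structure T4 (b : ℕ) (V : ℕ → List ℕ) (t e : ℕ) : Prop where
  d1 : ∀ i, Al b (V t) i → ∃ y, y < 2 * ms (V (tb (V t) e)) ∧ qq (V (tb (V t) e)) e y = i ∧
    ((ty (V t) e i = 0 ∧ Drp A b e (kk (V t) e (i + 1)) (tb (V t) e) (i + 1)) ∨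
     (ty (V t) e i = 1 ∧ Drp A b e (kk (V t) e (i + 1)) (tb (V t) e)
        (qq (V (tb (V t) e)) e (pt y) + 1)))
  d2 : ∃ T, ∀ i, Al b (V t) i → ty (V t) e i = T

structure TI (b : ℕ) (V : ℕ → List ℕ) (t e : ℕ) : Prop where
  h1 : 1 ≤ st (V t) e → T1 A b V t e
  h2 : 2 ≤ st (V t) e → ∀ w, Cl b (V (ta (V t) e)) w →
    Drp A b e (kk (V t) e w) (ta (V t) e) w
  h3 : 3 ≤ st (V t) e → T3 A b V t e
  h4 : st (V t) e = 4 → T4 A b V t e

variable {A}

theorem T1.transfer {b : ℕ} {V : ℕ → List ℕ} {t e : ℕ} (h : T1 A b V t e)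
    (hta : ta (V (t + 1)) e = ta (V t) e) (hkk : ∀ w, kk (V (t + 1)) e w = kk (V t) e w)
    (hD : ∀ i, Dm b (V (t + 1)) e i → Dm b (V t) e i)
    (hq : st (V (t + 1)) e ≠ 4 → st (V t) e ≠ 4 ∧ ms (V (t + 1)) = ms (V t) ∧
      ∀ u y, qq (V (t + 1)) u y = qq (V t) u y) : T1 A b V (t + 1) e where
  a1 := by rw [hta]; exact lt_trans h.a1 (Nat.lt_succ_self t)
  a2 := by rw [hta]; exact h.a2
  a3 := by rw [hta]; exact h.a3
  a3' := by
    intro w
    rw [hta, hkk]
    exact h.a3' w
  a4 := by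
    intro h4
    obtain ⟨h5, h6, h7⟩ := hq h4
    obtain ⟨h8, h9⟩ := h.a4 h5
    rw [hta]
    exact ⟨h8.trans h6.symm, fun u y => (h9 u y).trans (h7 u y).symm⟩
  a5 := by
    intro i hi
    rw [hta]
    exact h.a5 i (hD i hi)
  a6 := by
    intro w hw
    rw [hta] at hw ⊢
    rw [hkk]
    exact h.a6 w hw

theorem T3.transfer {b : ℕ} {V : ℕ → List ℕ} {t e : ℕ} (h : T3 A b V t e)
    (hta : ta (V (t + 1)) e = ta (V t) e) (hkk : ∀ w, kk (V (t + 1)) e w = kk (V t) e w)
    (htb : tb (V (t + 1)) e = tb (V t) e) (hty : ∀ w, ty (V (t + 1)) e w = ty (V t) e w)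
    (hD : ∀ i, Dm b (V (t + 1)) e i → Dm b (V t) e i)
    (hq : st (V (t + 1)) e ≠ 4 → st (V t) e ≠ 4 ∧ ms (V (t + 1)) = ms (V t) ∧
      ∀ u y, qq (V (t + 1)) u y = qq (V t) u y) : T3 A b V (t + 1) e where
  c1 := by rw [hta, htb]; exact h.c1
  c2 := by rw [htb]; exact lt_trans h.c2 (Nat.lt_succ_self t)
  c3 := by rw [htb]; exact h.c3
  c4 := by
    intro h4
    obtain ⟨h5, h6, h7⟩ := hq h4
    obtain ⟨h8, h9⟩ := h.c4 h5
    rw [htb]
    exact ⟨h8.trans h6.symm, fun u y => (h9 u y).trans (h7 u y).symm⟩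
  c5 := by
    intro i hi
    rw [htb, hkk, hty]
    exact h.c5 i (hD i hi)

theorem T4.transfer {b : ℕ} {V : ℕ → List ℕ} {t e : ℕ} (h : T4 A b V t e)
    (hkk : ∀ w, kk (V (t + 1)) e w = kk (V t) e w)
    (htb : tb (V (t + 1)) e = tb (V t) e) (hty : ∀ w, ty (V (t + 1)) e w = ty (V t) e w)
    (hD : ∀ i, Al b (V (t + 1)) i → Al b (V t) i) : T4 A b V (t + 1) e where
  d1 := by
    intro i hi
    rw [htb, hkk, hty]
    exact h.d1 i (hD i hi)
  d2 := by
    obtain ⟨T, hT⟩ := h.d2
    exact ⟨T, fun i hi => (hty i).trans (hT i (hD i hi))⟩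

theorem TI.transfer {b : ℕ} {V : ℕ → List ℕ} {t e : ℕ} (h : TI A b V t e)
    (hst : st (V (t + 1)) e = st (V t) e)
    (hta : ta (V (t + 1)) e = ta (V t) e) (hkk : ∀ w, kk (V (t + 1)) e w = kk (V t) e w)
    (htb : tb (V (t + 1)) e = tb (V t) e) (hty : ∀ w, ty (V (t + 1)) e w = ty (V t) e w)
    (hD : ∀ i, Al b (V (t + 1)) i → Al b (V t) i)
    (hq : st (V t) e ≠ 4 → ms (V (t + 1)) = ms (V t) ∧
      ∀ u y, qq (V (t + 1)) u y = qq (V t) u y) : TI A b V (t + 1) e := by
  have hD' : ∀ i, Dm b (V (t + 1)) e i → Dm b (V t) e i := by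
    rintro i (⟨h1, h2⟩ | ⟨h1, y, hy, hy'⟩)
    · exact Or.inl ⟨by rw [← hst]; exact h1, hD i h2⟩
    · rw [hst] at h1
      obtain ⟨h3, h4⟩ := hq h1
      exact Or.inr ⟨h1, y, by omega, by rw [← h4]; exact hy'⟩
  have hq' : st (V (t + 1)) e ≠ 4 → st (V t) e ≠ 4 ∧ ms (V (t + 1)) = ms (V t) ∧
      ∀ u y, qq (V (t + 1)) u y = qq (V t) u y := by
    intro h
    rw [hst] at h
    exact ⟨h, hq h⟩
  constructor
  · intro h'
    exact (h.h1 (by omega)).transfer hta hkk hD' hq'
  · intro h' w hw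
    rw [hta] at hw ⊢
    rw [hkk]
    exact h.h2 (by omega) w hw
  · intro h'
    exact (h.h3 (by omega)).transfer hta hkk htb hty hD' hq'
  · intro h'
    exact (h.h4 (by omega)).transfer hkk htb hty hD

theorem TI.of_zero {b : ℕ} {V : ℕ → List ℕ} {t e : ℕ} (h : st (V t) e = 0) :
    TI A b V t e := by
  constructor <;> intro h' <;> omega

/-- number of joined testers -/
noncomputable def JJ (b : ℕ) (v : List ℕ) : ℕ :=
  ((Finset.range (b + 1)).filter (fun e => st v e = 4)).card

variable (A)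

structure GI (b : ℕ) (V : ℕ → List ℕ) (t : ℕ) : Prop where
  inj : Inj b (V t)
  stle : ∀ u, u < 2 * (b + 1) → st (V t) u ≤ 4
  stR : ∀ u, b + 1 ≤ u → u < 2 * (b + 1) → st (V t) u = 0 ∨ st (V t) u = 2
  mon : ∀ s ≤ t, ∀ i, Al b (V t) i → Al b (V s) i
  msz : ms (V t) = 0 ∨ ms (V t) * DD b ^ JJ b (V t) = DD b ^ (b + 1)
  mM : ms (V t) = 0 → A.M b
  dR : ∀ u, b + 1 ≤ u → u < 2 * (b + 1) → st (V t) u = 2 → 0 < ms (V t) ∧
    A.Ph (u - (b + 1)) (Nat.pair b (qq (V t) u 0))
  ti : ∀ e, e < b + 1 → TI A b V t e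

variable {A}

theorem DD_pos (b : ℕ) : 0 < DD b := by unfold DD; omega

theorem Init.inj {b : ℕ} {v : List ℕ} (h : Init b v) : Inj b v := by
  obtain ⟨_, h2, _⟩ := h
  intro u hu y hy u' hu' y' hy' he
  rw [h2 u hu y hy, h2 u' hu' y' hy'] at he
  have h3 : (u * (2 * ms v) + y) / (2 * ms v) = u := by
    rw [mul_comm, Nat.mul_add_div (by omega), Nat.div_eq_of_lt hy, add_zero]
  have h4 : (u' * (2 * ms v) + y') / (2 * ms v) = u' := by
    rw [mul_comm, Nat.mul_add_div (by omega), Nat.div_eq_of_lt hy', add_zero]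
  have : u = u' := by rw [← h3, ← h4, he]
  subst this
  exact ⟨rfl, by omega⟩

theorem GI.init {b : ℕ} {V : ℕ → List ℕ} (h : Init b (V 0)) : GI A b V 0 where
  inj := h.inj
  stle := by intro u _; rw [h.2.2 u]; omega
  stR := by intro u _ _; exact Or.inl (h.2.2 u)
  mon := by
    intro s hs i hi
    rw [Nat.le_zero.1 hs]
    exact hi
  msz := by
    right
    have : JJ b (V 0) = 0 := by
      unfold JJ
      rw [Finset.card_eq_zero, Finset.filter_eq_empty_iff]
      intro e _
      rw [h.2.2 e]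
      omega
    rw [this, h.1, pow_zero, mul_one]
  mM := by
    intro h'
    rw [h.1] at h'
    have := pow_pos (DD_pos b) (b + 1)
    omega
  dR := by
    intro u _ _ h'
    rw [h.2.2 u] at h'
    omega
  ti := by
    intro e _
    exact TI.of_zero (h.2.2 e)

theorem JJ_congr {b : ℕ} {v v' : List ℕ} (h : ∀ e, e < b + 1 → (st v' e = 4 ↔ st v e = 4)) :
    JJ b v' = JJ b v := by
  unfold JJ
  congr 1
  apply Finset.filter_congr
  intro e he
  rw [Finset.mem_range] at he
  exact h e he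

theorem JJ_succ {b : ℕ} {v v' : List ℕ} {u : ℕ} (hu : u < b + 1) (h : st v u ≠ 4)
    (h' : st v' u = 4) (hL : ∀ e, e < b + 1 → e ≠ u → (st v' e = 4 ↔ st v e = 4)) :
    JJ b v' = JJ b v + 1 := by
  unfold JJ
  have : (Finset.range (b + 1)).filter (fun e => st v' e = 4) =
      insert u ((Finset.range (b + 1)).filter (fun e => st v e = 4)) := by
    ext e
    simp only [Finset.mem_filter, Finset.mem_range, Finset.mem_insert]
    constructor
    · rintro ⟨h1, h2⟩
      by_cases he : e = u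
      · exact Or.inl he
      · exact Or.inr ⟨h1, (hL e h1 he).1 h2⟩
    · rintro (rfl | ⟨h1, h2⟩)
      · exact ⟨hu, h'⟩
      · have he : e ≠ u := by
          rintro rfl
          exact h h2
        exact ⟨h1, (hL e h1 he).2 h2⟩
  rw [this, Finset.card_insert_of_notMem]
  simp [h]

/-- Preservation under a local event at unit `u` -/
theorem GI.loc {b : ℕ} {V : ℕ → List ℕ} {t u : ℕ} (h : GI A b V t)
    (hL : Loc u (V t) (V (t + 1))) (h4 : st (V t) u ≠ 4)
    (h4' : st (V (t + 1)) u < 4)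
    (hR : b + 1 ≤ u → u < 2 * (b + 1) → st (V (t + 1)) u = 2 → 0 < ms (V t) ∧
      A.Ph (u - (b + 1)) (Nat.pair b (qq (V t) u 0)))
    (hR' : b + 1 ≤ u → u < 2 * (b + 1) → st (V (t + 1)) u = 2)
    (hti : ∀ e, e < b + 1 → TI A b V (t + 1) e) : GI A b V (t + 1) where
  inj := Inj_congr hL.1 hL.2.1 h.inj
  stle := by
    intro w hw
    by_cases he : w = u
    · subst he
      omega
    · rw [hL.2.2 w he]
      exact h.stle w hw
  stR := by
    intro w hw hw'
    by_cases he : w = u
    · subst he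
      exact Or.inr (hR' hw hw')
    · rw [hL.2.2 w he]
      exact h.stR w hw hw'
  mon := by
    intro s hs i hi
    rcases Nat.lt_or_ge s (t + 1) with h1 | h1
    · exact h.mon s (by omega) i ((Al_congr hL.1 hL.2.1 i).1 hi)
    · have : s = t + 1 := by omega
      subst this
      exact hi
  msz := by
    have : JJ b (V (t + 1)) = JJ b (V t) := by
      apply JJ_congr
      intro e _
      by_cases he : e = u
      · subst he
        constructor <;> intro _ <;> omega
      · rw [hL.2.2 e he]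
    rw [this, hL.1]
    exact h.msz
  mM := by
    rw [hL.1]
    exact h.mM
  dR := by
    intro w hw hw' h2
    by_cases he : w = u
    · subst he
      rw [hL.1, hL.2.1]
      exact hR hw hw' h2
    · rw [hL.2.2 w he] at h2
      rw [hL.1, hL.2.1]
      exact h.dR w hw hw' h2
  ti := hti

/-- Testers not involved in a local event -/
theorem TI.loc {b : ℕ} {V : ℕ → List ℕ} {t u x y e : ℕ} (h : TI A b V t e)
    (hL : Loc u (V t) (V (t + 1))) (hx : Fra x (V t) (V (t + 1)))
    (hy : Frb y (V t) (V (t + 1))) (hu : e ≠ u) (hex : e ≠ x) (hey : e ≠ y) :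
    TI A b V (t + 1) e :=
  h.transfer (hL.2.2 e hu) (hx e hex).1 (hx e hex).2 (hy e hey).1 (hy e hey).2
    (fun i hi => (Al_congr hL.1 hL.2.1 i).1 hi) (fun _ => ⟨hL.1, hL.2.1⟩)

/-- Testers not involved in a level event -/
theorem TI.lev {b : ℕ} {V : ℕ → List ℕ} {t u x y e : ℕ} (h : TI A b V t e)
    (hL : Lev u (V t) (V (t + 1))) (hx : Fra x (V t) (V (t + 1)))
    (hy : Frb y (V t) (V (t + 1))) (hu : e ≠ u) (hex : e ≠ x) (hey : e ≠ y)
    (hD : ∀ i, Al b (V (t + 1)) i → Al b (V t) i) :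
    TI A b V (t + 1) e := by
  rcases hL e hu with ⟨h1, h2⟩ | ⟨h1, h2⟩
  · exact h.transfer (by rw [h1, h2]) (hx e hex).1 (hx e hex).2 (hy e hey).1 (hy e hey).2
      hD (fun h => absurd h1 h)
  · exact TI.of_zero h2

theorem T1.loc {b : ℕ} {V : ℕ → List ℕ} {t u x e : ℕ} (h : T1 A b V t e)
    (hL : Loc u (V t) (V (t + 1))) (hx : Fra x (V t) (V (t + 1))) (hex : e ≠ x)
    (h4 : st (V t) e ≠ 4) (h4' : st (V (t + 1)) e ≠ 4) :
    T1 A b V (t + 1) e := by
  refine h.transfer (hx e hex).1 (hx e hex).2 ?_ (fun _ => ⟨h4, hL.1, hL.2.1⟩)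
  rintro i (⟨h1, h2⟩ | ⟨h1, y, hy, hy'⟩)
  · exact absurd h1 h4'
  · exact Or.inr ⟨h4, y, by rw [← hL.1]; exact hy, by rw [← hL.2.1]; exact hy'⟩

theorem gi_step {b : ℕ} {V : ℕ → List ℕ} {t : ℕ} (h : GI A b V t)
    (hS : Step A b t (V t) (V (t + 1))) : GI A b V (t + 1) := by
  rcases hS with ⟨u, hS⟩ | ⟨u, hS⟩ | ⟨u, hS⟩ | ⟨u, hS⟩ | ⟨u, hS⟩ | hS
  · -- show0
    obtain ⟨hu, h0, h1, hL, hx, hy, hta, hs0, hs⟩ := hS
    refine h.loc hL (by omega) (by omega) (by intro _ _; omega) (by intro _ _; omega) ?_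
    intro e he
    by_cases heu : e = u
    · subst heu
      have hT : T1 A b V (t + 1) e := by
        constructor
        · rw [hta]; exact Nat.lt_succ_self t
        · rw [hta]; exact h0
        · rw [hta]; exact h1
        · intro w; rw [hta]
        · intro _
          rw [hta]
          exact ⟨hL.1.symm, fun u y => (hL.2.1 u y).symm⟩
        · rintro i (⟨h2, _⟩ | ⟨_, y, hy1, hy2⟩)
          · omega
          · rw [hta]
            exact ⟨y, by rw [← hL.1]; exact hy1, by rw [← hL.2.1]; exact hy2⟩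
        · rw [hta]
          exact (AllCl_iff (P := fun w => Show A b e (kk (V (t + 1)) e w) t w)).1 ⟨hs0, hs⟩
      constructor
      · intro _; exact hT
      · intro h'; omega
      · intro h'; omega
      · intro h'; omega
    · exact (h.ti e he).loc hL hx hy heu heu (by omega)
  · -- drop0
    obtain ⟨hu, h1, h2, hL, hx, hy, hs0, hs⟩ := hS
    refine h.loc hL (by omega) (by omega) (by intro _ _; omega) (by intro _ _; omega) ?_
    intro e he
    by_cases heu : e = u
    · subst heu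
      have hT := (h.ti e he).h1 (by omega)
      obtain ⟨hq1, hq2⟩ := hT.a4 (by omega)
      have hc := (AllCl_iff (P := fun w => Drp A b e (kk (V t) e w) (ta (V t) e) w)).1 ⟨hs0, hs⟩
      constructor
      · intro _
        exact hT.loc hL hx (by omega) (by omega) (by omega)
      · intro _ w hw
        rw [(hx e (by omega)).1] at hw ⊢
        rw [(hx e (by omega)).2]
        exact hc w ((Cl_congr hq1 hq2 w).1 hw)
      · intro h'; omega
      · intro h'; omega
    · exact (h.ti e he).loc hL hx hy heu (by omega) (by omega)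
  · -- show1
    obtain ⟨hu, h2, h3, hL, hx, hy, htb, hs⟩ := hS
    refine h.loc hL (by omega) (by omega) (by intro _ _; omega) (by intro _ _; omega) ?_
    intro e he
    by_cases heu : e = u
    · subst heu
      have hT := (h.ti e he).h1 (by omega)
      have hfx := hx e (by omega)
      constructor
      · intro _
        exact hT.loc hL hx (by omega) (by omega) (by omega)
      · intro _ w hw
        rw [hfx.1] at hw ⊢
        rw [hfx.2]
        exact (h.ti e he).h2 (by omega) w hw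
      · intro _
        constructor
        · rw [hfx.1, htb]; exact hT.a1
        · rw [htb]; exact Nat.lt_succ_self t
        · rw [htb]; exact h2
        · intro _
          rw [htb]
          exact ⟨hL.1.symm, fun u y => (hL.2.1 u y).symm⟩
        · rintro i (⟨h4, _⟩ | ⟨_, y, hy1, hy2⟩)
          · omega
          · rw [hL.1] at hy1
            rw [hL.2.1] at hy2
            subst hy2
            rw [htb, hfx.2]
            exact ⟨y, hy1, rfl, hs y hy1⟩
      · intro h'; omega
    · exact (h.ti e he).loc hL hx hy heu (by omega) heu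
  · -- join
    obtain ⟨hu, h3, h4, hL, hx, hy, hs, hms, ⟨T, hT⟩, hinj⟩ := hS
    have hal : ∀ i, Al b (V (t + 1)) i → ∃ y, y < 2 * ms (V t) ∧ qq (V t) u y = i ∧
        ty (V t) u i = T := by
      rintro i ⟨u', hu', y, hy, rfl⟩
      obtain ⟨⟨y', hy', he⟩, hty⟩ := hT u' hu' y hy
      exact ⟨y', hy', he.symm, hty⟩
    have hal' : ∀ i, Al b (V (t + 1)) i → Al b (V t) i := by
      intro i hi
      obtain ⟨y, hy, hq, _⟩ := hal i hi
      exact ⟨u, by omega, y, hy, hq⟩
    constructor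
    · exact hinj
    · intro w hw
      by_cases he : w = u
      · subst he
        omega
      · rcases hL w he with ⟨_, h5⟩ | ⟨_, h5⟩ <;> omega
    · intro w hw hw'
      rcases hL w (by omega) with ⟨h5, _⟩ | ⟨_, h5⟩
      · rcases h.stR w hw hw' with h6 | h6 <;> omega
      · exact Or.inl h5
    · intro s hs i hi
      rcases Nat.lt_or_ge s (t + 1) with h1 | h1
      · exact h.mon s (by omega) i (hal' i hi)
      · have : s = t + 1 := by omega
        subst this
        exact hi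
    · have hJ : JJ b (V (t + 1)) = JJ b (V t) + 1 := by
        refine JJ_succ hu (by omega) h4 ?_
        intro e _ he
        rcases hL e he with ⟨h5, h6⟩ | ⟨h5, h6⟩
        · rw [h5, h6]
        · constructor
          · intro _; omega
          · intro h7; exact absurd h7 h5
      rcases h.msz with h5 | h5
      · left
        rw [hms] at h5
        rcases Nat.mul_eq_zero.1 h5 with h6 | h6
        · have := DD_pos b
          omega
        · exact h6
      · right
        rw [hJ, pow_succ, ← h5, hms]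
        ring
    · intro h5
      exact h.mM (by rw [hms, h5, mul_zero])
    · intro w hw hw' h5
      rcases hL w (by omega) with ⟨_, h6⟩ | ⟨_, h6⟩ <;> omega
    · intro e he
      by_cases heu : e = u
      · subst heu
        have hfx := hx e (by omega)
        have hfy := hy e (by omega)
        have hD : ∀ i, Dm b (V (t + 1)) e i → Dm b (V t) e i := by
          rintro i (⟨_, h6⟩ | ⟨h6, _⟩)
          · obtain ⟨y, hy1, hy2, _⟩ := hal i h6
            exact Or.inr ⟨by omega, y, hy1, hy2⟩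
          · exact absurd h4 h6
        have hq' : st (V (t + 1)) e ≠ 4 → st (V t) e ≠ 4 ∧ ms (V (t + 1)) = ms (V t) ∧
            ∀ u y, qq (V (t + 1)) u y = qq (V t) u y := fun h6 => absurd h4 h6
        have hT3 := (h.ti e he).h3 (by omega)
        constructor
        · intro _
          exact ((h.ti e he).h1 (by omega)).transfer hfx.1 hfx.2 hD hq'
        · intro _ w hw
          rw [hfx.1] at hw ⊢
          rw [hfx.2]
          exact (h.ti e he).h2 (by omega) w hw
        · intro _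
          exact hT3.transfer hfx.1 hfx.2 hfy.1 hfy.2 hD hq'
        · intro _
          obtain ⟨hc1, hc2⟩ := hT3.c4 (by omega)
          constructor
          · intro i hi
            obtain ⟨y, hy1, hy2, _⟩ := hal i hi
            rw [hfy.1, hfx.2, hfy.2]
            refine ⟨y, by omega, by rw [hc2]; exact hy2, ?_⟩
            rw [hc2]
            subst hy2
            exact hs y hy1
          · refine ⟨T, fun i hi => ?_⟩
            obtain ⟨y, hy1, hy2, h6⟩ := hal i hi
            rw [hfy.2]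
            exact h6
      · exact (h.ti e he).lev hL hx hy heu (by omega) (by omega) hal'
  · -- diag
    obtain ⟨hu1, hu2, h0, h2, hL, hx, hy, hms, hPh⟩ := hS
    refine h.loc hL (by omega) (by omega) (fun _ _ _ => ⟨hms, hPh⟩) (fun _ _ => h2) ?_
    intro e he
    exact (h.ti e he).loc hL hx hy (by omega) (by omega) (by omega)
  · -- collapse
    obtain ⟨hms, hM, hms', hL, hx, hy⟩ := hS
    have hal' : ∀ i, Al b (V (t + 1)) i → Al b (V t) i :=
      fun i hi => absurd hi (not_Al_of_ms hms' i)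
    constructor
    · intro u _ y hy
      omega
    · intro w hw
      rcases hL w (by omega) with ⟨_, h5⟩ | ⟨_, h5⟩ <;> omega
    · intro w hw hw'
      rcases hL w (by omega) with ⟨h5, _⟩ | ⟨_, h5⟩
      · rcases h.stR w hw hw' with h6 | h6 <;> omega
      · exact Or.inl h5
    · intro s hs i hi
      exact absurd hi (not_Al_of_ms hms' i)
    · exact Or.inl hms'
    · intro _; exact hM
    · intro w hw hw' h5
      rcases hL w (by omega) with ⟨_, h6⟩ | ⟨_, h6⟩ <;> omega
    · intro e he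
      exact (h.ti e he).lev hL hx hy (by omega) (by omega) (by omega) hal'

theorem gi_all {b : ℕ} {V : ℕ → List ℕ} {T : ℕ} (hI : Init b (V 0))
    (hS : ∀ t < T, Step A b t (V t) (V (t + 1))) : ∀ t ≤ T, GI A b V t := by
  intro t
  induction t with
  | zero => intro _; exact GI.init hI
  | succ t ih =>
    intro ht
    exact gi_step (ih (by omega)) (hS t (by omega))

end Pool.Agent.H36.MinNum
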