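import Pool.Agent.H36.MinNum.Sd

/-!
The block machine: states, events and the step relation.
-/

namespace Pool.Agent.H36.MinNum

open Pool.Agent.H36.LFI

/-- Field access. -/
def lk (v : List ℕ) (a i : ℕ) : ℕ := v.getD (Nat.pair a i) 0

/-- half of the unit size -/
def ms (v : List ℕ) : ℕ := lk v 0 0
/-- pool entries -/
def qq (v : List ℕ) (u y : ℕ) : ℕ := lk v 1 (Nat.pair u y)
/-- status of a unit -/
def st (v : List ℕ) (u : ℕ) : ℕ := lk v 2 u
/-- first time stamp -/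
def ta (v : List ℕ) (e : ℕ) : ℕ := lk v 3 e
/-- second time stamp -/
def tb (v : List ℕ) (e : ℕ) : ℕ := lk v 4 e
/-- registered indices -/
def kk (v : List ℕ) (e w : ℕ) : ℕ := lk v 5 (Nat.pair e w)
/-- types -/
def ty (v : List ℕ) (e i : ℕ) : ℕ := lk v 6 (Nat.pair e i)

/-- partner position -/
def pt (y : ℕ) : ℕ := y + 1 - 2 * (y % 2)

/-- block label -/
def al (b : ℕ) : ℕ := Nat.pair 0 b
/-- block label for an opponent -/
def la (b e : ℕ) : ℕ := Nat.pair 1 (Nat.pair b e)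
/-- class label -/
def lb (b e t w c : ℕ) : ℕ := Nat.pair 2 (Nat.pair b (Nat.pair e (Nat.pair t (Nat.pair w c))))

def DD (b : ℕ) : ℕ := 4 * (b + 1)
def KK (b : ℕ) : ℕ := (2 * (b + 1) + 1) * (8 * (b + 1))

def Inj (b : ℕ) (v : List ℕ) : Prop :=
  ∀ u, u < 2 * (b + 1) → ∀ y, y < 2 * ms v → ∀ u', u' < 2 * (b + 1) → ∀ y', y' < 2 * ms v →
    qq v u y = qq v u' y' → u = u' ∧ y = y'

def AllCl (b : ℕ) (v : List ℕ) (P : ℕ → Prop) : Prop :=
  P 0 ∧ ∀ u, u < 2 * (b + 1) → ∀ y, y < 2 * ms v → P (qq v u y + 1)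

def Loc (u0 : ℕ) (v v' : List ℕ) : Prop :=
  ms v' = ms v ∧ (∀ u y, qq v' u y = qq v u y) ∧ ∀ u, u ≠ u0 → st v' u = st v u

def Lev (u0 : ℕ) (v v' : List ℕ) : Prop :=
  ∀ u, u ≠ u0 → (st v u = 4 ∧ st v' u = 4) ∨ (st v u ≠ 4 ∧ st v' u = 0)

def Fra (x : ℕ) (v v' : List ℕ) : Prop :=
  ∀ e, e ≠ x → ta v' e = ta v e ∧ ∀ w, kk v' e w = kk v e w

def Frb (x : ℕ) (v v' : List ℕ) : Prop :=
  ∀ e, e ≠ x → tb v' e = tb v e ∧ ∀ i, ty v' e i = ty v e i

/-- The parameters of the construction. -/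
structure Par where
  PP : ℕ → ℕ → ℕ → Prop
  QQ : ℕ → ℕ → ℕ → Prop
  Ph : ℕ → ℕ → Prop
  M : ℕ → Prop
  sP : SD (fun x : ℕ × ℕ × ℕ => PP x.1 x.2.1 x.2.2)
  sQ : SD (fun x : ℕ × ℕ × ℕ => QQ x.1 x.2.1 x.2.2)
  sPh : SD (fun x : ℕ × ℕ => Ph x.1 x.2)
  sM : SD M

variable (A : Par)

def ShL (b e k t w : ℕ) : Prop := ∀ c, c ≤ KK b → A.PP e k (lb b e t w c)
def Show (b e k t w : ℕ) : Prop := A.PP e k (la b e) ∧ ShL A b e k t w
def Drp (b e k t w : ℕ) : Prop := ∀ c, c ≤ KK b → A.QQ e k (lb b e t w c)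

def Ev0 (b t u : ℕ) (v v' : List ℕ) : Prop :=
  u < b + 1 ∧ st v u = 0 ∧ st v' u = 1 ∧ Loc u v v' ∧ Fra u v v' ∧ Frb (2 * (b + 1)) v v' ∧
  ta v' u = t ∧ Show A b u (kk v' u 0) t 0 ∧
    ∀ u', u' < 2 * (b + 1) → ∀ y, y < 2 * ms v →
      Show A b u (kk v' u (qq v u' y + 1)) t (qq v u' y + 1)

def Ev1 (b u : ℕ) (v v' : List ℕ) : Prop :=
  u < b + 1 ∧ st v u = 1 ∧ st v' u = 2 ∧ Loc u v v' ∧ Fra (2 * (b + 1)) v v' ∧
  Frb (2 * (b + 1)) v v' ∧ Drp A b u (kk v u 0) (ta v u) 0 ∧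
    ∀ u', u' < 2 * (b + 1) → ∀ y, y < 2 * ms v →
      Drp A b u (kk v u (qq v u' y + 1)) (ta v u) (qq v u' y + 1)

def Ev2 (b t u : ℕ) (v v' : List ℕ) : Prop :=
  u < b + 1 ∧ st v u = 2 ∧ st v' u = 3 ∧ Loc u v v' ∧ Fra (2 * (b + 1)) v v' ∧ Frb u v v' ∧
  tb v' u = t ∧ ∀ y, y < 2 * ms v →
    (ty v' u (qq v u y) = 0 ∧ ShL A b u (kk v u (qq v u y + 1)) t (qq v u y + 1)) ∨
    (ty v' u (qq v u y) = 1 ∧ ShL A b u (kk v u (qq v u y + 1)) t (qq v u (pt y) + 1))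

def Ev3 (b u : ℕ) (v v' : List ℕ) : Prop :=
  u < b + 1 ∧ st v u = 3 ∧ st v' u = 4 ∧ Lev u v v' ∧ Fra (2 * (b + 1)) v v' ∧
  Frb (2 * (b + 1)) v v' ∧
  (∀ y, y < 2 * ms v →
    (ty v u (qq v u y) = 0 ∧ Drp A b u (kk v u (qq v u y + 1)) (tb v u) (qq v u y + 1)) ∨
    (ty v u (qq v u y) = 1 ∧ Drp A b u (kk v u (qq v u y + 1)) (tb v u) (qq v u (pt y) + 1))) ∧
  ms v = DD b * ms v' ∧
  (∃ T, ∀ u', u' < 2 * (b + 1) → ∀ y, y < 2 * ms v' →
    (∃ y', y' < 2 * ms v ∧ qq v' u' y = qq v u y') ∧ ty v u (qq v' u' y) = T) ∧ Inj b v'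

def Ev4 (b u : ℕ) (v v' : List ℕ) : Prop :=
  b + 1 ≤ u ∧ u < 2 * (b + 1) ∧ st v u = 0 ∧ st v' u = 2 ∧ Loc u v v' ∧
  Fra (2 * (b + 1)) v v' ∧ Frb (2 * (b + 1)) v v' ∧ 0 < ms v ∧
  A.Ph (u - (b + 1)) (Nat.pair b (qq v u 0))

def Ev5 (b : ℕ) (v v' : List ℕ) : Prop :=
  0 < ms v ∧ A.M b ∧ ms v' = 0 ∧ Lev (2 * (b + 1)) v v' ∧
  Fra (2 * (b + 1)) v v' ∧ Frb (2 * (b + 1)) v v'

def Step (b t : ℕ) (v v' : List ℕ) : Prop :=
  (∃ u, Ev0 A b t u v v') ∨ (∃ u, Ev1 A b u v v') ∨ (∃ u, Ev2 A b t u v v') ∨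
  (∃ u, Ev3 A b u v v') ∨ (∃ u, Ev4 A b u v v') ∨ Ev5 A b v v'

def Init (b : ℕ) (v : List ℕ) : Prop :=
  ms v = DD b ^ (b + 1) ∧
  (∀ u, u < 2 * (b + 1) → ∀ y, y < 2 * ms v → qq v u y = u * (2 * ms v) + y) ∧
  ∀ u, st v u = 0

/-! ### Lookups -/

theorem lk_zero {v : List ℕ} {a i : ℕ} (h : v.length ≤ i) : lk v a i = 0 := by
  unfold lk
  rw [List.getD_eq_default]
  exact h.trans (Nat.right_le_pair a i)

theorem lk2_zero_left {v : List ℕ} {a i j : ℕ} (h : v.length ≤ i) :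
    lk v a (Nat.pair i j) = 0 := lk_zero (h.trans (Nat.left_le_pair i j))

theorem lk2_zero_right {v : List ℕ} {a i j : ℕ} (h : v.length ≤ j) :
    lk v a (Nat.pair i j) = 0 := lk_zero (h.trans (Nat.right_le_pair i j))

/-- Every finite modification of a state is a state. -/
theorem exists_list (F : ℕ → ℕ → ℕ) (v : List ℕ) (B : ℕ)
    (h : ∀ a i, B ≤ Nat.pair a i → F a i = lk v a i) : ∃ v', ∀ a i, lk v' a i = F a i := by
  refine ⟨(List.range (max v.length B)).map (fun z => F z.unpair.1 z.unpair.2), ?_⟩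
  intro a i
  unfold lk
  by_cases hz : Nat.pair a i < max v.length B
  · rw [List.getD_eq_getElem?_getD, List.getElem?_map, List.getElem?_range hz]
    simp
  · rw [List.getD_eq_default _ _ (by simpa using hz)]
    push Not at hz
    rw [h a i (le_trans (le_max_right _ _) hz)]
    unfold lk
    rw [List.getD_eq_default _ _ (le_trans (le_max_left _ _) hz)]

/-! ### Semidecidability -/

section SDproof

variable {α : Type} [Primcodable α]

theorem p_lk {v : α → List ℕ} {a i : α → ℕ} (hv : Primrec v) (ha : Primrec a)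
    (hi : Primrec i) : Primrec (fun x => lk (v x) (a x) (i x)) := by
  unfold lk; (repeat' with_reducible first | assumption | exact p_id | exact p_const _ | refine p_fst ?_ | refine p_snd ?_ | refine p_unpair ?_ | refine p_npair ?_ ?_ | refine p_getD _ ?_ ?_)
theorem p_ms {v : α → List ℕ} (hv : Primrec v) : Primrec (fun x => ms (v x)) :=
  p_lk hv (Primrec.const 0) (Primrec.const 0)
theorem p_qq {v : α → List ℕ} {a i : α → ℕ} (hv : Primrec v) (ha : Primrec a)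
    (hi : Primrec i) : Primrec (fun x => qq (v x) (a x) (i x)) :=
  p_lk hv (Primrec.const 1) (p_npair ha hi)
theorem p_st {v : α → List ℕ} {i : α → ℕ} (hv : Primrec v)
    (hi : Primrec i) : Primrec (fun x => st (v x) (i x)) :=
  p_lk hv (Primrec.const 2) hi
theorem p_ta {v : α → List ℕ} {i : α → ℕ} (hv : Primrec v)
    (hi : Primrec i) : Primrec (fun x => ta (v x) (i x)) :=
  p_lk hv (Primrec.const 3) hi
theorem p_tb {v : α → List ℕ} {i : α → ℕ} (hv : Primrec v)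
    (hi : Primrec i) : Primrec (fun x => tb (v x) (i x)) :=
  p_lk hv (Primrec.const 4) hi
theorem p_kk {v : α → List ℕ} {a i : α → ℕ} (hv : Primrec v) (ha : Primrec a)
    (hi : Primrec i) : Primrec (fun x => kk (v x) (a x) (i x)) :=
  p_lk hv (Primrec.const 5) (p_npair ha hi)
theorem p_ty {v : α → List ℕ} {a i : α → ℕ} (hv : Primrec v) (ha : Primrec a)
    (hi : Primrec i) : Primrec (fun x => ty (v x) (a x) (i x)) :=
  p_lk hv (Primrec.const 6) (p_npair ha hi)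
theorem p_pt {i : α → ℕ} (hi : Primrec i) : Primrec (fun x => pt (i x)) := by
  unfold pt; (repeat' with_reducible first | assumption | exact p_id | exact p_const _ | refine p_fst ?_ | refine p_snd ?_ | refine p_unpair ?_ | refine p_npair ?_ ?_ | refine p_getD _ ?_ ?_ | refine p_length ?_ | refine p_add ?_ ?_ | refine p_mul ?_ ?_ | refine p_sub ?_ ?_ | refine p_div ?_ ?_ | refine p_mod ?_ ?_)
theorem p_DD {i : α → ℕ} (hi : Primrec i) : Primrec (fun x => DD (i x)) := by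
  unfold DD; (repeat' with_reducible first | assumption | exact p_id | exact p_const _ | refine p_fst ?_ | refine p_snd ?_ | refine p_unpair ?_ | refine p_npair ?_ ?_ | refine p_getD _ ?_ ?_ | refine p_length ?_ | refine p_add ?_ ?_ | refine p_mul ?_ ?_)
theorem p_KK {i : α → ℕ} (hi : Primrec i) : Primrec (fun x => KK (i x)) := by
  unfold KK; (repeat' with_reducible first | assumption | exact p_id | exact p_const _ | refine p_fst ?_ | refine p_snd ?_ | refine p_unpair ?_ | refine p_npair ?_ ?_ | refine p_getD _ ?_ ?_ | refine p_length ?_ | refine p_add ?_ ?_ | refine p_mul ?_ ?_)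
theorem p_al {b : α → ℕ} (hb : Primrec b) : Primrec (fun x => al (b x)) := by
  unfold al; (repeat' with_reducible first | assumption | exact p_id | exact p_const _ | refine p_fst ?_ | refine p_snd ?_ | refine p_unpair ?_ | refine p_npair ?_ ?_)
theorem p_la {b e : α → ℕ} (hb : Primrec b) (he : Primrec e) :
    Primrec (fun x => la (b x) (e x)) := by
  unfold la; (repeat' with_reducible first | assumption | exact p_id | exact p_const _ | refine p_fst ?_ | refine p_snd ?_ | refine p_unpair ?_ | refine p_npair ?_ ?_)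
theorem p_lb {b e t w c : α → ℕ} (hb : Primrec b) (he : Primrec e) (ht : Primrec t)
    (hw : Primrec w) (hc : Primrec c) :
    Primrec (fun x => lb (b x) (e x) (t x) (w x) (c x)) := by
  unfold lb; (repeat' with_reducible first | assumption | exact p_id | exact p_const _ | refine p_fst ?_ | refine p_snd ?_ | refine p_unpair ?_ | refine p_npair ?_ ?_)

end SDproof

section SDproof2

variable {α : Type} [Primcodable α]

theorem s_all {p : α → ℕ → Prop} {n : α → ℕ} (hn : Primrec n)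
    (h : SD (fun x : α × ℕ => p x.1 x.2)) (hb : ∀ a i, n a ≤ i → p a i) :
    SD (fun a => ∀ i, p a i) := by
  refine (s_ball hn h).of_eq ?_
  intro a
  constructor
  · intro h i
    by_cases hi : i < n a
    · exact h i hi
    · exact hb a i (not_lt.1 hi)
  · intro h i _
    exact h i

theorem s_Loc {v v' : α → List ℕ} {u : α → ℕ} (hv : Primrec v) (hv' : Primrec v')
    (hu : Primrec u) : SD (fun x => Loc (u x) (v x) (v' x)) := by
  unfold Loc
  have hn : Primrec (fun x => (v x).length + (v' x).length) := by (repeat' with_reducible first | assumption | exact p_id | exact p_const _ | refine p_ms ?_ | refine p_qq ?_ ?_ ?_ | refine p_st ?_ ?_ | refine p_ta ?_ ?_ | refine p_tb ?_ ?_ | refine p_kk ?_ ?_ ?_ | refine p_ty ?_ ?_ ?_ | refine p_lk ?_ ?_ ?_ | refine p_pt ?_ | refine p_DD ?_ | refine p_KK ?_ | refine p_al ?_ | refine p_la ?_ ?_ | refine p_lb ?_ ?_ ?_ ?_ ?_ | refine p_fst ?_ | refine p_snd ?_ |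 refine p_unpair ?_ | refine p_npair ?_ ?_ | refine p_getD _ ?_ ?_ | refine p_length ?_ | refine p_add ?_ ?_)
  have h1 : SD (fun x => ∀ u y, qq (v' x) u y = qq (v x) u y) := by
    refine s_all hn ?_ ?_
    · refine s_all (n := fun x => (v x.1).length + (v' x.1).length) ?_ ?_ ?_
      · exact hn.comp Primrec.fst
      · have h1 : Primrec (fun x : (α × ℕ) × ℕ => v x.1.1) :=
          hv.comp (Primrec.fst.comp Primrec.fst)
        have h2 : Primrec (fun x : (α × ℕ) × ℕ => v' x.1.1) :=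
          hv'.comp (Primrec.fst.comp Primrec.fst)
        (repeat' with_reducible first | assumption | exact p_id | exact p_const _ | refine s_and ?_ ?_ | refine s_or ?_ ?_ | refine s_eq ?_ ?_ | refine s_ne ?_ ?_ | refine s_not_eq ?_ ?_ | refine s_lt ?_ ?_ | refine s_le ?_ ?_ | refine s_not_lt ?_ ?_ | refine s_not_le ?_ ?_ | refine s_not_and ?_ ?_ | refine s_not_or ?_ ?_ | refine s_not_not ?_ | refine s_ball ?_ ?_ | refine s_ball_le ?_ ?_ | refine s_mem ?_ ?_ | refine s_ex ?_ | refine s_imp ?_ ?_ | refine p_ms ?_ | refine p_qq ?_ ?_ ?_ | refine p_st ?_ ?_ | refine p_ta ?_ ?_ | refine p_tb ?_ ?_ | refine p_kk ?_ ?_ ?_ | refine p_ty ?_ ?_ ?_ | refine p_lk ?_ ?_ ?_ | refine p_pt ?_ | refine p_DD ?_ | refine p_KK ?_ | refine p_al ?_ | refine p_la ?_ ?_ | refine p_lb ?_ ?_ ?_ ?_ ?_ | refine p_fst ?_ | refine p_snd ?_)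
      · intro a i hi
        unfold qq
        rw [lk2_zero_right (by omega), lk2_zero_right (by omega)]
    · intro a i hi y
      unfold qq
      rw [lk2_zero_left (by omega), lk2_zero_left (by omega)]
  have h2 : SD (fun x => ∀ w, w ≠ u x → st (v' x) w = st (v x) w) := by
    refine s_all hn ?_ ?_
    · have h1 : Primrec (fun x : α × ℕ => v x.1) := hv.comp Primrec.fst
      have h2 : Primrec (fun x : α × ℕ => v' x.1) := hv'.comp Primrec.fst
      have h3 : Primrec (fun x : α × ℕ => u x.1) := hu.comp Primrec.fst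
      (repeat' with_reducible first | assumption | exact p_id | exact p_const _ | refine s_and ?_ ?_ | refine s_or ?_ ?_ | refine s_eq ?_ ?_ | refine s_ne ?_ ?_ | refine s_not_eq ?_ ?_ | refine s_lt ?_ ?_ | refine s_le ?_ ?_ | refine s_not_lt ?_ ?_ | refine s_not_le ?_ ?_ | refine s_not_and ?_ ?_ | refine s_not_or ?_ ?_ | refine s_not_not ?_ | refine s_ball ?_ ?_ | refine s_ball_le ?_ ?_ | refine s_mem ?_ ?_ | refine s_ex ?_ | refine s_imp ?_ ?_ | refine p_ms ?_ | refine p_qq ?_ ?_ ?_ | refine p_st ?_ ?_ | refine p_ta ?_ ?_ | refine p_tb ?_ ?_ | refine p_kk ?_ ?_ ?_ | refine p_ty ?_ ?_ ?_ | refine p_lk ?_ ?_ ?_ | refine p_pt ?_ | refine p_DD ?_ | refine p_KK ?_ | refine p_al ?_ | refine p_la ?_ ?_ | refine p_lb ?_ ?_ ?_ ?_ ?_ | refine p_fst ?_ | refine p_snd ?_)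
    · intro a i hi _
      unfold st
      rw [lk_zero (by omega), lk_zero (by omega)]
  (repeat' with_reducible first | assumption | exact p_id | exact p_const _ | refine s_and ?_ ?_ | refine s_or ?_ ?_ | refine s_eq ?_ ?_ | refine s_ne ?_ ?_ | refine s_not_eq ?_ ?_ | refine s_lt ?_ ?_ | refine s_le ?_ ?_ | refine s_not_lt ?_ ?_ | refine s_not_le ?_ ?_ | refine s_not_and ?_ ?_ | refine s_not_or ?_ ?_ | refine s_not_not ?_ | refine s_ball ?_ ?_ | refine s_ball_le ?_ ?_ | refine s_mem ?_ ?_ | refine s_ex ?_ | refine s_imp ?_ ?_ | refine p_ms ?_)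

theorem s_Lev {v v' : α → List ℕ} {u : α → ℕ} (hv : Primrec v) (hv' : Primrec v')
    (hu : Primrec u) : SD (fun x => Lev (u x) (v x) (v' x)) := by
  unfold Lev
  have hn : Primrec (fun x => (v x).length + (v' x).length) := by (repeat' with_reducible first | assumption | exact p_id | exact p_const _ | refine p_ms ?_ | refine p_qq ?_ ?_ ?_ | refine p_st ?_ ?_ | refine p_ta ?_ ?_ | refine p_tb ?_ ?_ | refine p_kk ?_ ?_ ?_ | refine p_ty ?_ ?_ ?_ | refine p_lk ?_ ?_ ?_ | refine p_pt ?_ | refine p_DD ?_ | refine p_KK ?_ | refine p_al ?_ | refine p_la ?_ ?_ | refine p_lb ?_ ?_ ?_ ?_ ?_ | refine p_fst ?_ | refine p_snd ?_ | refine p_unpair ?_ | refine p_npair ?_ ?_ | refine p_getD _ ?_ ?_ | refine p_length ?_ | refine p_add ?_ ?_)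
  refine s_all hn ?_ ?_
  · have h1 : Primrec (fun x : α × ℕ => v x.1) := hv.comp Primrec.fst
    have h2 : Primrec (fun x : α × ℕ => v' x.1) := hv'.comp Primrec.fst
    have h3 : Primrec (fun x : α × ℕ => u x.1) := hu.comp Primrec.fst
    (repeat' with_reducible first | assumption | exact p_id | exact p_const _ | refine s_and ?_ ?_ | refine s_or ?_ ?_ | refine s_eq ?_ ?_ | refine s_ne ?_ ?_ | refine s_not_eq ?_ ?_ | refine s_lt ?_ ?_ | refine s_le ?_ ?_ | refine s_not_lt ?_ ?_ | refine s_not_le ?_ ?_ | refine s_not_and ?_ ?_ | refine s_not_or ?_ ?_ | refine s_not_not ?_ | refine s_ball ?_ ?_ | refine s_ball_le ?_ ?_ | refine s_mem ?_ ?_ | refine s_ex ?_ | refine s_imp ?_ ?_ | refine p_ms ?_ | refine p_qq ?_ ?_ ?_ | refine p_st ?_ ?_ | refine p_ta ?_ ?_ | refine p_tb ?_ ?_ | refine p_kk ?_ ?_ ?_ | refine p_ty ?_ ?_ ?_ | refine p_lk ?_ ?_ ?_ | refine p_pt ?_ | refine p_DD ?_ | refine p_KK ?_ | refine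 p_al ?_ | refine p_la ?_ ?_ | refine p_lb ?_ ?_ ?_ ?_ ?_ | refine p_fst ?_ | refine p_snd ?_)
  · intro a i hi _
    right
    unfold st
    rw [lk_zero (by omega), lk_zero (by omega)]
    simp

theorem s_Fra {v v' : α → List ℕ} {u : α → ℕ} (hv : Primrec v) (hv' : Primrec v')
    (hu : Primrec u) : SD (fun x => Fra (u x) (v x) (v' x)) := by
  unfold Fra
  have hn : Primrec (fun x => (v x).length + (v' x).length) := by (repeat' with_reducible first | assumption | exact p_id | exact p_const _ | refine p_ms ?_ | refine p_qq ?_ ?_ ?_ | refine p_st ?_ ?_ | refine p_ta ?_ ?_ | refine p_tb ?_ ?_ | refine p_kk ?_ ?_ ?_ | refine p_ty ?_ ?_ ?_ | refine p_lk ?_ ?_ ?_ | refine p_pt ?_ | refine p_DD ?_ | refine p_KK ?_ | refine p_al ?_ | refine p_la ?_ ?_ | refine p_lb ?_ ?_ ?_ ?_ ?_ | refine p_fst ?_ | refine p_snd ?_ | refine p_unpair ?_ | refine p_npair ?_ ?_ | refine p_getD _ ?_ ?_ | refine p_length ?_ | refine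 p_add ?_ ?_)
  refine s_all hn ?_ ?_
  · have h1 : Primrec (fun x : α × ℕ => v x.1) := hv.comp Primrec.fst
    have h2 : Primrec (fun x : α × ℕ => v' x.1) := hv'.comp Primrec.fst
    have h3 : Primrec (fun x : α × ℕ => u x.1) := hu.comp Primrec.fst
    have h4 : SD (fun x : α × ℕ => ∀ w, kk (v' x.1) x.2 w = kk (v x.1) x.2 w) := by
      refine s_all (hn.comp Primrec.fst) ?_ ?_
      · have h1 : Primrec (fun x : (α × ℕ) × ℕ => v x.1.1) :=
          hv.comp (Primrec.fst.comp Primrec.fst)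
        have h2 : Primrec (fun x : (α × ℕ) × ℕ => v' x.1.1) :=
          hv'.comp (Primrec.fst.comp Primrec.fst)
        (repeat' with_reducible first | assumption | exact p_id | exact p_const _ | refine s_and ?_ ?_ | refine s_or ?_ ?_ | refine s_eq ?_ ?_ | refine s_ne ?_ ?_ | refine s_not_eq ?_ ?_ | refine s_lt ?_ ?_ | refine s_le ?_ ?_ | refine s_not_lt ?_ ?_ | refine s_not_le ?_ ?_ | refine s_not_and ?_ ?_ | refine s_not_or ?_ ?_ | refine s_not_not ?_ | refine s_ball ?_ ?_ | refine s_ball_le ?_ ?_ | refine s_mem ?_ ?_ | refine s_ex ?_ | refine s_imp ?_ ?_ | refine p_ms ?_ | refine p_qq ?_ ?_ ?_ | refine p_st ?_ ?_ | refine p_ta ?_ ?_ | refine p_tb ?_ ?_ | refine p_kk ?_ ?_ ?_ | refine p_ty ?_ ?_ ?_ | refine p_lk ?_ ?_ ?_ | refine p_pt ?_ | refine p_DD ?_ | refine p_KK ?_ | refine p_al ?_ | refine p_la ?_ ?_ | refine p_lb ?_ ?_ ?_ ?_ ?_ | refine p_fst ?_ | refine p_snd ?_)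
      · intro a i hi
        unfold kk
        rw [lk2_zero_right (by omega), lk2_zero_right (by omega)]
    (repeat' with_reducible first | assumption | exact p_id | exact p_const _ | refine s_and ?_ ?_ | refine s_or ?_ ?_ | refine s_eq ?_ ?_ | refine s_ne ?_ ?_ | refine s_not_eq ?_ ?_ | refine s_lt ?_ ?_ | refine s_le ?_ ?_ | refine s_not_lt ?_ ?_ | refine s_not_le ?_ ?_ | refine s_not_and ?_ ?_ | refine s_not_or ?_ ?_ | refine s_not_not ?_ | refine s_ball ?_ ?_ | refine s_ball_le ?_ ?_ | refine s_mem ?_ ?_ | refine s_ex ?_ | refine s_imp ?_ ?_ | refine p_ms ?_ | refine p_qq ?_ ?_ ?_ | refine p_st ?_ ?_ | refine p_ta ?_ ?_ | refine p_tb ?_ ?_ | refine p_kk ?_ ?_ ?_ | refine p_ty ?_ ?_ ?_ | refine p_lk ?_ ?_ ?_ | refine p_pt ?_ | refine p_DD ?_ | refine p_KK ?_ | refine p_al ?_ | refine p_la ?_ ?_ | refine p_lb ?_ ?_ ?_ ?_ ?_ | refine p_fst ?_ | refine p_snd ?_)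
  · intro a i hi _
    unfold ta kk
    rw [lk_zero (by omega), lk_zero (by omega)]
    refine ⟨rfl, fun w => ?_⟩
    rw [lk2_zero_left (by omega), lk2_zero_left (by omega)]

theorem s_Frb {v v' : α → List ℕ} {u : α → ℕ} (hv : Primrec v) (hv' : Primrec v')
    (hu : Primrec u) : SD (fun x => Frb (u x) (v x) (v' x)) := by
  unfold Frb
  have hn : Primrec (fun x => (v x).length + (v' x).length) := by (repeat' with_reducible first | assumption | exact p_id | exact p_const _ | refine p_ms ?_ | refine p_qq ?_ ?_ ?_ | refine p_st ?_ ?_ | refine p_ta ?_ ?_ | refine p_tb ?_ ?_ | refine p_kk ?_ ?_ ?_ | refine p_ty ?_ ?_ ?_ | refine p_lk ?_ ?_ ?_ | refine p_pt ?_ | refine p_DD ?_ | refine p_KK ?_ | refine p_al ?_ | refine p_la ?_ ?_ | refine p_lb ?_ ?_ ?_ ?_ ?_ | refine p_fst ?_ | refine p_snd ?_ | refine p_unpair ?_ | refine p_npair ?_ ?_ | refine p_getD _ ?_ ?_ | refine p_length ?_ | refine p_add ?_ ?_)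
  refine s_all hn ?_ ?_
  · have h1 : Primrec (fun x : α × ℕ => v x.1) := hv.comp Primrec.fst
    have h2 : Primrec (fun x : α × ℕ => v' x.1) := hv'.comp Primrec.fst
    have h3 : Primrec (fun x : α × ℕ => u x.1) := hu.comp Primrec.fst
    have h4 : SD (fun x : α × ℕ => ∀ w, ty (v' x.1) x.2 w = ty (v x.1) x.2 w) := by
      refine s_all (hn.comp Primrec.fst) ?_ ?_
      · have h1 : Primrec (fun x : (α × ℕ) × ℕ => v x.1.1) :=
          hv.comp (Primrec.fst.comp Primrec.fst)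
        have h2 : Primrec (fun x : (α × ℕ) × ℕ => v' x.1.1) :=
          hv'.comp (Primrec.fst.comp Primrec.fst)
        (repeat' with_reducible first | assumption | exact p_id | exact p_const _ | refine s_and ?_ ?_ | refine s_or ?_ ?_ | refine s_eq ?_ ?_ | refine s_ne ?_ ?_ | refine s_not_eq ?_ ?_ | refine s_lt ?_ ?_ | refine s_le ?_ ?_ | refine s_not_lt ?_ ?_ | refine s_not_le ?_ ?_ | refine s_not_and ?_ ?_ | refine s_not_or ?_ ?_ | refine s_not_not ?_ | refine s_ball ?_ ?_ | refine s_ball_le ?_ ?_ | refine s_mem ?_ ?_ | refine s_ex ?_ | refine s_imp ?_ ?_ | refine p_ms ?_ | refine p_qq ?_ ?_ ?_ | refine p_st ?_ ?_ | refine p_ta ?_ ?_ | refine p_tb ?_ ?_ | refine p_kk ?_ ?_ ?_ | refine p_ty ?_ ?_ ?_ | refine p_lk ?_ ?_ ?_ | refine p_pt ?_ | refine p_DD ?_ | refine p_KK ?_ | refine p_al ?_ | refine p_la ?_ ?_ | refine p_lb ?_ ?_ ?_ ?_ ?_ | refine p_fst ?_ | refine p_snd ?_)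
      · intro a i hi
        unfold ty
        rw [lk2_zero_right (by omega), lk2_zero_right (by omega)]
    (repeat' with_reducible first | assumption | exact p_id | exact p_const _ | refine s_and ?_ ?_ | refine s_or ?_ ?_ | refine s_eq ?_ ?_ | refine s_ne ?_ ?_ | refine s_not_eq ?_ ?_ | refine s_lt ?_ ?_ | refine s_le ?_ ?_ | refine s_not_lt ?_ ?_ | refine s_not_le ?_ ?_ | refine s_not_and ?_ ?_ | refine s_not_or ?_ ?_ | refine s_not_not ?_ | refine s_ball ?_ ?_ | refine s_ball_le ?_ ?_ | refine s_mem ?_ ?_ | refine s_ex ?_ | refine s_imp ?_ ?_ | refine p_ms ?_ | refine p_qq ?_ ?_ ?_ | refine p_st ?_ ?_ | refine p_ta ?_ ?_ | refine p_tb ?_ ?_ | refine p_kk ?_ ?_ ?_ | refine p_ty ?_ ?_ ?_ | refine p_lk ?_ ?_ ?_ | refine p_pt ?_ | refine p_DD ?_ | refine p_KK ?_ | refine p_al ?_ | refine p_la ?_ ?_ | refine p_lb ?_ ?_ ?_ ?_ ?_ | refine p_fst ?_ | refine p_snd ?_)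
  · intro a i hi _
    unfold tb ty
    rw [lk_zero (by omega), lk_zero (by omega)]
    refine ⟨rfl, fun w => ?_⟩
    rw [lk2_zero_left (by omega), lk2_zero_left (by omega)]

theorem s_PP {e k x : α → ℕ} (he : Primrec e) (hk : Primrec k) (hx : Primrec x) :
    SD (fun a => A.PP (e a) (k a) (x a)) :=
  SD.comp A.sP (f := fun a => (e a, k a, x a)) (by (repeat' with_reducible first | assumption | exact p_id | exact p_const _ | refine p_ms ?_ | refine p_qq ?_ ?_ ?_ | refine p_st ?_ ?_ | refine p_ta ?_ ?_ | refine p_tb ?_ ?_ | refine p_kk ?_ ?_ ?_ | refine p_ty ?_ ?_ ?_ | refine p_lk ?_ ?_ ?_ | refine p_pt ?_ | refine p_DD ?_ | refine p_KK ?_ | refine p_al ?_ | refine p_la ?_ ?_ | refine p_lb ?_ ?_ ?_ ?_ ?_ | refine p_fst ?_ | refine p_snd ?_ | refine p_unpair ?_ | refine p_npair ?_ ?_ | refine p_getD _ ?_ ?_ | refine p_length ?_ | refine p_add ?_ ?_ | refine p_mul ?_ ?_ | refine p_sub ?_ ?_ | refine p_div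 ?_ ?_ | refine p_mod ?_ ?_ | refine p_pow ?_ ?_ | refine p_pair ?_ ?_))
theorem s_QQ {e k x : α → ℕ} (he : Primrec e) (hk : Primrec k) (hx : Primrec x) :
    SD (fun a => A.QQ (e a) (k a) (x a)) :=
  SD.comp A.sQ (f := fun a => (e a, k a, x a)) (by (repeat' with_reducible first | assumption | exact p_id | exact p_const _ | refine p_ms ?_ | refine p_qq ?_ ?_ ?_ | refine p_st ?_ ?_ | refine p_ta ?_ ?_ | refine p_tb ?_ ?_ | refine p_kk ?_ ?_ ?_ | refine p_ty ?_ ?_ ?_ | refine p_lk ?_ ?_ ?_ | refine p_pt ?_ | refine p_DD ?_ | refine p_KK ?_ | refine p_al ?_ | refine p_la ?_ ?_ | refine p_lb ?_ ?_ ?_ ?_ ?_ | refine p_fst ?_ | refine p_snd ?_ | refine p_unpair ?_ | refine p_npair ?_ ?_ | refine p_getD _ ?_ ?_ | refine p_length ?_ | refine p_add ?_ ?_ | refine p_mul ?_ ?_ | refine p_sub ?_ ?_ | refine p_div ?_ ?_ | refine p_mod ?_ ?_ | refine p_pow ?_ ?_ | refine p_pair ?_ ?_))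
theorem s_Ph {j x : α → ℕ} (hj : Primrec j) (hx : Primrec x) :
    SD (fun a => A.Ph (j a) (x a)) :=
  SD.comp A.sPh (f := fun a => (j a, x a)) (by (repeat' with_reducible first | assumption | exact p_id | exact p_const _ | refine p_ms ?_ | refine p_qq ?_ ?_ ?_ | refine p_st ?_ ?_ | refine p_ta ?_ ?_ | refine p_tb ?_ ?_ | refine p_kk ?_ ?_ ?_ | refine p_ty ?_ ?_ ?_ | refine p_lk ?_ ?_ ?_ | refine p_pt ?_ | refine p_DD ?_ | refine p_KK ?_ | refine p_al ?_ | refine p_la ?_ ?_ | refine p_lb ?_ ?_ ?_ ?_ ?_ | refine p_fst ?_ | refine p_snd ?_ | refine p_unpair ?_ | refine p_npair ?_ ?_ | refine p_getD _ ?_ ?_ | refine p_length ?_ | refine p_add ?_ ?_ | refine p_mul ?_ ?_ | refine p_sub ?_ ?_ | refine p_div ?_ ?_ | refine p_mod ?_ ?_ | refine p_pow ?_ ?_ | refine p_pair ?_ ?_))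
theorem s_M {x : α → ℕ} (hx : Primrec x) : SD (fun a => A.M (x a)) :=
  SD.comp A.sM hx

end SDproof2

section SDproof3

variable {α : Type} [Primcodable α]

theorem s_ShL {b e k t w : α → ℕ} (hb : Primrec b) (he : Primrec e) (hk : Primrec k)
    (ht : Primrec t) (hw : Primrec w) : SD (fun a => ShL A (b a) (e a) (k a) (t a) (w a)) := by
  have h : SD (fun x : ℕ × ℕ × ℕ × ℕ × ℕ =>
      ShL A x.1 x.2.1 x.2.2.1 x.2.2.2.1 x.2.2.2.2) := by
    unfold ShL; (repeat' with_reducible first | assumption | exact p_id | exact p_const _ | refine s_Loc ?_ ?_ ?_ | refine s_Lev ?_ ?_ ?_ | refine s_Fra ?_ ?_ ?_ | refine s_Frb ?_ ?_ ?_ | refine s_PP _ ?_ ?_ ?_ | refine s_QQ _ ?_ ?_ ?_ | refine s_Ph _ ?_ ?_ | refine s_M _ ?_ | refine s_and ?_ ?_ | refine s_or ?_ ?_ | refine s_eq ?_ ?_ | refine s_ne ?_ ?_ | refine s_not_eq ?_ ?_ | refine s_lt ?_ ?_ | refine s_le ?_ ?_ | refine s_not_lt ?_ ?_ | refine s_not_le ?_ ?_ | refine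 s_not_and ?_ ?_ | refine s_not_or ?_ ?_ | refine s_not_not ?_ | refine s_ball ?_ ?_ | refine s_ball_le ?_ ?_ | refine s_mem ?_ ?_ | refine s_ex ?_ | refine s_imp ?_ ?_ | refine p_ms ?_ | refine p_qq ?_ ?_ ?_ | refine p_st ?_ ?_ | refine p_ta ?_ ?_ | refine p_tb ?_ ?_ | refine p_kk ?_ ?_ ?_ | refine p_ty ?_ ?_ ?_ | refine p_lk ?_ ?_ ?_ | refine p_pt ?_ | refine p_DD ?_ | refine p_KK ?_ | refine p_al ?_ | refine p_la ?_ ?_ | refine p_lb ?_ ?_ ?_ ?_ ?_ | refine p_fst ?_ | refine p_snd ?_)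
  exact SD.comp h (f := fun a => (b a, e a, k a, t a, w a)) (by (repeat' with_reducible first | assumption | exact p_id | exact p_const _ | refine p_ms ?_ | refine p_qq ?_ ?_ ?_ | refine p_st ?_ ?_ | refine p_ta ?_ ?_ | refine p_tb ?_ ?_ | refine p_kk ?_ ?_ ?_ | refine p_ty ?_ ?_ ?_ | refine p_lk ?_ ?_ ?_ | refine p_pt ?_ | refine p_DD ?_ | refine p_KK ?_ | refine p_al ?_ | refine p_la ?_ ?_ | refine p_lb ?_ ?_ ?_ ?_ ?_ | refine p_fst ?_ | refine p_snd ?_ | refine p_unpair ?_ | refine p_npair ?_ ?_ | refine p_getD _ ?_ ?_ | refine p_length ?_ | refine p_add ?_ ?_ | refine p_mul ?_ ?_ | refine p_sub ?_ ?_ | refine p_div ?_ ?_ | refine p_mod ?_ ?_ | refine p_pow ?_ ?_ | refine p_pair ?_ ?_))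

theorem s_Drp {b e k t w : α → ℕ} (hb : Primrec b) (he : Primrec e) (hk : Primrec k)
    (ht : Primrec t) (hw : Primrec w) : SD (fun a => Drp A (b a) (e a) (k a) (t a) (w a)) := by
  have h : SD (fun x : ℕ × ℕ × ℕ × ℕ × ℕ =>
      Drp A x.1 x.2.1 x.2.2.1 x.2.2.2.1 x.2.2.2.2) := by
    unfold Drp; (repeat' with_reducible first | assumption | exact p_id | exact p_const _ | refine s_Loc ?_ ?_ ?_ | refine s_Lev ?_ ?_ ?_ | refine s_Fra ?_ ?_ ?_ | refine s_Frb ?_ ?_ ?_ | refine s_PP _ ?_ ?_ ?_ | refine s_QQ _ ?_ ?_ ?_ | refine s_Ph _ ?_ ?_ | refine s_M _ ?_ | refine s_and ?_ ?_ | refine s_or ?_ ?_ | refine s_eq ?_ ?_ | refine s_ne ?_ ?_ | refine s_not_eq ?_ ?_ | refine s_lt ?_ ?_ | refine s_le ?_ ?_ | refine s_not_lt ?_ ?_ | refine s_not_le ?_ ?_ | refine s_not_and ?_ ?_ | refine s_not_or ?_ ?_ | refine s_not_not ?_ | refine s_ball ?_ ?_ | refine s_ball_le ?_ ?_ | refine s_mem ?_ ?_ | refine s_ex ?_ | refine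 s_imp ?_ ?_ | refine p_ms ?_ | refine p_qq ?_ ?_ ?_ | refine p_st ?_ ?_ | refine p_ta ?_ ?_ | refine p_tb ?_ ?_ | refine p_kk ?_ ?_ ?_ | refine p_ty ?_ ?_ ?_ | refine p_lk ?_ ?_ ?_ | refine p_pt ?_ | refine p_DD ?_ | refine p_KK ?_ | refine p_al ?_ | refine p_la ?_ ?_ | refine p_lb ?_ ?_ ?_ ?_ ?_ | refine p_fst ?_ | refine p_snd ?_)
  exact SD.comp h (f := fun a => (b a, e a, k a, t a, w a)) (by (repeat' with_reducible first | assumption | exact p_id | exact p_const _ | refine p_ms ?_ | refine p_qq ?_ ?_ ?_ | refine p_st ?_ ?_ | refine p_ta ?_ ?_ | refine p_tb ?_ ?_ | refine p_kk ?_ ?_ ?_ | refine p_ty ?_ ?_ ?_ | refine p_lk ?_ ?_ ?_ | refine p_pt ?_ | refine p_DD ?_ | refine p_KK ?_ | refine p_al ?_ | refine p_la ?_ ?_ | refine p_lb ?_ ?_ ?_ ?_ ?_ | refine p_fst ?_ | refine p_snd ?_ | refine p_unpair ?_ | refine p_npair ?_ ?_ | refine p_getD _ ?_ ?_ | refine p_length ?_ | refine p_add ?_ ?_ | refine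 p_mul ?_ ?_ | refine p_sub ?_ ?_ | refine p_div ?_ ?_ | refine p_mod ?_ ?_ | refine p_pow ?_ ?_ | refine p_pair ?_ ?_))

theorem s_Show {b e k t w : α → ℕ} (hb : Primrec b) (he : Primrec e) (hk : Primrec k)
    (ht : Primrec t) (hw : Primrec w) : SD (fun a => Show A (b a) (e a) (k a) (t a) (w a)) := by
  have h := s_ShL A hb he hk ht hw
  unfold Show
  (repeat' with_reducible first | assumption | exact p_id | exact p_const _ | refine s_Loc ?_ ?_ ?_ | refine s_Lev ?_ ?_ ?_ | refine s_Fra ?_ ?_ ?_ | refine s_Frb ?_ ?_ ?_ | refine s_PP _ ?_ ?_ ?_ | refine s_QQ _ ?_ ?_ ?_ | refine s_Ph _ ?_ ?_ | refine s_M _ ?_ | refine s_and ?_ ?_ | refine s_or ?_ ?_ | refine s_eq ?_ ?_ | refine s_ne ?_ ?_ | refine s_not_eq ?_ ?_ | refine s_lt ?_ ?_ | refine s_le ?_ ?_ | refine s_not_lt ?_ ?_ | refine s_not_le ?_ ?_ | refine s_not_and ?_ ?_ | refine s_not_or ?_ ?_ | refine s_not_not ?_ | refine s_ball ?_ ?_ | refine s_ball_le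 ?_ ?_ | refine s_mem ?_ ?_ | refine s_ex ?_ | refine s_imp ?_ ?_ | refine p_ms ?_ | refine p_qq ?_ ?_ ?_ | refine p_st ?_ ?_ | refine p_ta ?_ ?_ | refine p_tb ?_ ?_ | refine p_kk ?_ ?_ ?_ | refine p_ty ?_ ?_ ?_ | refine p_lk ?_ ?_ ?_ | refine p_pt ?_ | refine p_DD ?_ | refine p_KK ?_ | refine p_al ?_ | refine p_la ?_ ?_)

end SDproof3

theorem s_Step : SD (fun x : (ℕ × ℕ × List ℕ) × List ℕ =>
    Step A x.1.1 x.1.2.1 x.1.2.2 x.2) := by
  unfold Step Ev0 Ev1 Ev2 Ev3 Ev4 Ev5 Inj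
  (repeat' with_reducible first | assumption | exact p_id | exact p_const _ | refine s_ShL _ ?_ ?_ ?_ ?_ ?_ | refine s_Drp _ ?_ ?_ ?_ ?_ ?_ | refine s_Show _ ?_ ?_ ?_ ?_ ?_ | refine s_Loc ?_ ?_ ?_ | refine s_Lev ?_ ?_ ?_ | refine s_Fra ?_ ?_ ?_ | refine s_Frb ?_ ?_ ?_ | refine s_PP _ ?_ ?_ ?_ | refine s_QQ _ ?_ ?_ ?_ | refine s_Ph _ ?_ ?_ | refine s_M _ ?_ | refine s_and ?_ ?_ | refine s_or ?_ ?_ | refine s_eq ?_ ?_ | refine s_ne ?_ ?_ | refine s_not_eq ?_ ?_ | refine s_lt ?_ ?_ | refine s_le ?_ ?_ | refine s_not_lt ?_ ?_ | refine s_not_le ?_ ?_ | refine s_not_and ?_ ?_ | refine s_not_or ?_ ?_ | refine s_not_not ?_ | refine s_ball ?_ ?_ | refine s_ball_le ?_ ?_ | refine s_mem ?_ ?_ | refine s_ex ?_ | refine s_imp ?_ ?_ | refine p_ms ?_ | refine p_qq ?_ ?_ ?_ | refine p_st ?_ ?_ | refine p_ta ?_ ?_ | refine p_tb ?_ ?_ | refine p_kk ?_ ?_ ?_ | refine p_ty ?_ ?_ ?_ | refine p_lk ?_ ?_ ?_ | refine p_pt ?_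 | refine p_DD ?_ | refine p_KK ?_ | refine p_al ?_ | refine p_la ?_ ?_ | refine p_lb ?_ ?_ ?_ ?_ ?_ | refine p_fst ?_ | refine p_snd ?_ | refine p_unpair ?_ | refine p_npair ?_ ?_ | refine p_getD _ ?_ ?_ | refine p_length ?_ | refine p_add ?_ ?_ | refine p_mul ?_ ?_ | refine p_sub ?_ ?_)

theorem s_Init : SD (fun x : ℕ × List ℕ => Init x.1 x.2) := by
  unfold Init
  have h : SD (fun x : ℕ × List ℕ => ∀ u, st x.2 u = 0) := by
    refine s_all (n := fun x : ℕ × List ℕ => x.2.length) (by (repeat' with_reducible first | assumption | exact p_id | exact p_const _ | refine p_ms ?_ | refine p_qq ?_ ?_ ?_ | refine p_st ?_ ?_ | refine p_ta ?_ ?_ | refine p_tb ?_ ?_ | refine p_kk ?_ ?_ ?_ | refine p_ty ?_ ?_ ?_ | refine p_lk ?_ ?_ ?_ | refine p_pt ?_ | refine p_DD ?_ | refine p_KK ?_ | refine p_al ?_ | refine p_la ?_ ?_ | refine p_lb ?_ ?_ ?_ ?_ ?_ | refine p_fst ?_ | refine p_snd ?_ | refine p_unpair ?_ | refine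 p_npair ?_ ?_ | refine p_getD _ ?_ ?_ | refine p_length ?_)) (by (repeat' with_reducible first | assumption | exact p_id | exact p_const _ | refine s_ShL _ ?_ ?_ ?_ ?_ ?_ | refine s_Drp _ ?_ ?_ ?_ ?_ ?_ | refine s_Show _ ?_ ?_ ?_ ?_ ?_ | refine s_Loc ?_ ?_ ?_ | refine s_Lev ?_ ?_ ?_ | refine s_Fra ?_ ?_ ?_ | refine s_Frb ?_ ?_ ?_ | refine s_PP _ ?_ ?_ ?_ | refine s_QQ _ ?_ ?_ ?_ | refine s_Ph _ ?_ ?_ | refine s_M _ ?_ | refine s_and ?_ ?_ | refine s_or ?_ ?_ | refine s_eq ?_ ?_ | refine s_ne ?_ ?_ | refine s_not_eq ?_ ?_ | refine s_lt ?_ ?_ | refine s_le ?_ ?_ | refine s_not_lt ?_ ?_ | refine s_not_le ?_ ?_ | refine s_not_and ?_ ?_ | refine s_not_or ?_ ?_ | refine s_not_not ?_ | refine s_ball ?_ ?_ | refine s_ball_le ?_ ?_ | refine s_mem ?_ ?_ | refine s_ex ?_ | refine s_imp ?_ ?_ | refine p_ms ?_ | refine p_qq ?_ ?_ ?_ | refine p_st ?_ ?_ | refine p_ta ?_ ?_ | refine p_tb ?_ ?_ | refine p_kk ?_ ?_ ?_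 | refine p_ty ?_ ?_ ?_ | refine p_lk ?_ ?_ ?_ | refine p_pt ?_ | refine p_DD ?_ | refine p_KK ?_ | refine p_al ?_ | refine p_la ?_ ?_ | refine p_lb ?_ ?_ ?_ ?_ ?_ | refine p_fst ?_ | refine p_snd ?_)) ?_
    intro a i hi
    unfold st
    rw [lk_zero (by omega)]
  (repeat' with_reducible first | assumption | exact p_id | exact p_const _ | refine s_ShL _ ?_ ?_ ?_ ?_ ?_ | refine s_Drp _ ?_ ?_ ?_ ?_ ?_ | refine s_Show _ ?_ ?_ ?_ ?_ ?_ | refine s_Loc ?_ ?_ ?_ | refine s_Lev ?_ ?_ ?_ | refine s_Fra ?_ ?_ ?_ | refine s_Frb ?_ ?_ ?_ | refine s_PP _ ?_ ?_ ?_ | refine s_QQ _ ?_ ?_ ?_ | refine s_Ph _ ?_ ?_ | refine s_M _ ?_ | refine s_and ?_ ?_ | refine s_or ?_ ?_ | refine s_eq ?_ ?_ | refine s_ne ?_ ?_ | refine s_not_eq ?_ ?_ | refine s_lt ?_ ?_ | refine s_le ?_ ?_ | refine s_not_lt ?_ ?_ | refine s_not_le ?_ ?_ | refine s_not_and ?_ ?_ | refine s_not_or ?_ ?_ | refine s_not_not ?_ | refine s_ball ?_ ?_ | refine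 s_ball_le ?_ ?_ | refine s_mem ?_ ?_ | refine s_ex ?_ | refine s_imp ?_ ?_ | refine p_ms ?_ | refine p_qq ?_ ?_ ?_ | refine p_st ?_ ?_ | refine p_ta ?_ ?_ | refine p_tb ?_ ?_ | refine p_kk ?_ ?_ ?_ | refine p_ty ?_ ?_ ?_ | refine p_lk ?_ ?_ ?_ | refine p_pt ?_ | refine p_DD ?_ | refine p_KK ?_ | refine p_al ?_ | refine p_la ?_ ?_ | refine p_lb ?_ ?_ ?_ ?_ ?_ | refine p_fst ?_ | refine p_snd ?_ | refine p_unpair ?_ | refine p_npair ?_ ?_ | refine p_getD _ ?_ ?_ | refine p_length ?_ | refine p_add ?_ ?_ | refine p_mul ?_ ?_ | refine p_sub ?_ ?_ | refine p_div ?_ ?_ | refine p_mod ?_ ?_ | refine p_pow ?_ ?_)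

end Pool.Agent.H36.MinNum
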