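import Pool.Agent.H36.MinNum.Idx
import Pool.Agent.H36.MinNum.MaxSet

/-!
The main statement: a family with exactly two minimal computable numberings at level two of
the difference hierarchy, which are moreover limit equivalent.
-/

namespace Pool.Agent.H36.MinNum

open Pool.Agent.H36.LFI

def uPP (e k m : ℕ) : Prop :=
  ∃ t, (Nat.Partrec.Code.evaln t (Denumerable.ofNat Nat.Partrec.Code e.unpair.1)
    (Nat.pair k m)).isSome = true
def uQQ (e k m : ℕ) : Prop :=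
  ∃ t, (Nat.Partrec.Code.evaln t (Denumerable.ofNat Nat.Partrec.Code e.unpair.2)
    (Nat.pair k m)).isSome = true
def uPh (j x : ℕ) : Prop :=
  ∃ t, Nat.Partrec.Code.evaln t (Denumerable.ofNat Nat.Partrec.Code j) x = some x

theorem s_uPP : SD (fun x : ℕ × ℕ × ℕ => uPP x.1 x.2.1 x.2.2) := by
  unfold uPP
  refine s_ex (SD.of_primrec ?_)
  exact PrimrecPred.isSome_evaln (c := fun x : (ℕ × ℕ × ℕ) × ℕ =>
      Denumerable.ofNat Nat.Partrec.Code x.1.1.unpair.1) (t := fun x => x.2)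
    (n := fun x => Nat.pair x.1.2.1 x.1.2.2) ((Primrec.ofNat _).comp (by (repeat' with_reducible first | assumption | exact p_id | exact p_const _ | refine p_append ?_ ?_ | refine p_cons ?_ ?_ | refine p_es ?_ ?_ ?_ | refine p_ms ?_ | refine p_qq ?_ ?_ ?_ | refine p_st ?_ ?_ | refine p_ta ?_ ?_ | refine p_tb ?_ ?_ | refine p_kk ?_ ?_ ?_ | refine p_ty ?_ ?_ ?_ | refine p_lk ?_ ?_ ?_ | refine p_pt ?_ | refine p_DD ?_ | refine p_KK ?_ | refine p_al ?_ | refine p_la ?_ ?_ | refine p_lb ?_ ?_ ?_ ?_ ?_ | refine p_fst ?_ | refine p_snd ?_ | refine p_unpair ?_))) (by (repeat' with_reducible first | assumption | exact p_id | exact p_const _ | refine p_append ?_ ?_ | refine p_cons ?_ ?_ | refine p_es ?_ ?_ ?_ | refine p_ms ?_ | refine p_qq ?_ ?_ ?_ | refine p_st ?_ ?_ | refine p_ta ?_ ?_ | refine p_tb ?_ ?_ | refine p_kk ?_ ?_ ?_ | refine p_ty ?_ ?_ ?_ | refine p_lk ?_ ?_ ?_ | refine p_pt ?_ | refine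 p_DD ?_ | refine p_KK ?_ | refine p_al ?_ | refine p_la ?_ ?_ | refine p_lb ?_ ?_ ?_ ?_ ?_ | refine p_fst ?_ | refine p_snd ?_))
    (by (repeat' with_reducible first | assumption | exact p_id | exact p_const _ | refine p_append ?_ ?_ | refine p_cons ?_ ?_ | refine p_es ?_ ?_ ?_ | refine p_ms ?_ | refine p_qq ?_ ?_ ?_ | refine p_st ?_ ?_ | refine p_ta ?_ ?_ | refine p_tb ?_ ?_ | refine p_kk ?_ ?_ ?_ | refine p_ty ?_ ?_ ?_ | refine p_lk ?_ ?_ ?_ | refine p_pt ?_ | refine p_DD ?_ | refine p_KK ?_ | refine p_al ?_ | refine p_la ?_ ?_ | refine p_lb ?_ ?_ ?_ ?_ ?_ | refine p_fst ?_ | refine p_snd ?_ | refine p_unpair ?_ | refine p_npair ?_ ?_))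

theorem s_uQQ : SD (fun x : ℕ × ℕ × ℕ => uQQ x.1 x.2.1 x.2.2) := by
  unfold uQQ
  refine s_ex (SD.of_primrec ?_)
  exact PrimrecPred.isSome_evaln (c := fun x : (ℕ × ℕ × ℕ) × ℕ =>
      Denumerable.ofNat Nat.Partrec.Code x.1.1.unpair.2) (t := fun x => x.2)
    (n := fun x => Nat.pair x.1.2.1 x.1.2.2) ((Primrec.ofNat _).comp (by (repeat' with_reducible first | assumption | exact p_id | exact p_const _ | refine p_append ?_ ?_ | refine p_cons ?_ ?_ | refine p_es ?_ ?_ ?_ | refine p_ms ?_ | refine p_qq ?_ ?_ ?_ | refine p_st ?_ ?_ | refine p_ta ?_ ?_ | refine p_tb ?_ ?_ | refine p_kk ?_ ?_ ?_ | refine p_ty ?_ ?_ ?_ | refine p_lk ?_ ?_ ?_ | refine p_pt ?_ | refine p_DD ?_ | refine p_KK ?_ | refine p_al ?_ | refine p_la ?_ ?_ | refine p_lb ?_ ?_ ?_ ?_ ?_ | refine p_fst ?_ | refine p_snd ?_ | refine p_unpair ?_))) (by (repeat' with_reducible first | assumption | exact p_id | exact p_const _ | refine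 p_append ?_ ?_ | refine p_cons ?_ ?_ | refine p_es ?_ ?_ ?_ | refine p_ms ?_ | refine p_qq ?_ ?_ ?_ | refine p_st ?_ ?_ | refine p_ta ?_ ?_ | refine p_tb ?_ ?_ | refine p_kk ?_ ?_ ?_ | refine p_ty ?_ ?_ ?_ | refine p_lk ?_ ?_ ?_ | refine p_pt ?_ | refine p_DD ?_ | refine p_KK ?_ | refine p_al ?_ | refine p_la ?_ ?_ | refine p_lb ?_ ?_ ?_ ?_ ?_ | refine p_fst ?_ | refine p_snd ?_))
    (by (repeat' with_reducible first | assumption | exact p_id | exact p_const _ | refine p_append ?_ ?_ | refine p_cons ?_ ?_ | refine p_es ?_ ?_ ?_ | refine p_ms ?_ | refine p_qq ?_ ?_ ?_ | refine p_st ?_ ?_ | refine p_ta ?_ ?_ | refine p_tb ?_ ?_ | refine p_kk ?_ ?_ ?_ | refine p_ty ?_ ?_ ?_ | refine p_lk ?_ ?_ ?_ | refine p_pt ?_ | refine p_DD ?_ | refine p_KK ?_ | refine p_al ?_ | refine p_la ?_ ?_ | refine p_lb ?_ ?_ ?_ ?_ ?_ | refine p_fst ?_ | refine p_snd ?_ | refine p_unpair ?_ | refine p_npair ?_ ?_))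

theorem s_uPh : SD (fun x : ℕ × ℕ => uPh x.1 x.2) := by
  unfold uPh
  refine s_ex (SD.of_primrec ?_)
  refine Primrec.eq.comp ?_ ?_
  · exact Nat.Partrec.Code.primrec_evaln.comp (Primrec.pair (Primrec.pair (by (repeat' with_reducible first | assumption | exact p_id | exact p_const _ | refine p_append ?_ ?_ | refine p_cons ?_ ?_ | refine p_es ?_ ?_ ?_ | refine p_ms ?_ | refine p_qq ?_ ?_ ?_ | refine p_st ?_ ?_ | refine p_ta ?_ ?_ | refine p_tb ?_ ?_ | refine p_kk ?_ ?_ ?_ | refine p_ty ?_ ?_ ?_ | refine p_lk ?_ ?_ ?_ | refine p_pt ?_ | refine p_DD ?_ | refine p_KK ?_ | refine p_al ?_ | refine p_la ?_ ?_ | refine p_lb ?_ ?_ ?_ ?_ ?_ | refine p_fst ?_ | refine p_snd ?_))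
      ((Primrec.ofNat _).comp (by (repeat' with_reducible first | assumption | exact p_id | exact p_const _ | refine p_append ?_ ?_ | refine p_cons ?_ ?_ | refine p_es ?_ ?_ ?_ | refine p_ms ?_ | refine p_qq ?_ ?_ ?_ | refine p_st ?_ ?_ | refine p_ta ?_ ?_ | refine p_tb ?_ ?_ | refine p_kk ?_ ?_ ?_ | refine p_ty ?_ ?_ ?_ | refine p_lk ?_ ?_ ?_ | refine p_pt ?_ | refine p_DD ?_ | refine p_KK ?_ | refine p_al ?_ | refine p_la ?_ ?_ | refine p_lb ?_ ?_ ?_ ?_ ?_ | refine p_fst ?_)))) (by (repeat' with_reducible first | assumption | exact p_id | exact p_const _ | refine p_append ?_ ?_ | refine p_cons ?_ ?_ | refine p_es ?_ ?_ ?_ | refine p_ms ?_ | refine p_qq ?_ ?_ ?_ | refine p_st ?_ ?_ | refine p_ta ?_ ?_ | refine p_tb ?_ ?_ | refine p_kk ?_ ?_ ?_ | refine p_ty ?_ ?_ ?_ | refine p_lk ?_ ?_ ?_ | refine p_pt ?_ | refine p_DD ?_ | refine p_KK ?_ | refine p_al ?_ | refine p_la ?_ ?_ | refine p_lb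 ?_ ?_ ?_ ?_ ?_ | refine p_fst ?_ | refine p_snd ?_)))
  · exact Primrec.option_some.comp (by (repeat' with_reducible first | assumption | exact p_id | exact p_const _ | refine p_append ?_ ?_ | refine p_cons ?_ ?_ | refine p_es ?_ ?_ ?_ | refine p_ms ?_ | refine p_qq ?_ ?_ ?_ | refine p_st ?_ ?_ | refine p_ta ?_ ?_ | refine p_tb ?_ ?_ | refine p_kk ?_ ?_ ?_ | refine p_ty ?_ ?_ ?_ | refine p_lk ?_ ?_ ?_ | refine p_pt ?_ | refine p_DD ?_ | refine p_KK ?_ | refine p_al ?_ | refine p_la ?_ ?_ | refine p_lb ?_ ?_ ?_ ?_ ?_ | refine p_fst ?_ | refine p_snd ?_))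

theorem exists_index {P Q : ℕ → Prop} (hP : SD P) (hQ : SD Q) :
    ∃ e, ∀ k m, (uPP e k m ↔ P (Nat.pair k m)) ∧ (uQQ e k m ↔ Q (Nat.pair k m)) := by
  obtain ⟨c, hc⟩ := hP.code
  obtain ⟨c', hc'⟩ := hQ.code
  refine ⟨Nat.pair (Encodable.encode c) (Encodable.encode c'), fun k m => ⟨?_, ?_⟩⟩
  · unfold uPP
    rw [Nat.unpair_pair]
    simp only [Denumerable.ofNat_encode]
    exact (hc _).symm
  · unfold uQQ
    rw [Nat.unpair_pair]
    simp only [Denumerable.ofNat_encode]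
    exact (hc' _).symm

theorem exists_index_fun {f : ℕ → ℕ} (hf : Computable f) : ∃ j, ∀ x, uPh j x ↔ f x = x := by
  obtain ⟨c, hc⟩ := Nat.Partrec.Code.exists_code.1 (Partrec.nat_iff.1 hf.partrec)
  refine ⟨Encodable.encode c, fun x => ?_⟩
  unfold uPh
  rw [Denumerable.ofNat_encode]
  have h1 : x ∈ c.eval x ↔ f x = x := by
    rw [hc]
    simp [eq_comm]
  rw [← h1, Nat.Partrec.Code.evaln_complete]
  simp [Option.mem_def]

def Rd (a b : ℕ → Set ℕ) : Prop := ∃ f : ℕ → ℕ, Computable f ∧ a = b ∘ f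

theorem Rd.trans {a b c : ℕ → Set ℕ} (h : Rd a b) (h' : Rd b c) : Rd a c := by
  obtain ⟨f, hf, rfl⟩ := h
  obtain ⟨g, hg, rfl⟩ := h'
  exact ⟨g ∘ f, hg.comp hf, rfl⟩

theorem main : ∃ (μ : Bool → ℕ → Set ℕ),
    (∀ d, Set.range (μ d) = Set.range (μ false)) ∧
    Set.range (μ false) ⊆ C2 ∧
    (∀ d, {k : ℕ | (Nat.unpair k).2 ∈ μ d (Nat.unpair k).1} ∈ C2) ∧
    (∀ d, ∀ b : ℕ → Set ℕ, Set.range b = Set.range (μ d) → Rd b (μ d) → Rd (μ d) b) ∧
    (∀ d, ∃ f : ℕ → ℕ, (∃ g : ℕ → ℕ → ℕ, Computable₂ g ∧ ∀ x, ∃ s₀, ∀ s, s₀ ≤ s →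
      g x s = f x) ∧ μ (!d) = μ d ∘ f) ∧
    ¬ Rd (μ true) (μ false) ∧
    ∀ γ : ℕ → Set ℕ, Set.range γ = Set.range (μ false) →
      {k : ℕ | (Nat.unpair k).2 ∈ γ (Nat.unpair k).1} ∈ C2 → ∃ d, Rd (μ d) γ := by
  obtain ⟨M, hM, hinf, hcoh⟩ := exists_maximal
  let A : Par :=
    { PP := uPP
      QQ := uQQ
      Ph := uPh
      M := M
      sP := s_uPP
      sQ := s_uQQ
      sPh := s_uPh
      sM := hM }
  obtain ⟨R⟩ := exists_Run A
  refine ⟨R.num, R.range_num, R.range_C2 false, R.num_C2, ?_, ?_, ?_, ?_⟩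
  · rintro d b hb ⟨f, hf, h⟩
    exact R.num_minimal d hb hf h
  · intro d
    obtain ⟨g, hg, hlim⟩ := R.YY_lim
    refine ⟨fun x => R.YY x (R.n x.unpair.1), ⟨g, hg, hlim⟩, ?_⟩
    funext x
    exact (R.num_YY d x).symm
  · rintro ⟨f, hf, h⟩
    obtain ⟨j, hj⟩ := exists_index_fun hf
    exact R.not_red j hinf hj h
  · intro γ hγ hC
    obtain ⟨P, Q, hP, hQ, hPQ⟩ := C2_elim hC
    obtain ⟨e, he⟩ := exists_index hP hQ
    have hTO : R.TO γ e := by
      refine ⟨hγ, fun k m => ?_⟩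
      change _ ↔ uPP e k m ∧ ¬ uQQ e k m
      rw [(he k m).1, (he k m).2, ← hPQ]
      simp
    obtain ⟨d, f, hf, h⟩ := hTO.red hcoh
    exact ⟨d, f, hf, funext fun x => (h x).symm⟩

end Pool.Agent.H36.MinNum
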