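import Pool.Agent.H36.MinNum.Sd

/-!
Event driven computations: iterating a semidecidable step relation until it gets stuck.
-/

namespace Pool.Agent.H36.MinNum

open Pool.Agent.H36.LFI

theorem exists_run {I : ℕ → List ℕ → Prop} {S : ℕ → ℕ → List ℕ → List ℕ → Prop}
    (hI : SD (fun x : ℕ × List ℕ => I x.1 x.2))
    (hS : SD (fun x : (ℕ × ℕ × List ℕ) × List ℕ => S x.1.1 x.1.2.1 x.1.2.2 x.2))
    (h0 : ∀ b, ∃ v, I b v) (K : ℕ → ℕ)
    (hK : ∀ b T (V : ℕ → List ℕ), I b (V 0) → (∀ t < T, S b t (V t) (V (t + 1))) → T ≤ K b) :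
    ∃ (n : ℕ → ℕ) (V : ℕ → ℕ → List ℕ), (∀ b, I b (V b 0)) ∧
      (∀ b, ∀ t < n b, S b t (V b t) (V b (t + 1))) ∧
      (∀ b v, ¬ S b (n b) (V b (n b)) v) ∧
      SD (fun x : ℕ × ℕ × List ℕ => x.2.1 ≤ n x.1 ∧ x.2.2 = V x.1 x.2.1) := by
  classical
  obtain ⟨fI, hfI, hfI1, hfI2⟩ := exists_sel (R := fun b v => I b v) hI
  obtain ⟨fS, hfS, hfS1, hfS2⟩ := exists_sel
    (R := fun (x : ℕ × ℕ × List ℕ) v => S x.1 x.2.1 x.2.2 v) hS
  let run : ℕ → ℕ → Part (List ℕ) := fun b t =>
    Nat.rec (fI b) (fun t IH => IH.bind (fun v => fS (b, t, v))) t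
  have run0 : ∀ b, run b 0 = fI b := fun _ => rfl
  have runS : ∀ b t, run b (t + 1) = (run b t).bind (fun v => fS (b, t, v)) := fun _ _ => rfl
  have hrun : Partrec (fun x : ℕ × ℕ => run x.1 x.2) := by
    refine Partrec.nat_rec (f := fun x : ℕ × ℕ => x.2) (g := fun x : ℕ × ℕ => fI x.1)
      (h := fun (x : ℕ × ℕ) (y : ℕ × List ℕ) => fS (x.1, y.1, y.2)) Computable.snd
      (hfI.comp Computable.fst) ?_
    refine hfS.comp ?_
    have : Primrec (fun p : (ℕ × ℕ) × ℕ × List ℕ => (p.1.1, p.2.1, p.2.2)) := by (repeat' with_reducible first | assumption | exact p_id | exact p_const _ | refine p_fst ?_ | refine p_snd ?_ | refine p_unpair ?_ | refine p_npair ?_ ?_ | refine p_getD _ ?_ ?_ | refine p_length ?_ | refine p_add ?_ ?_ | refine p_mul ?_ ?_ | refine p_sub ?_ ?_ | refine p_div ?_ ?_ | refine p_mod ?_ ?_ | refine p_pow ?_ ?_ | refine p_pair ?_ ?_)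
    exact this.to_comp
  have hdown : ∀ b t, (run b (t + 1)).Dom → (run b t).Dom := by
    intro b t h
    rw [runS] at h
    exact (Part.dom_iff_mem.1 h).elim fun y hy => by
      obtain ⟨v, hv, _⟩ := Part.mem_bind_iff.1 hy
      exact Part.dom_iff_mem.2 ⟨v, hv⟩
  have hdown' : ∀ b t, (run b t).Dom → ∀ s ≤ t, (run b s).Dom := by
    intro b t
    induction t with
    | zero =>
      intro h s hs
      rw [Nat.le_zero.1 hs]
      exact h
    | succ t ih =>
      intro h s hs
      rcases Nat.lt_or_ge s (t + 1) with h1 | h1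
      · exact ih (hdown b t h) s (by omega)
      · have : s = t + 1 := by omega
        rw [this]
        exact h
  let V : ℕ → ℕ → List ℕ := fun b t => Classical.epsilon (fun v => v ∈ run b t)
  have hV : ∀ b t, (run b t).Dom → V b t ∈ run b t := by
    intro b t h
    exact Classical.epsilon_spec (p := fun v => v ∈ run b t) (Part.dom_iff_mem.1 h)
  have hmem : ∀ b t v, v ∈ run b t ↔ (run b t).Dom ∧ v = V b t := by
    intro b t v
    constructor
    · intro h
      have hd := Part.dom_iff_mem.2 ⟨v, h⟩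
      exact ⟨hd, Part.mem_unique h (hV b t hd)⟩
    · rintro ⟨hd, rfl⟩
      exact hV b t hd
  have hV0 : ∀ b, (run b 0).Dom := fun b => hfI2 b (h0 b)
  have hI0 : ∀ b, I b (V b 0) := fun b => hfI1 b _ (hV b 0 (hV0 b))
  have hstep : ∀ b t, (run b (t + 1)).Dom → S b t (V b t) (V b (t + 1)) := by
    intro b t h
    have h1 := hV b (t + 1) h
    rw [runS] at h1
    obtain ⟨v, hv, hv'⟩ := Part.mem_bind_iff.1 h1
    have := ((hmem b t v).1 hv).2
    subst this
    exact hfS1 _ _ hv'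
  have hbd : ∀ b t, (run b t).Dom → t ≤ K b := by
    intro b t h
    refine hK b t (V b) (hI0 b) (fun s hs => hstep b s (hdown' b t h (s + 1) (by omega)))
  have hdec : ∀ b, DecidablePred (fun t => (run b t).Dom) := fun _ _ => Classical.propDecidable _
  let n : ℕ → ℕ := fun b => @Nat.findGreatest (fun t => (run b t).Dom) (hdec b) (K b)
  have hn : ∀ b t, (run b t).Dom ↔ t ≤ n b := by
    intro b t
    constructor
    · intro h
      exact @Nat.le_findGreatest t (fun t => (run b t).Dom) (hdec b) (K b) (hbd b t h) h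
    · intro h
      refine hdown' b (n b) ?_ t h
      exact @Nat.findGreatest_spec 0 (fun t => (run b t).Dom) (hdec b) (K b) (Nat.zero_le _) (hV0 b)
  refine ⟨n, V, hI0, ?_, ?_, ?_⟩
  · intro b t ht
    exact hstep b t ((hn b (t + 1)).2 (by omega))
  · intro b v hv
    have h1 : (fS (b, n b, V b (n b))).Dom := hfS2 (b, n b, V b (n b)) ⟨v, hv⟩
    have h2 : (run b (n b + 1)).Dom := by
      rw [runS, Part.dom_iff_mem]
      obtain ⟨y, hy⟩ := Part.dom_iff_mem.1 h1
      exact ⟨y, Part.mem_bind_iff.2 ⟨_, hV b (n b) ((hn b _).2 le_rfl), hy⟩⟩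
    have := (hn b (n b + 1)).1 h2
    omega
  · refine (SD.graph hrun |>.comp (f := fun x : ℕ × ℕ × List ℕ => ((x.1, x.2.1), x.2.2))
      (by (repeat' with_reducible first | assumption | exact p_id | exact p_const _ | refine p_fst ?_ | refine p_snd ?_ | refine p_unpair ?_ | refine p_npair ?_ ?_ | refine p_getD _ ?_ ?_ | refine p_length ?_ | refine p_add ?_ ?_ | refine p_mul ?_ ?_ | refine p_sub ?_ ?_ | refine p_div ?_ ?_ | refine p_mod ?_ ?_ | refine p_pow ?_ ?_ | refine p_pair ?_ ?_))).of_eq ?_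
    intro x
    exact (hmem _ _ _).trans (and_congr_left' (hn _ _))

end Pool.Agent.H36.MinNum
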