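import Pool.Agent.H36.MinNum.Inv
import Pool.Agent.H36.MinNum.Run

/-!
The number of events of a block is bounded; final states.
-/

namespace Pool.Agent.H36.MinNum

open Pool.Agent.H36.LFI

variable {A : Par}

def wtu (b : ℕ) (v : List ℕ) (u : ℕ) : ℕ := if st v u = 4 then 8 * (b + 1) else st v u

def Phi (b : ℕ) (v : List ℕ) : ℕ :=
  (∑ u ∈ Finset.range (2 * (b + 1)), wtu b v u) + (if ms v = 0 then 8 * (b + 1) else 0)

theorem wtu_le {b : ℕ} {v : List ℕ} {u : ℕ} (h : st v u ≤ 4) : wtu b v u ≤ 8 * (b + 1) := by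
  unfold wtu
  split_ifs <;> omega

theorem Phi_le {b : ℕ} {v : List ℕ} (h : ∀ u, u < 2 * (b + 1) → st v u ≤ 4) :
    Phi b v ≤ KK b := by
  unfold Phi KK
  have h1 : (∑ u ∈ Finset.range (2 * (b + 1)), wtu b v u) ≤ (2 * (b + 1)) * (8 * (b + 1)) := by
    refine (Finset.sum_le_card_nsmul _ _ (8 * (b + 1)) ?_).trans ?_
    · intro u hu
      exact wtu_le (h u (Finset.mem_range.1 hu))
    · simp
  have h2 : (if ms v = 0 then 8 * (b + 1) else 0) ≤ 8 * (b + 1) := by split_ifs <;> omega
  calc _ ≤ (2 * (b + 1)) * (8 * (b + 1)) + 8 * (b + 1) := add_le_add h1 h2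
    _ = _ := by ring

theorem Phi_loc {b : ℕ} {v v' : List ℕ} {u : ℕ} (hu : u < 2 * (b + 1)) (hL : Loc u v v')
    (h : st v u < st v' u) (h' : st v' u < 4) : Phi b v + 1 ≤ Phi b v' := by
  unfold Phi
  rw [hL.1]
  have : (∑ u ∈ Finset.range (2 * (b + 1)), wtu b v u) <
      ∑ u ∈ Finset.range (2 * (b + 1)), wtu b v' u := by
    refine Finset.sum_lt_sum ?_ ⟨u, Finset.mem_range.2 hu, ?_⟩
    · intro w _
      by_cases he : w = u
      · subst he
        unfold wtu
        rw [if_neg (by omega), if_neg (by omega)]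
        omega
      · unfold wtu
        rw [hL.2.2 w he]
    · unfold wtu
      rw [if_neg (by omega), if_neg (by omega)]
      exact h
  omega

theorem Phi_lev_aux {b : ℕ} {v v' : List ℕ} {u : ℕ} (hL : Lev u v v')
    (hst : ∀ w, w < 2 * (b + 1) → st v w ≤ 4) (w : ℕ) (hw : w < 2 * (b + 1)) (hne : w ≠ u) :
    wtu b v w ≤ wtu b v' w + 3 := by
  have h4 := hst w hw
  unfold wtu
  rcases hL w hne with ⟨h1, h2⟩ | ⟨h1, h2⟩
  · rw [if_pos h1, if_pos h2]; omega
  · rw [if_neg h1]
    omega

theorem Phi_step {b t : ℕ} {v v' : List ℕ} (hst : ∀ w, w < 2 * (b + 1) → st v w ≤ 4)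
    (hS : Step A b t v v') : Phi b v + 1 ≤ Phi b v' := by
  rcases hS with ⟨u, hS⟩ | ⟨u, hS⟩ | ⟨u, hS⟩ | ⟨u, hS⟩ | ⟨u, hS⟩ | hS
  · obtain ⟨hu, h0, h1, hL, _⟩ := hS
    exact Phi_loc (by omega) hL (by omega) (by omega)
  · obtain ⟨hu, h0, h1, hL, _⟩ := hS
    exact Phi_loc (by omega) hL (by omega) (by omega)
  · obtain ⟨hu, h0, h1, hL, _⟩ := hS
    exact Phi_loc (by omega) hL (by omega) (by omega)
  · obtain ⟨hu, h3, h4, hL, _, _, _, hms, _⟩ := hS
    unfold Phi
    have h1 : (∑ w ∈ Finset.range (2 * (b + 1)), wtu b v w) + 8 * (b + 1) ≤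
        (∑ w ∈ Finset.range (2 * (b + 1)), wtu b v' w) + 6 * (b + 1) := by
      have e1 : (∑ w ∈ Finset.range (2 * (b + 1)), (if w = u then 8 * (b + 1) else 0)) =
          8 * (b + 1) := by
        rw [Finset.sum_ite_eq', if_pos (Finset.mem_range.2 (by omega))]
      have e2 : (∑ w ∈ Finset.range (2 * (b + 1)), 3) = 6 * (b + 1) := by
        simp
        ring
      calc _ = ∑ w ∈ Finset.range (2 * (b + 1)),
              (wtu b v w + (if w = u then 8 * (b + 1) else 0)) := by
            rw [Finset.sum_add_distrib, e1]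
        _ ≤ ∑ w ∈ Finset.range (2 * (b + 1)), (wtu b v' w + 3) := by
            apply Finset.sum_le_sum
            intro w hw
            rw [Finset.mem_range] at hw
            by_cases he : w = u
            · subst he
              rw [if_pos rfl]
              unfold wtu
              rw [if_pos h4, if_neg (by omega)]
              omega
            · rw [if_neg he]
              exact Phi_lev_aux hL hst w hw he
        _ = _ := by rw [Finset.sum_add_distrib, e2]
    have h2 : (if ms v = 0 then 8 * (b + 1) else 0) ≤ (if ms v' = 0 then 8 * (b + 1) else 0) := by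
      by_cases hz : ms v = 0
      · rw [hz] at hms
        rcases Nat.mul_eq_zero.1 hms.symm with h6 | h6
        · have := DD_pos b
          omega
        · rw [if_pos hz, if_pos h6]
      · rw [if_neg hz]
        exact Nat.zero_le _
    omega
  · obtain ⟨hu1, hu2, h0, h1, hL, _⟩ := hS
    exact Phi_loc (by omega) hL (by omega) (by omega)
  · obtain ⟨hms, hM, hms', hL, hx, hy⟩ := hS
    unfold Phi
    rw [if_neg (by omega), if_pos hms']
    have e2 : (∑ w ∈ Finset.range (2 * (b + 1)), 3) = 6 * (b + 1) := by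
      simp
      ring
    have h1 : (∑ w ∈ Finset.range (2 * (b + 1)), wtu b v w) ≤
        (∑ w ∈ Finset.range (2 * (b + 1)), wtu b v' w) + 6 * (b + 1) := by
      calc _ ≤ ∑ w ∈ Finset.range (2 * (b + 1)), (wtu b v' w + 3) := by
            apply Finset.sum_le_sum
            intro w hw
            rw [Finset.mem_range] at hw
            exact Phi_lev_aux hL hst w hw (by omega)
        _ = _ := by rw [Finset.sum_add_distrib, e2]
    omega

theorem chain_le {b T : ℕ} {V : ℕ → List ℕ} (hI : Init b (V 0))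
    (hS : ∀ t < T, Step A b t (V t) (V (t + 1))) : T ≤ KK b := by
  have hg := gi_all hI hS
  have h : ∀ t ≤ T, t ≤ Phi b (V t) := by
    intro t
    induction t with
    | zero => intro _; omega
    | succ t ih =>
      intro ht
      have h1 := ih (by omega)
      have h2 := Phi_step (hg t (by omega)).stle (hS t (by omega))
      omega
  exact (h T le_rfl).trans (Phi_le (hg T le_rfl).stle)

theorem exists_init (b : ℕ) : ∃ v, Init b v := by
  have hP : 0 < DD b ^ (b + 1) := pow_pos (DD_pos b) _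
  obtain ⟨v, hv⟩ := exists_list (fun a i =>
    if a = 0 ∧ i = 0 then DD b ^ (b + 1) else
    if a = 1 ∧ i.unpair.1 < 2 * (b + 1) ∧ i.unpair.2 < 2 * DD b ^ (b + 1) then
      i.unpair.1 * (2 * DD b ^ (b + 1)) + i.unpair.2 else 0) []
    (Nat.pair 1 (Nat.pair (2 * (b + 1)) (2 * DD b ^ (b + 1))) + 1) (by
      intro a i hi
      have h1 : ¬ (a = 0 ∧ i = 0) := by
        rintro ⟨rfl, rfl⟩
        rw [show Nat.pair 0 0 = 0 from rfl] at hi
        omega
      have h2 : ¬ (a = 1 ∧ i.unpair.1 < 2 * (b + 1) ∧ i.unpair.2 < 2 * DD b ^ (b + 1)) := by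
        rintro ⟨rfl, h3, h4⟩
        have h5 : i < Nat.pair (2 * (b + 1)) (2 * DD b ^ (b + 1)) := by
          have h6 : Nat.pair i.unpair.1 i.unpair.2 < Nat.pair (2 * (b + 1)) i.unpair.2 :=
            Nat.pair_lt_pair_left _ h3
          have h7 : Nat.pair (2 * (b + 1)) i.unpair.2 <
              Nat.pair (2 * (b + 1)) (2 * DD b ^ (b + 1)) := Nat.pair_lt_pair_right _ h4
          rw [Nat.pair_unpair] at h6
          omega
        have h8 := Nat.pair_lt_pair_right 1 h5
        omega
      rw [if_neg h1, if_neg h2]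
      simp [lk])
  refine ⟨v, ?_, ?_, ?_⟩
  · unfold ms
    rw [hv]
    simp
  · intro u hu y hy
    have hms : ms v = DD b ^ (b + 1) := by
      unfold ms
      rw [hv]
      simp
    rw [hms] at hy ⊢
    unfold qq
    rw [hv]
    simp [hu, hy]
  · intro u
    unfold st
    rw [hv]
    simp

/-- The run of all blocks. -/
theorem exists_blocks (A : Par) : ∃ (n : ℕ → ℕ) (V : ℕ → ℕ → List ℕ),
    (∀ b, Init b (V b 0)) ∧ (∀ b, ∀ t < n b, Step A b t (V b t) (V b (t + 1))) ∧
    (∀ b v, ¬ Step A b (n b) (V b (n b)) v) ∧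
    SD (fun x : ℕ × ℕ × List ℕ => x.2.1 ≤ n x.1 ∧ x.2.2 = V x.1 x.2.1) :=
  exists_run (I := Init) (S := Step A) s_Init (s_Step A) exists_init KK
    (fun _ _ _ h1 h2 => chain_le h1 h2)

end Pool.Agent.H36.MinNum
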