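import Pool.Agent.H36.MinNum.Meas

/-!
Existence of successor states.
-/

namespace Pool.Agent.H36.MinNum

open Pool.Agent.H36.LFI

variable {A : Par}

theorem exists_bound (v : List ℕ) : ∃ B, ∀ a i, lk v a i < B := by
  induction v with
  | nil =>
    refine ⟨1, fun a i => ?_⟩
    simp [lk]
  | cons x v ih =>
    obtain ⟨B, hB⟩ := ih
    have hB' : ∀ z, v.getD z 0 < B := by
      intro z
      have := hB z.unpair.1 z.unpair.2
      unfold lk at this
      rwa [Nat.pair_unpair] at this
    refine ⟨max (x + 1) B, fun a i => ?_⟩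
    unfold lk
    cases Nat.pair a i with
    | zero => simp
    | succ z =>
      rw [List.getD_cons_succ]
      exact lt_of_lt_of_le (hB' z) (le_max_right _ _)

theorem exists_loc (v : List ℕ) (u s a1 a2 : ℕ) (f g : ℕ → ℕ) (B : ℕ) :
    ∃ v', Loc u v v' ∧ st v' u = s ∧ Fra u v v' ∧ Frb u v v' ∧ ta v' u = a1 ∧ tb v' u = a2 ∧
      (∀ w, kk v' u w = if w < B then f w else kk v u w) ∧
      (∀ w, ty v' u w = if w < B then g w else ty v u w) := by
  obtain ⟨v', hv'⟩ := exists_list (fun a i =>
    if a = 2 ∧ i = u then s else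
    if a = 3 ∧ i = u then a1 else
    if a = 4 ∧ i = u then a2 else
    if a = 5 ∧ i.unpair.1 = u ∧ i.unpair.2 < B then f i.unpair.2 else
    if a = 6 ∧ i.unpair.1 = u ∧ i.unpair.2 < B then g i.unpair.2 else lk v a i) v
    (Nat.pair 2 u + Nat.pair 3 u + Nat.pair 4 u + Nat.pair 5 (Nat.pair u B) +
      Nat.pair 6 (Nat.pair u B) + 1) (by
      intro a i hi
      have h2 : ¬ (a = 2 ∧ i = u) := by
        rintro ⟨rfl, rfl⟩
        omega
      have h3 : ¬ (a = 3 ∧ i = u) := by
        rintro ⟨rfl, rfl⟩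
        omega
      have h4 : ¬ (a = 4 ∧ i = u) := by
        rintro ⟨rfl, rfl⟩
        omega
      have key : ∀ c, i.unpair.1 = u ∧ i.unpair.2 < B →
          Nat.pair c i < Nat.pair c (Nat.pair u B) := by
        rintro c ⟨rfl, h6⟩
        apply Nat.pair_lt_pair_right
        have := Nat.pair_lt_pair_right i.unpair.1 h6
        rwa [Nat.pair_unpair] at this
      have h5 : ¬ (a = 5 ∧ i.unpair.1 = u ∧ i.unpair.2 < B) := by
        rintro ⟨rfl, h⟩
        have := key 5 h
        omega
      have h6 : ¬ (a = 6 ∧ i.unpair.1 = u ∧ i.unpair.2 < B) := by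
        rintro ⟨rfl, h⟩
        have := key 6 h
        omega
      rw [if_neg h2, if_neg h3, if_neg h4, if_neg h5, if_neg h6])
  refine ⟨v', ⟨?_, ?_, ?_⟩, ?_, ?_, ?_, ?_, ?_, ?_, ?_⟩
  · unfold ms; rw [hv']; simp
  · intro u' y; unfold qq; rw [hv']; simp
  · intro u' hu'; unfold st; rw [hv']; simp [hu']
  · unfold st; rw [hv']; simp
  · intro e he
    unfold ta kk
    refine ⟨?_, fun w => ?_⟩
    · rw [hv']; simp [he]
    · rw [hv']; simp [he]
  · intro e he
    unfold tb ty
    refine ⟨?_, fun w => ?_⟩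
    · rw [hv']; simp [he]
    · rw [hv']; simp [he]
  · unfold ta; rw [hv']; simp
  · unfold tb; rw [hv']; simp
  · intro w; unfold kk; rw [hv']; simp
  · intro w; unfold ty; rw [hv']; simp

theorem exists_lev (b : ℕ) (v : List ℕ) (u m' : ℕ) (q' : ℕ → ℕ → ℕ) :
    ∃ v', Lev u v v' ∧ st v' u = 4 ∧ ms v' = m' ∧
      (∀ u', u' < 2 * (b + 1) → ∀ y, y < 2 * m' → qq v' u' y = q' u' y) ∧
      (∀ e, ta v' e = ta v e ∧ ∀ w, kk v' e w = kk v e w) ∧
      (∀ e, tb v' e = tb v e ∧ ∀ w, ty v' e w = ty v e w) := by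
  obtain ⟨v', hv'⟩ := exists_list (fun a i =>
    if a = 0 ∧ i = 0 then m' else
    if a = 1 ∧ i.unpair.1 < 2 * (b + 1) ∧ i.unpair.2 < 2 * m' then
      q' i.unpair.1 i.unpair.2 else
    if a = 2 then (if i = u then 4 else if lk v 2 i = 4 then 4 else 0)
    else lk v a i) v
    (Nat.pair 1 (Nat.pair (2 * (b + 1)) (2 * m')) + Nat.pair 2 u + Nat.pair 2 v.length + 1) (by
      intro a i hi
      have h0 : ¬ (a = 0 ∧ i = 0) := by
        rintro ⟨rfl, rfl⟩
        rw [show Nat.pair 0 0 = 0 from rfl] at hi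
        omega
      have h1 : ¬ (a = 1 ∧ i.unpair.1 < 2 * (b + 1) ∧ i.unpair.2 < 2 * m') := by
        rintro ⟨rfl, h3, h4⟩
        have h5 : i < Nat.pair (2 * (b + 1)) (2 * m') := by
          have h6 : Nat.pair i.unpair.1 i.unpair.2 < Nat.pair (2 * (b + 1)) i.unpair.2 :=
            Nat.pair_lt_pair_left _ h3
          have h7 : Nat.pair (2 * (b + 1)) i.unpair.2 <
              Nat.pair (2 * (b + 1)) (2 * m') := Nat.pair_lt_pair_right _ h4
          rw [Nat.pair_unpair] at h6
          omega
        have h8 := Nat.pair_lt_pair_right 1 h5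
        omega
      rw [if_neg h0, if_neg h1]
      by_cases h2 : a = 2
      · subst h2
        have hu : i ≠ u := by
          rintro rfl
          omega
        have hl : v.length ≤ i := by
          by_contra hc
          push Not at hc
          have := Nat.pair_lt_pair_right 2 hc
          omega
        rw [if_pos rfl, if_neg hu, lk_zero hl]
        simp
      · rw [if_neg h2])
  refine ⟨v', ?_, ?_, ?_, ?_, ?_, ?_⟩
  · intro w hw
    unfold st
    rw [hv']
    simp only [OfNat.ofNat_ne_zero, false_and, if_false, OfNat.ofNat_ne_one, if_true, if_neg hw]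
    by_cases h4 : lk v 2 w = 4
    · left
      simp [h4]
    · right
      simp [h4]
  · unfold st; rw [hv']; simp
  · unfold ms; rw [hv']; simp
  · intro u' hu' y hy
    unfold qq; rw [hv']; simp [hu', hy]
  · intro e
    unfold ta kk
    refine ⟨?_, fun w => ?_⟩
    · rw [hv']; simp
    · rw [hv']; simp
  · intro e
    unfold tb ty
    refine ⟨?_, fun w => ?_⟩
    · rw [hv']; simp
    · rw [hv']; simp

theorem pos_inj {m u y u' y' : ℕ} (hy : y < m) (hy' : y' < m)
    (h : u * m + y = u' * m + y') : u = u' ∧ y = y' := by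
  have h3 : (u * m + y) / m = u := by
    rw [mul_comm, Nat.mul_add_div (by omega), Nat.div_eq_of_lt hy, add_zero]
  have h4 : (u' * m + y') / m = u' := by
    rw [mul_comm, Nat.mul_add_div (by omega), Nat.div_eq_of_lt hy', add_zero]
  have : u = u' := by rw [← h3, ← h4, h]
  subst this
  exact ⟨rfl, by omega⟩

theorem pos_lt {b m u y : ℕ} (hu : u < 2 * (b + 1)) (hy : y < 2 * m) :
    u * (2 * m) + y < DD b * m := by
  have h1 : (u + 1) * (2 * m) ≤ 2 * (b + 1) * (2 * m) := Nat.mul_le_mul_right _ hu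
  unfold DD
  calc u * (2 * m) + y < u * (2 * m) + 2 * m := by omega
    _ = (u + 1) * (2 * m) := by ring
    _ ≤ 2 * (b + 1) * (2 * m) := h1
    _ = 4 * (b + 1) * m := by ring

/-- choice of a uniform subpool -/
theorem exists_pool {b m m' : ℕ} (g : ℕ → ℕ) (hg : ∀ y, y < 2 * m → g y = 0 ∨ g y = 1)
    (hm : m = DD b * m') : ∃ (T : ℕ) (p : ℕ → ℕ → ℕ),
      (∀ u, u < 2 * (b + 1) → ∀ y, y < 2 * m' → p u y < 2 * m ∧ g (p u y) = T) ∧
      (∀ u, u < 2 * (b + 1) → ∀ y, y < 2 * m' → ∀ u', u' < 2 * (b + 1) → ∀ y', y' < 2 * m' →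
        p u y = p u' y' → u = u' ∧ y = y') := by
  classical
  obtain ⟨T, hT⟩ : ∃ T, m ≤ ((Finset.range (2 * m)).filter (fun y => g y = T)).card := by
    by_contra hcon
    push Not at hcon
    have h0 := hcon 0
    have h1 := hcon 1
    have h2 : (Finset.range (2 * m)).card ≤
        ((Finset.range (2 * m)).filter (fun y => g y = 0)).card +
        ((Finset.range (2 * m)).filter (fun y => g y = 1)).card := by
      rw [← Finset.card_union_of_disjoint]
      · apply Finset.card_le_card
        intro y hy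
        rw [Finset.mem_union, Finset.mem_filter, Finset.mem_filter]
        rcases hg y (Finset.mem_range.1 hy) with h | h
        · exact Or.inl ⟨hy, h⟩
        · exact Or.inr ⟨hy, h⟩
      · rw [Finset.disjoint_left]
        intro y hy hy'
        rw [Finset.mem_filter] at hy hy'
        omega
    rw [Finset.card_range] at h2
    omega
  let emb := Finset.orderEmbOfCardLe _ hT
  refine ⟨T, fun u y => if h : u * (2 * m') + y < m then emb ⟨_, h⟩ else 0, ?_, ?_⟩
  · intro u hu y hy
    have h : u * (2 * m') + y < m := by rw [hm]; exact pos_lt hu hy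
    beta_reduce
    rw [dif_pos h]
    have := Finset.orderEmbOfCardLe_mem _ hT ⟨_, h⟩
    rw [Finset.mem_filter, Finset.mem_range] at this
    exact this
  · intro u hu y hy u' hu' y' hy' he
    have h : u * (2 * m') + y < m := by rw [hm]; exact pos_lt hu hy
    have h' : u' * (2 * m') + y' < m := by rw [hm]; exact pos_lt hu' hy'
    beta_reduce at he
    rw [dif_pos h, dif_pos h'] at he
    have h2 := emb.injective he
    rw [Fin.mk.injEq] at h2
    exact pos_inj hy hy' h2

end Pool.Agent.H36.MinNum
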