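import Pool.Agent.H36.MinNum.Fam

/-!
Correctness of the testers: the opponents compute one of the two numberings.
-/

namespace Pool.Agent.H36.MinNum

open Pool.Agent.H36.LFI

theorem frozen_step {A : Par} {b t : ℕ} {v v' : List ℕ} (hS : Step A b t v v') {e : ℕ}
    (he : e < b + 1) (h : st v e = 4) : st v' e = 4 ∧ ta v' e = ta v e ∧
      (∀ w, kk v' e w = kk v e w) ∧ tb v' e = tb v e ∧ ∀ w, ty v' e w = ty v e w := by
  rcases hS with ⟨u, hS⟩ | ⟨u, hS⟩ | ⟨u, hS⟩ | ⟨u, hS⟩ | ⟨u, hS⟩ | hS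
  · obtain ⟨hu, h0, h1, hL, hx, hy, _⟩ := hS
    have hne : e ≠ u := by rintro rfl; omega
    exact ⟨by rw [hL.2.2 e hne, h], (hx e hne).1, (hx e hne).2, (hy e (by omega)).1,
      (hy e (by omega)).2⟩
  · obtain ⟨hu, h0, h1, hL, hx, hy, _⟩ := hS
    have hne : e ≠ u := by rintro rfl; omega
    exact ⟨by rw [hL.2.2 e hne, h], (hx e (by omega)).1, (hx e (by omega)).2,
      (hy e (by omega)).1, (hy e (by omega)).2⟩
  · obtain ⟨hu, h0, h1, hL, hx, hy, _⟩ := hS
    have hne : e ≠ u := by rintro rfl; omega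
    exact ⟨by rw [hL.2.2 e hne, h], (hx e (by omega)).1, (hx e (by omega)).2,
      (hy e hne).1, (hy e hne).2⟩
  · obtain ⟨hu, h0, h1, hL, hx, hy, _⟩ := hS
    have hne : e ≠ u := by rintro rfl; omega
    refine ⟨?_, (hx e (by omega)).1, (hx e (by omega)).2,
      (hy e (by omega)).1, (hy e (by omega)).2⟩
    rcases hL e hne with ⟨_, h5⟩ | ⟨h5, _⟩
    · exact h5
    · exact absurd h h5
  · obtain ⟨hu, hu', h0, h1, hL, hx, hy, _⟩ := hS
    have hne : e ≠ u := by rintro rfl; omega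
    exact ⟨by rw [hL.2.2 e hne, h], (hx e (by omega)).1, (hx e (by omega)).2,
      (hy e (by omega)).1, (hy e (by omega)).2⟩
  · obtain ⟨_, _, _, hL, hx, hy⟩ := hS
    refine ⟨?_, (hx e (by omega)).1, (hx e (by omega)).2,
      (hy e (by omega)).1, (hy e (by omega)).2⟩
    rcases hL e (by omega) with ⟨_, h5⟩ | ⟨h5, _⟩
    · exact h5
    · exact absurd h h5

namespace Run

variable {A : Par} (R : Run A)

theorem frozen {b e s : ℕ} (he : e < b + 1) (h : st (R.V b s) e = 4) : ∀ t, s ≤ t → t ≤ R.n b →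
    st (R.V b t) e = 4 ∧ ta (R.V b t) e = ta (R.V b s) e ∧
      (∀ w, kk (R.V b t) e w = kk (R.V b s) e w) ∧ tb (R.V b t) e = tb (R.V b s) e ∧
      ∀ w, ty (R.V b t) e w = ty (R.V b s) e w := by
  intro t hst
  induction t, hst using Nat.le_induction with
  | base => intro _; exact ⟨h, rfl, fun _ => rfl, rfl, fun _ => rfl⟩
  | succ t hst ih =>
    intro ht
    obtain ⟨h1, h2, h3, h4, h5⟩ := ih (by omega)
    obtain ⟨g1, g2, g3, g4, g5⟩ := frozen_step (R.hS b t (by omega)) he h1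
    exact ⟨g1, g2.trans h2, fun w => (g3 w).trans (h3 w), g4.trans h4,
      fun w => (g5 w).trans (h5 w)⟩

/-- the index computed for a slot by the tester `e` -/
noncomputable def kx (e b i : ℕ) : ℕ :=
  kk (R.fv b) e (cm b (R.V b (ta (R.fv b) e)) i)

variable {R}

namespace TO

variable {γ : ℕ → Set ℕ} {e : ℕ} (h : R.TO γ e)

include h

theorem t1 {b : ℕ} (hb : e < b + 1) : T1 A b (R.V b) (R.n b) e :=
  ((R.gf b).ti e hb).h1 (by have := h.joined hb; unfold fv at this; omega)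

theorem t2 {b : ℕ} (hb : e < b + 1) : ∀ w, Cl b (R.V b (ta (R.fv b) e)) w →
    Drp A b e (kk (R.fv b) e w) (ta (R.fv b) e) w :=
  ((R.gf b).ti e hb).h2 (by have := h.joined hb; unfold fv at this; omega)

theorem t3 {b : ℕ} (hb : e < b + 1) : T3 A b (R.V b) (R.n b) e :=
  ((R.gf b).ti e hb).h3 (by have := h.joined hb; unfold fv at this; omega)

theorem t4 {b : ℕ} (hb : e < b + 1) : T4 A b (R.V b) (R.n b) e :=
  ((R.gf b).ti e hb).h4 (by have := h.joined hb; unfold fv at this; omega)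

theorem inj_ta {b : ℕ} (hb : e < b + 1) : Inj b (R.V b (ta (R.fv b) e)) :=
  (R.gi b (le_of_lt (h.t1 hb).a1)).inj

theorem inj_tb {b : ℕ} (hb : e < b + 1) : Inj b (R.V b (tb (R.fv b) e)) :=
  (R.gi b (le_of_lt (h.t3 hb).c2)).inj

theorem in_pool {b i : ℕ} (hb : e < b + 1) (hi : Al b (R.fv b) i) :
    ∃ y, y < 2 * ms (R.V b (ta (R.fv b) e)) ∧ qq (R.V b (ta (R.fv b) e)) e y = i :=
  (h.t1 hb).a5 i (Or.inl ⟨h.joined hb, hi⟩)

theorem kx_dead {b i : ℕ} (hb : e < b + 1) (hi : ¬ Al b (R.fv b) i) :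
    γ (R.kx e b i) = R.SetOf b 0 := by
  have hc : Cl b (R.V b (ta (R.fv b) e)) (cm b (R.V b (ta (R.fv b) e)) i) :=
    cs_Cl (h.inj_ta hb) false i
  have hj := h.joined hb
  obtain ⟨w', hw', hk⟩ := h.reg hb le_rfl (by unfold fv at hj; omega) hc
  obtain ⟨d, j, hj1, hj2⟩ := h.ep hb hk (h.t2 hb _ hc) (Or.inr ⟨hj, Or.inl rfl⟩)
  suffices hjd : ¬ Al b (R.fv b) j by
    rw [cs_dead d hjd] at hj2
    subst hj2
    exact hk
  intro hja
  obtain ⟨y, hy, hq⟩ := h.in_pool hb hja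
  have hns : ¬ Sw (R.V b (ta (R.fv b) e)) e := by
    have := (h.t1 hb).a2
    change st (R.V b (ta (R.fv b) e)) e = 0 at this
    rintro (h | h) <;> omega
  have hja' : Al b (R.V b (ta (R.fv b) e)) j := ⟨e, by omega, y, hy, hq⟩
  have h1 : cs b (R.V b (ta (R.fv b) e)) d j = j + 1 := by
    cases d
    · exact cm_alive hja'
    · rw [cs_true, ← hq]
      exact cn_nsw (h.inj_ta hb) (by omega) hy hns
  rw [h1] at hj1
  by_cases hia : Al b (R.V b (ta (R.fv b) e)) i
  · rw [cm_alive hia] at hj1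
    have : j = i := by omega
    subst this
    exact hi hja
  · rw [cm_dead hia] at hj1
    omega

theorem kx_test {b i : ℕ} (hb : e < b + 1) (hi : Al b (R.fv b) i) :
    ∃ (d : Bool), γ (R.kx e b i) = R.SetOf b (cs b (R.fv b) d i) := by
  have hc : Cl b (R.V b (ta (R.fv b) e)) (cm b (R.V b (ta (R.fv b) e)) i) :=
    cs_Cl (h.inj_ta hb) false i
  have hj := h.joined hb
  obtain ⟨w', hw', hk⟩ := h.reg hb le_rfl (by unfold fv at hj; omega) hc
  obtain ⟨d, j, hj1, hj2⟩ := h.ep hb hk (h.t2 hb _ hc) (Or.inr ⟨hj, Or.inl rfl⟩)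
  obtain ⟨y, hy, hq⟩ := h.in_pool hb hi
  have hia : Al b (R.V b (ta (R.fv b) e)) i := ⟨e, by omega, y, hy, hq⟩
  rw [cm_alive hia, ← hq] at hj1
  have h2 := cls_of_test (w' := w') (γ := γ) h hb (le_of_lt (h.t1 hb).a1) (h.t1 hb).a2 hy
    hj1 hj2
  change w' = cs b (R.fv b) d (qq (R.V b (ta (R.fv b) e)) e y) at h2
  rw [hq] at h2
  refine ⟨d, ?_⟩
  rw [← h2]
  exact hk

theorem ty_cases {b i : ℕ} (hb : e < b + 1) (hi : Al b (R.fv b) i) :
    ty (R.fv b) e i = 0 ∨ ty (R.fv b) e i = 1 := by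
  obtain ⟨y, _, _, ⟨h1, _⟩ | ⟨h1, _⟩⟩ := (h.t4 hb).d1 i hi
  · exact Or.inl h1
  · exact Or.inr h1

/-- the second test -/
theorem kx_second {b i : ℕ} (hb : e < b + 1) (hi : Al b (R.fv b) i) :
    γ (R.kx e b i) = R.SetOf b (cs b (R.fv b) (decide (ty (R.fv b) e i = 1)) i) := by
  obtain ⟨d', hk⟩ := h.kx_test hb hi
  obtain ⟨y, hy, hq⟩ := h.in_pool hb hi
  have hia : Al b (R.V b (ta (R.fv b) e)) i := ⟨e, by omega, y, hy, hq⟩
  have hkx : R.kx e b i = kk (R.fv b) e (i + 1) := by unfold kx; rw [cm_alive hia]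
  have hsw : Sw (R.V b (tb (R.fv b) e)) e := Or.inl (h.t3 hb).c3
  have hIf := (R.gf b).inj
  change Inj b (R.fv b) at hIf
  have hIt := h.inj_tb hb
  obtain ⟨y, hy, hq, hh⟩ := (h.t4 hb).d1 i hi
  change y < 2 * ms (R.V b (tb (R.fv b) e)) at hy
  change qq (R.V b (tb (R.fv b) e)) e y = i at hq
  have hcp := cn_sw hIt (u := e) (by omega) (pt_lt hy) hsw
  rw [pt_pt, hq] at hcp
  have hci := cn_sw hIt (u := e) (by omega) hy hsw
  rw [hq] at hci
  have hap : Al b (R.V b (tb (R.fv b) e)) (qq (R.V b (tb (R.fv b) e)) e (pt y)) :=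
    Al_qq (by omega) (pt_lt hy)
  have hai : Al b (R.V b (tb (R.fv b) e)) i := ⟨e, by omega, y, hy, hq⟩
  have hne : qq (R.V b (tb (R.fv b) e)) e (pt y) ≠ i := by
    intro he
    rw [← hq] at he
    have := (hIt e (by omega) _ (pt_lt hy) e (by omega) _ hy he).2
    exact pt_ne y this
  rcases hh with ⟨h1, hD⟩ | ⟨h1, hD⟩
  · change ty (R.fv b) e i = 0 at h1
    change Drp A b e (kk (R.fv b) e (i + 1)) (tb (R.fv b) e) (i + 1) at hD
    rw [← hkx] at hD
    have hdec : decide (ty (R.fv b) e i = 1) = false := by simp [h1]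
    rw [hdec]
    obtain ⟨d, j, hj1, hj2⟩ := h.ep hb hk hD (Or.inr ⟨h.joined hb, Or.inr rfl⟩)
    cases d
    · rw [cs_false] at hj1
      unfold cm at hj1
      split_ifs at hj1 with ha
      have : j = i := by omega
      subst this
      rw [hk, ← hj2]
    · rw [cs_true, ← hcp] at hj1
      have hj := (cn_inj hIt hap hj1.symm).symm
      cases d'
      · exact hk
      · rw [cs_true, cs_true] at hj2
        have := cn_inj hIf hi hj2.symm
        omega
  · change ty (R.fv b) e i = 1 at h1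
    change Drp A b e (kk (R.fv b) e (i + 1)) (tb (R.fv b) e)
      (qq (R.V b (tb (R.fv b) e)) e (pt y) + 1) at hD
    rw [← hkx] at hD
    have hdec : decide (ty (R.fv b) e i = 1) = true := by simp [h1]
    rw [hdec]
    obtain ⟨d, j, hj1, hj2⟩ := h.ep hb hk hD (Or.inr ⟨h.joined hb, Or.inr rfl⟩)
    cases d
    · rw [cs_false] at hj1
      unfold cm at hj1
      split_ifs at hj1 with ha
      have hj : j = qq (R.V b (tb (R.fv b) e)) e (pt y) := by omega
      cases d'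
      · rw [cs_false, cs_false, cm_alive hi] at hj2
        unfold cm at hj2
        split_ifs at hj2 with ha'
        omega
      · exact hk
    · rw [cs_true, ← hci] at hj1
      have hj := (cn_inj hIt hai hj1.symm).symm
      subst hj
      rw [hk, ← hj2]

/-- every block is computed with respect to one of the two numberings -/
theorem block {b : ℕ} (hb : e < b + 1) (d : Bool)
    (hd : ∀ i, Al b (R.fv b) i → ty (R.fv b) e i = if d then 1 else 0) (i : ℕ) :
    γ (R.kx e b i) = R.num d (Nat.pair b i) := by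
  rw [R.num_pair]
  by_cases hi : Al b (R.fv b) i
  · rw [h.kx_second hb hi, hd i hi]
    cases d <;> simp
  · rw [h.kx_dead hb hi, cs_dead d hi]

end TO

end Run

end Pool.Agent.H36.MinNum
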