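import Pool.Agent.H36.MinNum.Ne

/-!
Every computable numbering of the family reduces one of the two numberings.
-/

namespace Pool.Agent.H36.MinNum

open Pool.Agent.H36.LFI

section SDc

variable {α : Type} [Primcodable α]

theorem s_Al {b i : α → ℕ} {v : α → List ℕ} (hb : Primrec b) (hv : Primrec v)
    (hi : Primrec i) : SD (fun a => Al (b a) (v a) (i a)) := by
  have h : SD (fun x : ℕ × List ℕ × ℕ => Al x.1 x.2.1 x.2.2) := by
    unfold Al; (repeat' with_reducible first | assumption | exact p_id | exact p_const _ | refine s_ShL _ ?_ ?_ ?_ ?_ ?_ | refine s_Drp _ ?_ ?_ ?_ ?_ ?_ | refine s_Show _ ?_ ?_ ?_ ?_ ?_ | refine s_Loc ?_ ?_ ?_ | refine s_Lev ?_ ?_ ?_ | refine s_Fra ?_ ?_ ?_ | refine s_Frb ?_ ?_ ?_ | refine s_PP _ ?_ ?_ ?_ | refine s_QQ _ ?_ ?_ ?_ | refine s_Ph _ ?_ ?_ | refine s_M _ ?_ | refine s_and ?_ ?_ | refine s_or ?_ ?_ | refine s_eq ?_ ?_ | refine s_ne ?_ ?_ |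 refine s_not_eq ?_ ?_ | refine s_lt ?_ ?_ | refine s_le ?_ ?_ | refine s_not_lt ?_ ?_ | refine s_not_le ?_ ?_ | refine s_not_and ?_ ?_ | refine s_not_or ?_ ?_ | refine s_not_not ?_ | refine s_ball ?_ ?_ | refine s_ball_le ?_ ?_ | refine s_mem ?_ ?_ | refine s_ex ?_ | refine s_imp ?_ ?_ | refine p_ms ?_ | refine p_qq ?_ ?_ ?_ | refine p_st ?_ ?_ | refine p_ta ?_ ?_ | refine p_tb ?_ ?_ | refine p_kk ?_ ?_ ?_ | refine p_ty ?_ ?_ ?_ | refine p_lk ?_ ?_ ?_ | refine p_pt ?_ | refine p_DD ?_ | refine p_KK ?_ | refine p_al ?_ | refine p_la ?_ ?_ | refine p_lb ?_ ?_ ?_ ?_ ?_ | refine p_fst ?_ | refine p_snd ?_ | refine p_unpair ?_ | refine p_npair ?_ ?_ | refine p_getD _ ?_ ?_ | refine p_length ?_ | refine p_add ?_ ?_ | refine p_mul ?_ ?_)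
  exact SD.comp h (f := fun a => (b a, v a, i a)) (by (repeat' with_reducible first | assumption | exact p_id | exact p_const _ | refine p_ms ?_ | refine p_qq ?_ ?_ ?_ | refine p_st ?_ ?_ | refine p_ta ?_ ?_ | refine p_tb ?_ ?_ | refine p_kk ?_ ?_ ?_ | refine p_ty ?_ ?_ ?_ | refine p_lk ?_ ?_ ?_ | refine p_pt ?_ | refine p_DD ?_ | refine p_KK ?_ | refine p_al ?_ | refine p_la ?_ ?_ | refine p_lb ?_ ?_ ?_ ?_ ?_ | refine p_fst ?_ | refine p_snd ?_ | refine p_unpair ?_ | refine p_npair ?_ ?_ | refine p_getD _ ?_ ?_ | refine p_length ?_ | refine p_add ?_ ?_ | refine p_mul ?_ ?_ | refine p_sub ?_ ?_ | refine p_div ?_ ?_ | refine p_mod ?_ ?_ | refine p_pow ?_ ?_ | refine p_pair ?_ ?_))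

theorem s_not_Al {b i : α → ℕ} {v : α → List ℕ} (hb : Primrec b) (hv : Primrec v)
    (hi : Primrec i) : SD (fun a => ¬ Al (b a) (v a) (i a)) := by
  have h : SD (fun x : ℕ × List ℕ × ℕ => ∀ u, u < 2 * (x.1 + 1) → ∀ y, y < 2 * ms x.2.1 →
      qq x.2.1 u y ≠ x.2.2) := by
    (repeat' with_reducible first | assumption | exact p_id | exact p_const _ | refine s_ShL _ ?_ ?_ ?_ ?_ ?_ | refine s_Drp _ ?_ ?_ ?_ ?_ ?_ | refine s_Show _ ?_ ?_ ?_ ?_ ?_ | refine s_Loc ?_ ?_ ?_ | refine s_Lev ?_ ?_ ?_ | refine s_Fra ?_ ?_ ?_ | refine s_Frb ?_ ?_ ?_ | refine s_PP _ ?_ ?_ ?_ | refine s_QQ _ ?_ ?_ ?_ | refine s_Ph _ ?_ ?_ | refine s_M _ ?_ | refine s_and ?_ ?_ | refine s_or ?_ ?_ | refine s_eq ?_ ?_ | refine s_ne ?_ ?_ | refine s_not_eq ?_ ?_ | refine s_lt ?_ ?_ | refine s_le ?_ ?_ | refine s_not_lt ?_ ?_ | refine s_not_le ?_ ?_ | refine s_not_and ?_ ?_ | refine s_not_or ?_ ?_ | refine s_not_not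 ?_ | refine s_ball ?_ ?_ | refine s_ball_le ?_ ?_ | refine s_mem ?_ ?_ | refine s_ex ?_ | refine s_imp ?_ ?_ | refine p_ms ?_ | refine p_qq ?_ ?_ ?_ | refine p_st ?_ ?_ | refine p_ta ?_ ?_ | refine p_tb ?_ ?_ | refine p_kk ?_ ?_ ?_ | refine p_ty ?_ ?_ ?_ | refine p_lk ?_ ?_ ?_ | refine p_pt ?_ | refine p_DD ?_ | refine p_KK ?_ | refine p_al ?_ | refine p_la ?_ ?_ | refine p_lb ?_ ?_ ?_ ?_ ?_ | refine p_fst ?_ | refine p_snd ?_ | refine p_unpair ?_ | refine p_npair ?_ ?_ | refine p_getD _ ?_ ?_ | refine p_length ?_ | refine p_add ?_ ?_ | refine p_mul ?_ ?_)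
  refine (SD.comp h (f := fun a => (b a, v a, i a)) (by (repeat' with_reducible first | assumption | exact p_id | exact p_const _ | refine p_ms ?_ | refine p_qq ?_ ?_ ?_ | refine p_st ?_ ?_ | refine p_ta ?_ ?_ | refine p_tb ?_ ?_ | refine p_kk ?_ ?_ ?_ | refine p_ty ?_ ?_ ?_ | refine p_lk ?_ ?_ ?_ | refine p_pt ?_ | refine p_DD ?_ | refine p_KK ?_ | refine p_al ?_ | refine p_la ?_ ?_ | refine p_lb ?_ ?_ ?_ ?_ ?_ | refine p_fst ?_ | refine p_snd ?_ | refine p_unpair ?_ | refine p_npair ?_ ?_ | refine p_getD _ ?_ ?_ | refine p_length ?_ | refine p_add ?_ ?_ | refine p_mul ?_ ?_ | refine p_sub ?_ ?_ | refine p_div ?_ ?_ | refine p_mod ?_ ?_ | refine p_pow ?_ ?_ | refine p_pair ?_ ?_))).of_eq ?_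
  intro a
  unfold Al
  constructor
  · rintro h ⟨u, hu, y, hy, hq⟩
    exact h u hu y hy hq
  · intro h u hu y hy hq
    exact h ⟨u, hu, y, hy, hq⟩

/-- the state at a time -/
def Run.At {A : Par} (R : Run A) (b s : ℕ) (v : List ℕ) : Prop := s ≤ R.n b ∧ v = R.V b s

theorem s_At {A : Par} (R : Run A) {b s : α → ℕ} {v : α → List ℕ} (hb : Primrec b)
    (hs : Primrec s) (hv : Primrec v) : SD (fun a => R.At (b a) (s a) (v a)) :=
  SD.comp R.sd (f := fun a => (b a, s a, v a)) (by (repeat' with_reducible first | assumption | exact p_id | exact p_const _ | refine p_ms ?_ | refine p_qq ?_ ?_ ?_ | refine p_st ?_ ?_ | refine p_ta ?_ ?_ | refine p_tb ?_ ?_ | refine p_kk ?_ ?_ ?_ | refine p_ty ?_ ?_ ?_ | refine p_lk ?_ ?_ ?_ | refine p_pt ?_ | refine p_DD ?_ | refine p_KK ?_ | refine p_al ?_ | refine p_la ?_ ?_ | refine p_lb ?_ ?_ ?_ ?_ ?_ | refine p_fst ?_ | refine p_snd ?_ | refine p_unpair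 ?_ | refine p_npair ?_ ?_ | refine p_getD _ ?_ ?_ | refine p_length ?_ | refine p_add ?_ ?_ | refine p_mul ?_ ?_ | refine p_sub ?_ ?_ | refine p_div ?_ ?_ | refine p_mod ?_ ?_ | refine p_pow ?_ ?_ | refine p_pair ?_ ?_))

end SDc

namespace Run

variable {A : Par} (R : Run A)

def Fx (e x k : ℕ) : Prop :=
  ∃ (s : ℕ) (v va : List ℕ) (w : ℕ), R.At x.unpair.1 s v ∧ st v e = 4 ∧
    R.At x.unpair.1 (ta v e) va ∧
    ((Al x.unpair.1 va x.unpair.2 ∧ w = x.unpair.2 + 1) ∨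
      (¬ Al x.unpair.1 va x.unpair.2 ∧ w = 0)) ∧ k = kk v e w

theorem s_Fx (e : ℕ) : SD (fun x : ℕ × ℕ => R.Fx e x.1 x.2) := by
  unfold Fx
  (repeat' with_reducible first | assumption | exact p_id | exact p_const _ | refine s_Al ?_ ?_ ?_ | refine s_not_Al ?_ ?_ ?_ | refine s_At _ ?_ ?_ ?_ | refine s_ShL _ ?_ ?_ ?_ ?_ ?_ | refine s_Drp _ ?_ ?_ ?_ ?_ ?_ | refine s_Show _ ?_ ?_ ?_ ?_ ?_ | refine s_Loc ?_ ?_ ?_ | refine s_Lev ?_ ?_ ?_ | refine s_Fra ?_ ?_ ?_ | refine s_Frb ?_ ?_ ?_ | refine s_PP _ ?_ ?_ ?_ | refine s_QQ _ ?_ ?_ ?_ | refine s_Ph _ ?_ ?_ | refine s_M _ ?_ | refine s_and ?_ ?_ | refine s_or ?_ ?_ | refine s_eq ?_ ?_ | refine s_ne ?_ ?_ | refine s_not_eq ?_ ?_ | refine s_lt ?_ ?_ | refine s_le ?_ ?_ | refine s_not_lt ?_ ?_ | refine s_not_le ?_ ?_ | refine s_not_and ?_ ?_ | refine s_not_or ?_ ?_ | refine s_not_not ?_ | refine s_ball ?_ ?_ | refine s_ball_le ?_ ?_ |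 refine s_mem ?_ ?_ | refine s_ex ?_ | refine s_imp ?_ ?_ | refine p_ms ?_ | refine p_qq ?_ ?_ ?_ | refine p_st ?_ ?_ | refine p_ta ?_ ?_ | refine p_tb ?_ ?_ | refine p_kk ?_ ?_ ?_ | refine p_ty ?_ ?_ ?_ | refine p_lk ?_ ?_ ?_ | refine p_pt ?_ | refine p_DD ?_ | refine p_KK ?_ | refine p_al ?_ | refine p_la ?_ ?_ | refine p_lb ?_ ?_ ?_ ?_ ?_ | refine p_fst ?_ | refine p_snd ?_ | refine p_unpair ?_ | refine p_npair ?_ ?_ | refine p_getD _ ?_ ?_ | refine p_length ?_ | refine p_add ?_ ?_)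

theorem Fx_iff {e b i k : ℕ} (he : e < b + 1) (hj : st (R.fv b) e = 4)
    : R.Fx e (Nat.pair b i) k ↔ k = R.kx e b i := by
  have hta : ta (R.fv b) e ≤ R.n b :=
    le_of_lt (((R.gf b).ti e he).h1 (by unfold fv at hj; omega)).a1
  unfold Fx
  simp only [Nat.unpair_pair]
  constructor
  · rintro ⟨s, v, va, w, ⟨hs, rfl⟩, h4, ⟨hs', rfl⟩, hw, rfl⟩
    obtain ⟨_, g2, g3, _, _⟩ := R.frozen he h4 (R.n b) hs le_rfl
    unfold kx
    change ta (R.fv b) e = _ at g2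
    rw [g2]
    change _ = kk (R.V b (R.n b)) e _
    rw [g3]
    congr 1
    rcases hw with ⟨h1, rfl⟩ | ⟨h1, rfl⟩
    · rw [cm_alive h1]
    · rw [cm_dead h1]
  · rintro rfl
    refine ⟨R.n b, R.fv b, R.V b (ta (R.fv b) e), cm b (R.V b (ta (R.fv b) e)) i,
      ⟨le_rfl, rfl⟩, hj, ⟨hta, rfl⟩, ?_, rfl⟩
    by_cases h : Al b (R.V b (ta (R.fv b) e)) i
    · exact Or.inl ⟨h, cm_alive h⟩
    · exact Or.inr ⟨h, cm_dead h⟩

def Te (e b : ℕ) : Prop :=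
  ∃ (s : ℕ) (v : List ℕ) (u y : ℕ), R.At b s v ∧ st v e = 4 ∧ u < 2 * (b + 1) ∧
    y < 2 * ms v ∧ ty v e (qq v u y) = 1

theorem s_Te (e : ℕ) : SD (fun b : ℕ => R.Te e b) := by
  unfold Te
  (repeat' with_reducible first | assumption | exact p_id | exact p_const _ | refine s_Al ?_ ?_ ?_ | refine s_not_Al ?_ ?_ ?_ | refine s_At _ ?_ ?_ ?_ | refine s_ShL _ ?_ ?_ ?_ ?_ ?_ | refine s_Drp _ ?_ ?_ ?_ ?_ ?_ | refine s_Show _ ?_ ?_ ?_ ?_ ?_ | refine s_Loc ?_ ?_ ?_ | refine s_Lev ?_ ?_ ?_ | refine s_Fra ?_ ?_ ?_ | refine s_Frb ?_ ?_ ?_ | refine s_PP _ ?_ ?_ ?_ | refine s_QQ _ ?_ ?_ ?_ | refine s_Ph _ ?_ ?_ | refine s_M _ ?_ | refine s_and ?_ ?_ | refine s_or ?_ ?_ | refine s_eq ?_ ?_ | refine s_ne ?_ ?_ | refine s_not_eq ?_ ?_ | refine s_lt ?_ ?_ | refine s_le ?_ ?_ | refine s_not_lt ?_ ?_ | refine s_not_le ?_ ?_ | refine s_not_and ?_ ?_ | refine s_not_or ?_ ?_ | refine s_not_not ?_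 | refine s_ball ?_ ?_ | refine s_ball_le ?_ ?_ | refine s_mem ?_ ?_ | refine s_ex ?_ | refine s_imp ?_ ?_ | refine p_ms ?_ | refine p_qq ?_ ?_ ?_ | refine p_st ?_ ?_ | refine p_ta ?_ ?_ | refine p_tb ?_ ?_ | refine p_kk ?_ ?_ ?_ | refine p_ty ?_ ?_ ?_ | refine p_lk ?_ ?_ ?_ | refine p_pt ?_ | refine p_DD ?_ | refine p_KK ?_ | refine p_al ?_ | refine p_la ?_ ?_ | refine p_lb ?_ ?_ ?_ ?_ ?_ | refine p_fst ?_ | refine p_snd ?_ | refine p_unpair ?_ | refine p_npair ?_ ?_ | refine p_getD _ ?_ ?_ | refine p_length ?_ | refine p_add ?_ ?_ | refine p_mul ?_ ?_)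

variable {R}

theorem TO.ty_of_Te {γ : ℕ → Set ℕ} {e b i : ℕ} (he : e < b + 1)
    (hi : Al b (R.fv b) i) (hT : R.Te e b) : ty (R.fv b) e i = 1 := by
  obtain ⟨s, v, u, y, ⟨hs, rfl⟩, h4, hu, hy, h1⟩ := hT
  obtain ⟨T, hT⟩ := (((R.gi b hs).ti e he).h4 h4).d2
  have h2 := hT _ (Al_qq hu hy)
  have h3 := hT i ((R.gf b).mon s hs i hi)
  obtain ⟨_, _, _, _, g5⟩ := R.frozen he h4 (R.n b) hs le_rfl
  change ty (R.V b (R.n b)) e i = 1
  rw [g5]
  omega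

theorem TO.ty_of_not_Te {γ : ℕ → Set ℕ} {e b i : ℕ} (h : R.TO γ e) (he : e < b + 1)
    (hi : Al b (R.fv b) i) (hT : ¬ R.Te e b) : ty (R.fv b) e i = 0 := by
  rcases h.ty_cases he hi with h1 | h1
  · exact h1
  · exfalso
    obtain ⟨u, hu, y, hy, rfl⟩ := hi
    exact hT ⟨R.n b, R.fv b, u, y, ⟨le_rfl, rfl⟩, h.joined he, hu, hy, h1⟩

/-- Every block function is defined from finitely much information -/
theorem TO.tables {γ : ℕ → Set ℕ} {e : ℕ} (h : R.TO γ e) (d : Bool) (N : ℕ) :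
    ∃ (B : ℕ) (tbl tbl0 : List ℕ), ∀ b i, b < N →
      (i < B → γ (tbl.getD (Nat.pair b i) 0) = R.num d (Nat.pair b i)) ∧
      (B ≤ i → γ (tbl0.getD b 0) = R.num d (Nat.pair b i)) := by
  classical
  have hB : ∃ B, ∀ b, b < N → ∀ i, B ≤ i → ¬ Al b (R.fv b) i := by
    induction N with
    | zero => exact ⟨0, fun b hb => absurd hb (by omega)⟩
    | succ N ih =>
      obtain ⟨B, hB⟩ := ih
      obtain ⟨B', hB'⟩ := exists_bound (R.fv N)
      refine ⟨max B B', fun b hb i hi => ?_⟩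
      rcases Nat.lt_or_ge b N with h1 | h1
      · exact hB b h1 i (le_trans (le_max_left _ _) hi)
      · have : b = N := by omega
        subst this
        rintro ⟨u, _, y, _, hq⟩
        have h2 := hB' 1 (Nat.pair u y)
        have h3 := le_max_right B B'
        unfold qq at hq
        omega
  obtain ⟨B, hB⟩ := hB
  have hex : ∀ x, ∃ k, γ k = R.num d x := by
    intro x
    have : R.num d x ∈ Set.range γ := by
      rw [h.rng, ← R.range_num d]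
      exact ⟨x, rfl⟩
    exact this
  choose f hf using hex
  refine ⟨B, (List.range (Nat.pair N B)).map f, (List.range N).map (fun b => f (Nat.pair b B)),
    ?_⟩
  intro b i hb
  constructor
  · intro hi
    have hlt : Nat.pair b i < Nat.pair N B :=
      lt_trans (Nat.pair_lt_pair_left i hb) (Nat.pair_lt_pair_right N hi)
    rw [List.getD_eq_getElem?_getD, List.getElem?_map, List.getElem?_range hlt]
    exact hf _
  · intro hi
    rw [List.getD_eq_getElem?_getD, List.getElem?_map, List.getElem?_range hb]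
    change γ (f (Nat.pair b B)) = _
    rw [hf, R.num_pair, R.num_pair, cs_dead d (hB b hb B le_rfl), cs_dead d (hB b hb i hi)]

theorem TO.red {γ : ℕ → Set ℕ} {e : ℕ} (h : R.TO γ e)
    (hC : ∀ W : ℕ → Prop, SD W → {x | ¬ A.M x ∧ W x}.Finite ∨ {x | ¬ A.M x ∧ ¬ W x}.Finite) :
    ∃ (d : Bool) (f : ℕ → ℕ), Computable f ∧ ∀ x, γ (f x) = R.num d x := by
  have hN : ∃ (d : Bool) (N : ℕ), e ≤ N ∧ ∀ b, N ≤ b → ∀ i, Al b (R.fv b) i →
      ty (R.fv b) e i = if d then 1 else 0 := by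
    rcases hC _ (R.s_Te e) with hfin | hfin
    · obtain ⟨N, hN⟩ := hfin.bddAbove
      refine ⟨false, max e (N + 1), le_max_left _ _, fun b hb i hi => ?_⟩
      have he : e < b + 1 := by have := le_max_left e (N + 1); omega
      have hbN : N < b := by have := le_max_right e (N + 1); omega
      have hM : ¬ A.M b := fun hM => not_Al_of_ms (R.collapsed hM) i hi
      refine h.ty_of_not_Te he hi ?_
      intro hT
      have := hN (show b ∈ {x | ¬ A.M x ∧ R.Te e x} from ⟨hM, hT⟩)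
      omega
    · obtain ⟨N, hN⟩ := hfin.bddAbove
      refine ⟨true, max e (N + 1), le_max_left _ _, fun b hb i hi => ?_⟩
      have he : e < b + 1 := by have := le_max_left e (N + 1); omega
      have hbN : N < b := by have := le_max_right e (N + 1); omega
      have hM : ¬ A.M b := fun hM => not_Al_of_ms (R.collapsed hM) i hi
      refine TO.ty_of_Te (γ := γ) he hi ?_
      by_contra hT
      have := hN (show b ∈ {x | ¬ A.M x ∧ ¬ R.Te e x} from ⟨hM, hT⟩)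
      omega
  obtain ⟨d, N, heN, hN⟩ := hN
  obtain ⟨B, tbl, tbl0, htab⟩ := h.tables d N
  have hsd : SD (fun x : ℕ × ℕ =>
      (N ≤ x.1.unpair.1 ∧ R.Fx e x.1 x.2) ∨ (x.1.unpair.1 < N ∧
        ((x.1.unpair.2 < B ∧ x.2 = tbl.getD (Nat.pair x.1.unpair.1 x.1.unpair.2) 0) ∨
         (B ≤ x.1.unpair.2 ∧ x.2 = tbl0.getD x.1.unpair.1 0)))) := by
    have := R.s_Fx e
    (repeat' with_reducible first | assumption | exact p_id | exact p_const _ | refine s_Al ?_ ?_ ?_ | refine s_not_Al ?_ ?_ ?_ | refine s_At _ ?_ ?_ ?_ | refine s_ShL _ ?_ ?_ ?_ ?_ ?_ | refine s_Drp _ ?_ ?_ ?_ ?_ ?_ | refine s_Show _ ?_ ?_ ?_ ?_ ?_ | refine s_Loc ?_ ?_ ?_ | refine s_Lev ?_ ?_ ?_ | refine s_Fra ?_ ?_ ?_ | refine s_Frb ?_ ?_ ?_ | refine s_PP _ ?_ ?_ ?_ | refine s_QQ _ ?_ ?_ ?_ | refine s_Ph _ ?_ ?_ | refine s_M _ ?_ | refine s_and ?_ ?_ | refine s_or ?_ ?_ | refine s_eq ?_ ?_ | refine s_ne ?_ ?_ | refine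 s_not_eq ?_ ?_ | refine s_lt ?_ ?_ | refine s_le ?_ ?_ | refine s_not_lt ?_ ?_ | refine s_not_le ?_ ?_ | refine s_not_and ?_ ?_ | refine s_not_or ?_ ?_ | refine s_not_not ?_ | refine s_ball ?_ ?_ | refine s_ball_le ?_ ?_ | refine s_mem ?_ ?_ | refine s_ex ?_ | refine s_imp ?_ ?_ | refine p_ms ?_ | refine p_qq ?_ ?_ ?_ | refine p_st ?_ ?_ | refine p_ta ?_ ?_ | refine p_tb ?_ ?_ | refine p_kk ?_ ?_ ?_ | refine p_ty ?_ ?_ ?_ | refine p_lk ?_ ?_ ?_ | refine p_pt ?_ | refine p_DD ?_ | refine p_KK ?_ | refine p_al ?_ | refine p_la ?_ ?_ | refine p_lb ?_ ?_ ?_ ?_ ?_ | refine p_fst ?_ | refine p_snd ?_ | refine p_unpair ?_ | refine p_npair ?_ ?_ | refine p_getD _ ?_ ?_)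
  obtain ⟨f, hf, hR⟩ := exists_sel_total
    (R := fun x k => (N ≤ x.unpair.1 ∧ R.Fx e x k) ∨ (x.unpair.1 < N ∧
        ((x.unpair.2 < B ∧ k = tbl.getD (Nat.pair x.unpair.1 x.unpair.2) 0) ∨
         (B ≤ x.unpair.2 ∧ k = tbl0.getD x.unpair.1 0)))) hsd (by
      intro x
      rcases Nat.lt_or_ge x.unpair.1 N with h1 | h1
      · rcases Nat.lt_or_ge x.unpair.2 B with h2 | h2
        · exact ⟨_, Or.inr ⟨h1, Or.inl ⟨h2, rfl⟩⟩⟩
        · exact ⟨_, Or.inr ⟨h1, Or.inr ⟨h2, rfl⟩⟩⟩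
      · refine ⟨R.kx e x.unpair.1 x.unpair.2, Or.inl ⟨h1, ?_⟩⟩
        have := (R.Fx_iff (e := e) (b := x.unpair.1) (i := x.unpair.2)
          (k := R.kx e x.unpair.1 x.unpair.2) (by omega) (h.joined (by omega))).2 rfl
        rwa [Nat.pair_unpair] at this)
  refine ⟨d, f, hf, fun x => ?_⟩
  rcases hR x with ⟨h1, h2⟩ | ⟨h1, ⟨h2, h3⟩ | ⟨h2, h3⟩⟩
  · rw [← Nat.pair_unpair x, R.Fx_iff (by omega) (h.joined (by omega))] at h2
    rw [Nat.pair_unpair] at h2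
    rw [h2, h.block (by omega) d (hN _ h1), Nat.pair_unpair]
  · rw [h3]
    have := (htab _ x.unpair.2 h1).1 h2
    rw [this, Nat.pair_unpair]
  · rw [h3]
    have := (htab _ x.unpair.2 h1).2 h2
    rw [this, Nat.pair_unpair]

end Run

end Pool.Agent.H36.MinNum
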