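import Pool.Agent.H36.LFI.Base

/-!
Automation for primitive recursive functions and semidecidable predicates.
-/

namespace Pool.Agent.H36.MinNum

open Pool.Agent.H36.LFI

section Prim

variable {α β γ σ : Type} [Primcodable α] [Primcodable β] [Primcodable γ] [Primcodable σ]

theorem p_id : Primrec (fun a : α => a) := Primrec.id
theorem p_const (c : β) : Primrec (fun _ : α => c) := Primrec.const c
theorem p_fst {f : α → β × γ} (h : Primrec f) : Primrec (fun a => (f a).1) := Primrec.fst.comp h
theorem p_snd {f : α → β × γ} (h : Primrec f) : Primrec (fun a => (f a).2) := Primrec.snd.comp h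
theorem p_pair {f : α → β} {g : α → γ} (hf : Primrec f) (hg : Primrec g) :
    Primrec (fun a => (f a, g a)) := hf.pair hg
theorem p_add {f g : α → ℕ} (hf : Primrec f) (hg : Primrec g) :
    Primrec (fun a => f a + g a) := Primrec.nat_add.comp hf hg
theorem p_sub {f g : α → ℕ} (hf : Primrec f) (hg : Primrec g) :
    Primrec (fun a => f a - g a) := Primrec.nat_sub.comp hf hg
theorem p_mul {f g : α → ℕ} (hf : Primrec f) (hg : Primrec g) :
    Primrec (fun a => f a * g a) := Primrec.nat_mul.comp hf hg
theorem p_div {f g : α → ℕ} (hf : Primrec f) (hg : Primrec g) :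
    Primrec (fun a => f a / g a) := Primrec.nat_div.comp hf hg
theorem p_mod {f g : α → ℕ} (hf : Primrec f) (hg : Primrec g) :
    Primrec (fun a => f a % g a) := Primrec.nat_mod.comp hf hg
theorem p_pow {f g : α → ℕ} (hf : Primrec f) (hg : Primrec g) :
    Primrec (fun a => f a ^ g a) := by
  have h : Primrec₂ ((· ^ ·) : ℕ → ℕ → ℕ) := Primrec₂.unpaired'.1 Nat.Primrec.pow
  exact h.comp hf hg
theorem p_npair {f g : α → ℕ} (hf : Primrec f) (hg : Primrec g) :
    Primrec (fun a => Nat.pair (f a) (g a)) := Primrec₂.natPair.comp hf hg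
theorem p_unpair {f : α → ℕ} (hf : Primrec f) :
    Primrec (fun a => (f a).unpair) := Primrec.unpair.comp hf
theorem p_getD {f : α → List ℕ} {g : α → ℕ} (d : ℕ) (hf : Primrec f) (hg : Primrec g) :
    Primrec (fun a => (f a).getD (g a) d) := (Primrec.list_getD d).comp hf hg
theorem p_length {f : α → List β} (hf : Primrec f) :
    Primrec (fun a => (f a).length) := Primrec.list_length.comp hf

end Prim


section Sem

variable {α β γ : Type} [Primcodable α] [Primcodable β] [Primcodable γ]

theorem s_and {p q : α → Prop} (h : SD p) (h' : SD q) : SD (fun a => p a ∧ q a) := h.and h'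
theorem s_or {p q : α → Prop} (h : SD p) (h' : SD q) : SD (fun a => p a ∨ q a) := h.or h'
theorem s_ex {p : α → β → Prop} (h : SD (fun x : α × β => p x.1 x.2)) :
    SD (fun a => ∃ b, p a b) := SD.ex h

theorem s_eq {f g : α → β} (hf : Primrec f) (hg : Primrec g) : SD (fun a => f a = g a) :=
  SD.of_primrec (Primrec.eq.comp hf hg)
theorem s_ne {f g : α → β} (hf : Primrec f) (hg : Primrec g) : SD (fun a => f a ≠ g a) :=
  SD.of_primrec (PrimrecPred.not (Primrec.eq.comp hf hg))
theorem s_not_eq {f g : α → β} (hf : Primrec f) (hg : Primrec g) : SD (fun a => ¬ f a = g a) :=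
  s_ne hf hg
theorem s_lt {f g : α → ℕ} (hf : Primrec f) (hg : Primrec g) : SD (fun a => f a < g a) :=
  SD.of_primrec (Primrec.nat_lt.comp hf hg)
theorem s_le {f g : α → ℕ} (hf : Primrec f) (hg : Primrec g) : SD (fun a => f a ≤ g a) :=
  SD.of_primrec (Primrec.nat_le.comp hf hg)
theorem s_not_lt {f g : α → ℕ} (hf : Primrec f) (hg : Primrec g) : SD (fun a => ¬ f a < g a) :=
  SD.of_primrec (PrimrecPred.not (Primrec.nat_lt.comp hf hg))
theorem s_not_le {f g : α → ℕ} (hf : Primrec f) (hg : Primrec g) : SD (fun a => ¬ f a ≤ g a) :=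
  SD.of_primrec (PrimrecPred.not (Primrec.nat_le.comp hf hg))

theorem s_const (P : Prop) : SD (fun _ : α => P) := by
  by_cases h : P
  · exact (s_eq (Primrec.const 0) (Primrec.const 0)).of_eq (fun _ => by simp [h])
  · exact (s_eq (Primrec.const 0) (Primrec.const 1)).of_eq (fun _ => by simp [h])

theorem s_ball {p : α → ℕ → Prop} {n : α → ℕ} (hn : Primrec n)
    (h : SD (fun x : α × ℕ => p x.1 x.2)) : SD (fun a => ∀ i, i < n a → p a i) := by
  refine (SD.ball h (l := fun a => List.range (n a)) (Primrec.list_range.comp hn)).of_eq ?_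
  intro a
  simp

theorem s_ball_le {p : α → ℕ → Prop} {n : α → ℕ} (hn : Primrec n)
    (h : SD (fun x : α × ℕ => p x.1 x.2)) : SD (fun a => ∀ i, i ≤ n a → p a i) := by
  refine (s_ball (n := fun a => n a + 1) (by (repeat' with_reducible first | assumption | exact p_id | exact p_const _ | refine p_fst ?_ | refine p_snd ?_ | refine p_unpair ?_ | refine p_npair ?_ ?_ | refine p_getD _ ?_ ?_ | refine p_length ?_ | refine p_add ?_ ?_)) h).of_eq ?_
  intro a
  simp

theorem s_ballL {p : α → β → Prop} {l : α → List β} (hl : Primrec l)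
    (h : SD (fun x : α × β => p x.1 x.2)) : SD (fun a => ∀ i, i ∈ l a → p a i) :=
  SD.ball h hl

theorem s_mem {l : α → List β} {f : α → β} (hl : Primrec l) (hf : Primrec f) :
    SD (fun a => f a ∈ l a) := by
  refine (SD.bex (p := fun a b => b = f a) (s_eq Primrec.snd (hf.comp Primrec.fst)) hl).of_eq ?_
  intro a
  simp

/-- Implication with a primitive recursive hypothesis. -/
theorem s_imp {p q : α → Prop} (hp : SD (fun a => ¬ p a)) (hq : SD q) :
    SD (fun a => p a → q a) :=
  (hp.or hq).of_eq (fun a => by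
    constructor
    · rintro (h | h) h'
      · exact absurd h' h
      · exact h
    · intro h
      by_cases h' : p a
      · exact Or.inr (h h')
      · exact Or.inl h')

theorem s_not_and {p q : α → Prop} (h : SD (fun a => ¬ p a)) (h' : SD (fun a => ¬ q a)) :
    SD (fun a => ¬ (p a ∧ q a)) := (h.or h').of_eq (fun a => by tauto)
theorem s_not_or {p q : α → Prop} (h : SD (fun a => ¬ p a)) (h' : SD (fun a => ¬ q a)) :
    SD (fun a => ¬ (p a ∨ q a)) := (h.and h').of_eq (fun a => by tauto)
theorem s_not_not {p : α → Prop} (h : SD p) :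
    SD (fun a => ¬ ¬ p a) := h.of_eq (fun a => by tauto)

theorem s_ne_of {p : α → Prop} (h : SD (fun a => ¬ p a)) : SD (fun a => ¬ p a) := h

end Sem


section Comp

variable {α β γ : Type} [Primcodable α] [Primcodable β] [Primcodable γ]

theorem SD.compC {p : α → Prop} (h : SD p) {f : β → α} (hf : Computable f) :
    SD (fun b => p (f b)) := by
  have h1 : SD (fun x : β × α => x.2 ∈ (Part.some (f x.1))) := SD.graph hf.partrec
  refine (s_ex (p := fun b a => a ∈ (Part.some (f b)) ∧ p a)
    (s_and h1 (SD.comp h Primrec.snd))).of_eq ?_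
  intro b
  simp

theorem exists_sel {R : α → β → Prop} (h : SD (fun x : α × β => R x.1 x.2)) :
    ∃ f : α →. β, Partrec f ∧ (∀ a b, b ∈ f a → R a b) ∧ ∀ a, (∃ b, R a b) → (f a).Dom := by
  classical
  obtain ⟨q, hq, e⟩ := h
  refine ⟨fun a => Nat.rfindOpt (fun n => (Encodable.decode (α := β) n.unpair.1).bind
    (fun b => if q (a, b) n.unpair.2 then some b else none)), ?_, ?_, ?_⟩
  · refine Partrec.rfindOpt ?_
    refine Primrec.to_comp ?_
    refine Primrec.option_bind ?_ ?_
    · have h1 : Primrec (fun x : α × ℕ => x.2.unpair.1) := by (repeat' with_reducible first | assumption | exact p_id | exact p_const _ | refine p_fst ?_ | refine p_snd ?_ | refine p_unpair ?_)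
      exact Primrec.decode.comp h1
    · refine Primrec.ite ?_ ?_ (Primrec.const none)
      · have h1 : Primrec (fun x : (α × ℕ) × β => (x.1.1, x.2)) := by (repeat' with_reducible first | assumption | exact p_id | exact p_const _ | refine p_fst ?_ | refine p_snd ?_ | refine p_unpair ?_ | refine p_npair ?_ ?_ | refine p_getD _ ?_ ?_ | refine p_length ?_ | refine p_add ?_ ?_ | refine p_mul ?_ ?_ | refine p_sub ?_ ?_ | refine p_div ?_ ?_ | refine p_mod ?_ ?_ | refine p_pow ?_ ?_ | refine p_pair ?_ ?_)
        have h2 : Primrec (fun x : (α × ℕ) × β => x.1.2.unpair.2) := by (repeat' with_reducible first | assumption | exact p_id | exact p_const _ | refine p_fst ?_ | refine p_snd ?_ | refine p_unpair ?_)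
        exact hq.comp h1 h2
      · exact Primrec.option_some.comp Primrec.snd
  · intro a b hb
    obtain ⟨n, hn⟩ := Nat.rfindOpt_spec hb
    rw [Option.mem_def, Option.bind_eq_some_iff] at hn
    obtain ⟨b', hb', hn⟩ := hn
    split_ifs at hn with hq'
    · rw [Option.some.injEq] at hn
      subst hn
      exact (e (a, b')).2 ⟨_, hq'⟩
  · rintro a ⟨b, hb⟩
    obtain ⟨t, ht⟩ := (e (a, b)).1 hb
    rw [Nat.rfindOpt_dom]
    refine ⟨Nat.pair (Encodable.encode b) t, b, ?_⟩
    simp [ht]

theorem exists_sel_total {R : α → β → Prop} (h : SD (fun x : α × β => R x.1 x.2))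
    (ht : ∀ a, ∃ b, R a b) : ∃ f : α → β, Computable f ∧ ∀ a, R a (f a) := by
  obtain ⟨f, hf, h1, h2⟩ := exists_sel h
  refine ⟨fun a => (f a).get (h2 a (ht a)), ?_, fun a => h1 a _ (Part.get_mem _)⟩
  refine hf.of_eq_tot ?_
  intro a
  exact Part.get_mem _

theorem computable_of_graph {f : α → β} (h : SD (fun x : α × β => x.2 = f x.1)) :
    Computable f := by
  obtain ⟨g, hg, hR⟩ := exists_sel_total (R := fun a b => b = f a) h (fun a => ⟨_, rfl⟩)
  refine hg.of_eq ?_
  intro a
  exact hR a

end Comp

end Pool.Agent.H36.MinNum
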